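import Pool.Agent.DiamEven.Gfun

/-! Upper bound for `g_n(n/2 - x)`. -/

namespace DiamEven

open Finset

lemma sum_choose_real (n : ℕ) : ∑ j ∈ range (n + 1), (n.choose j : ℝ) = 2 ^ n := by
  rw [← Nat.cast_sum, Nat.sum_range_choose]
  push_cast
  rfl

lemma sum_choose_mul (n : ℕ) : ∑ j ∈ range (n + 1), (n.choose j : ℝ) * j = 2 ^ n * (n / 2) := by
  have h := gg_symm n 0
  unfold gg at h
  have h1 : ∀ j ∈ range (n + 1), (n.choose j : ℝ) * |(j : ℝ) - ((n : ℝ) - 0)| =
      n * (n.choose j : ℝ) - (n.choose j : ℝ) * j := by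
    intro j hj
    rw [mem_range] at hj
    have : (j : ℝ) ≤ n := by exact_mod_cast (by omega : j ≤ n)
    rw [abs_of_nonpos (by linarith)]
    ring
  have h2 : ∀ j ∈ range (n + 1), (n.choose j : ℝ) * |(j : ℝ) - 0| = (n.choose j : ℝ) * j := by
    intro j _
    rw [sub_zero, abs_of_nonneg (by positivity)]
  rw [Finset.sum_congr rfl h1, Finset.sum_congr rfl h2, Finset.sum_sub_distrib, ← Finset.mul_sum,
    sum_choose_real] at h
  linarith

lemma abs_le_exp (u lam : ℝ) (hl : 0 < lam) : |u| ≤ u + 2 / lam * Real.exp (-(lam * u)) := by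
  have he := Real.add_one_le_exp (-(lam * u))
  have hp : 0 < Real.exp (-(lam * u)) := Real.exp_pos _
  have h2 : 0 < 2 / lam := by positivity
  rcases le_or_gt 0 u with h | h
  · rw [abs_of_nonneg h]
    have := mul_pos h2 hp
    linarith
  · rw [abs_of_neg h]
    have h3 : 2 / lam * (-(lam * u)) ≤ 2 / lam * Real.exp (-(lam * u)) := by
      apply mul_le_mul_of_nonneg_left (by linarith) h2.le
    have h4 : 2 / lam * (-(lam * u)) = -2 * u := by field_simp
    linarith

/-- `g_n(n/2 - x) ≤ 2^n (x + (n/(2x)) exp(-2x²/n))` -/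
theorem gg_tail (n : ℕ) (hn : 0 < n) (x : ℝ) (hx : 0 < x) :
    gg n ((n : ℝ) / 2 - x) ≤ 2 ^ n * (x + (n : ℝ) / (2 * x) * Real.exp (-(2 * x ^ 2 / n))) := by
  have hnR : (0 : ℝ) < n := by exact_mod_cast hn
  set lam : ℝ := 4 * x / n with hlam
  have hl : 0 < lam := by positivity
  set ρ : ℝ := (n : ℝ) / 2 - x with hρ
  have h1 : gg n ρ ≤ ∑ j ∈ range (n + 1), ((n.choose j : ℝ) * j - ρ * (n.choose j : ℝ) +
      2 / lam * Real.exp (lam * ρ) * ((n.choose j : ℝ) * Real.exp (-lam) ^ j)) := by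
    unfold gg
    apply Finset.sum_le_sum
    intro j _
    have hc : (0 : ℝ) ≤ n.choose j := by positivity
    have h2 := abs_le_exp ((j : ℝ) - ρ) lam hl
    have h3 := mul_le_mul_of_nonneg_left h2 hc
    refine h3.trans (le_of_eq ?_)
    have h4 : Real.exp (-(lam * ((j : ℝ) - ρ))) = Real.exp (lam * ρ) * Real.exp (-lam) ^ j := by
      rw [← Real.exp_nat_mul, ← Real.exp_add]
      congr 1
      ring
    rw [h4]
    ring
  have h5 : ∑ j ∈ range (n + 1), (n.choose j : ℝ) * Real.exp (-lam) ^ j =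
      (1 + Real.exp (-lam)) ^ n := by
    rw [add_comm (1 : ℝ), add_pow]
    apply Finset.sum_congr rfl
    intro j _
    rw [one_pow]
    ring
  rw [Finset.sum_add_distrib, Finset.sum_sub_distrib, ← Finset.mul_sum, ← Finset.mul_sum,
    sum_choose_real, sum_choose_mul, h5] at h1
  have h6 : 1 + Real.exp (-lam) ≤ 2 * Real.exp (-(lam / 2) + lam ^ 2 / 8) := by
    have hc := Real.cosh_le_exp_half_sq (lam / 2)
    rw [Real.cosh_eq] at hc
    have h7 : 1 + Real.exp (-lam) = Real.exp (-(lam / 2)) *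
        (Real.exp (lam / 2) + Real.exp (-(lam / 2))) := by
      rw [mul_add, ← Real.exp_add, ← Real.exp_add]
      rw [show -(lam / 2) + lam / 2 = 0 by ring, Real.exp_zero,
        show -(lam / 2) + -(lam / 2) = -lam by ring]
    rw [h7, Real.exp_add]
    have h8 : Real.exp (lam / 2) + Real.exp (-(lam / 2)) ≤ 2 * Real.exp (lam ^ 2 / 8) := by
      have : (lam / 2) ^ 2 / 2 = lam ^ 2 / 8 := by ring
      rw [this] at hc
      linarith
    have h9 := mul_le_mul_of_nonneg_left h8 (Real.exp_pos (-(lam / 2))).le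
    linarith
  have h10 : (1 + Real.exp (-lam)) ^ n ≤ 2 ^ n * Real.exp (n * (-(lam / 2) + lam ^ 2 / 8)) := by
    have h0 : 0 ≤ 1 + Real.exp (-lam) := by positivity
    have := pow_le_pow_left₀ h0 h6 n
    rw [mul_pow, ← Real.exp_nat_mul] at this
    exact this
  have h11 : 2 / lam * Real.exp (lam * ρ) * (1 + Real.exp (-lam)) ^ n ≤
      2 ^ n * ((n : ℝ) / (2 * x) * Real.exp (-(2 * x ^ 2 / n))) := by
    have hpos : 0 ≤ 2 / lam * Real.exp (lam * ρ) := by positivity
    refine (mul_le_mul_of_nonneg_left h10 hpos).trans (le_of_eq ?_)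
    have e1 : 2 / lam = (n : ℝ) / (2 * x) := by rw [hlam]; field_simp; ring
    have e2 : Real.exp (lam * ρ) * Real.exp (n * (-(lam / 2) + lam ^ 2 / 8)) =
        Real.exp (-(2 * x ^ 2 / n)) := by
      rw [← Real.exp_add]
      congr 1
      rw [hlam, hρ]
      field_simp
      ring
    calc 2 / lam * Real.exp (lam * ρ) * (2 ^ n * Real.exp (n * (-(lam / 2) + lam ^ 2 / 8)))
        = 2 ^ n * (2 / lam * (Real.exp (lam * ρ) * Real.exp (n * (-(lam / 2) + lam ^ 2 / 8)))) := by
          ring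
      _ = _ := by rw [e1, e2]
  have h12 : (2 : ℝ) ^ n * ((n : ℝ) / 2) - ρ * 2 ^ n = 2 ^ n * x := by rw [hρ]; ring
  linarith

end DiamEven
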