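import Pool.Agent.DiamEven.Iid
import Pool.Agent.DiamEven.Tail

/-! The mean distance inequality for families of bounded diameter, and its asymptotic form. -/

namespace DiamEven

open Finset

lemma card_symmDiff_tri {α : Type*} [DecidableEq α] (A B C : Finset α) :
    (symmDiff A C).card ≤ (symmDiff A B).card + (symmDiff B C).card := by
  have h : symmDiff A C ⊆ symmDiff A B ∪ symmDiff B C := symmDiff_triangle A B C
  exact (card_le_card h).trans (card_union_le _ _)

/-- cross inequality -/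
theorem cross_iid (n k a b : ℕ) (hk : k ≤ n) (t u : ℝ) (ht0 : 0 ≤ t) (ht1 : t ≤ 1)
    (hu0 : 0 ≤ u) (hu1 : u ≤ 1) (ha : 2 * a + 1 ≤ n) (hb : 2 * b + 1 ≤ n)
    (F G : Finset (Finset (Fin n)))
    (hF : IsAntichain (· ⊆ ·) (F : Set (Finset (Fin n))))
    (hG : IsAntichain (· ⊆ ·) (G : Set (Finset (Fin n))))
    (hd : ∀ A ∈ F, ∀ B ∈ G, (symmDiff A B).card ≤ n - k)
    (hFc : (n.choose a : ℝ) + t * ((n.choose (a + 1) : ℝ) - n.choose a) ≤ F.card)
    (hGc : (n.choose b : ℝ) + u * ((n.choose (b + 1) : ℝ) - n.choose b) ≤ G.card) :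
    (k : ℝ) * 2 ^ n ≤ gg n ((a : ℝ) + t) + gg n ((b : ℝ) + u) := by
  obtain ⟨f, hf, hfs⟩ := selStat (α := Fin n) n univ (by simp) F hF (fun A _ => subset_univ A) a t
    ht0 ht1 ha (by rw [dd_succ]; exact hFc)
  obtain ⟨g, hg, hgs⟩ := selStat (α := Fin n) n univ (by simp) G hG (fun A _ => subset_univ A) b u
    hu0 hu1 hb (by rw [dd_succ]; exact hGc)
  rw [Finset.powerset_univ] at hfs hgs
  have h1 : ∑ X : Finset (Fin n), ((symmDiff Xᶜ (g Xᶜ)).card : ℝ) =
      ∑ X : Finset (Fin n), ((symmDiff X (g X)).card : ℝ) :=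
    Equiv.sum_comp (Function.Involutive.toPerm compl compl_involutive)
      (fun X : Finset (Fin n) => ((symmDiff X (g X)).card : ℝ))
  have h2 : ∀ X : Finset (Fin n), (k : ℝ) ≤ ((symmDiff X (f X)).card : ℝ) +
      ((symmDiff Xᶜ (g Xᶜ)).card : ℝ) := by
    intro X
    have e1 := card_symmDiff_tri X (f X) Xᶜ
    have e2 := card_symmDiff_tri (f X) (g Xᶜ) Xᶜ
    have e3 := hd (f X) (hf X (subset_univ _)) (g Xᶜ) (hg Xᶜ (subset_univ _))
    have e4 : (symmDiff X Xᶜ).card = n := by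
      rw [symmDiff_compl_self, top_eq_univ, card_univ, Fintype.card_fin]
    rw [symmDiff_comm (g Xᶜ)] at e2
    have : k ≤ (symmDiff X (f X)).card + (symmDiff Xᶜ (g Xᶜ)).card := by omega
    exact_mod_cast this
  have h3 : ∑ _X : Finset (Fin n), (k : ℝ) ≤ ∑ X : Finset (Fin n),
      (((symmDiff X (f X)).card : ℝ) + ((symmDiff Xᶜ (g Xᶜ)).card : ℝ)) :=
    Finset.sum_le_sum (fun X _ => h2 X)
  rw [Finset.sum_const, Finset.sum_add_distrib, h1, card_univ, Fintype.card_finset,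
    Fintype.card_fin, nsmul_eq_mul] at h3
  push_cast at h3
  linarith

theorem diam_iid (n k a : ℕ) (hk : k ≤ n) (t : ℝ) (ht0 : 0 ≤ t) (ht1 : t ≤ 1)
    (ha : 2 * a + 1 ≤ n) (F : Finset (Finset (Fin n)))
    (hF : IsAntichain (· ⊆ ·) (F : Set (Finset (Fin n))))
    (hd : ∀ A ∈ F, ∀ B ∈ F, (symmDiff A B).card ≤ n - k)
    (hFc : (n.choose a : ℝ) + t * ((n.choose (a + 1) : ℝ) - n.choose a) ≤ F.card) :
    (k : ℝ) * 2 ^ n ≤ 2 * gg n ((a : ℝ) + t) := by
  have := cross_iid n k a a hk t t ht0 ht1 ht0 ht1 ha ha F F hF hF hd hFc hFc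
  linarith

/-- the same with the tail bound, `x = n/2 - a - t` -/
theorem diam_tail (n k a : ℕ) (hn : 0 < n) (hk : k ≤ n) (t : ℝ) (ht0 : 0 ≤ t) (ht1 : t ≤ 1)
    (ha : 2 * a + 1 ≤ n) (F : Finset (Finset (Fin n)))
    (hF : IsAntichain (· ⊆ ·) (F : Set (Finset (Fin n))))
    (hd : ∀ A ∈ F, ∀ B ∈ F, (symmDiff A B).card ≤ n - k)
    (hFc : (n.choose a : ℝ) + t * ((n.choose (a + 1) : ℝ) - n.choose a) ≤ F.card)
    (x : ℝ) (hx : 0 < x) (hxa : x = (n : ℝ) / 2 - (a + t)) :
    (k : ℝ) ≤ 2 * x + (n : ℝ) / x * Real.exp (-(2 * x ^ 2 / n)) := by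
  have h1 := diam_iid n k a hk t ht0 ht1 ha F hF hd hFc
  have h2 := gg_tail n hn x hx
  have h3 : (n : ℝ) / 2 - x = (a : ℝ) + t := by rw [hxa]; ring
  rw [h3] at h2
  have h4 : (k : ℝ) * 2 ^ n ≤ (2 * x + (n : ℝ) / x * Real.exp (-(2 * x ^ 2 / n))) * 2 ^ n := by
    refine h1.trans ?_
    have h5 : 2 * (2 ^ n * (x + (n : ℝ) / (2 * x) * Real.exp (-(2 * x ^ 2 / n)))) =
        (2 * x + (n : ℝ) / x * Real.exp (-(2 * x ^ 2 / n))) * 2 ^ n := by
      have : (n : ℝ) / (2 * x) = (n : ℝ) / x / 2 := by rw [mul_comm, div_mul_eq_div_div]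
      rw [this]
      ring
    linarith
  exact le_of_mul_le_mul_right h4 (by positivity)

lemma exp_neg_le_inv (u : ℝ) (hu : 0 < u) : Real.exp (-u) ≤ 1 / u := by
  rw [Real.exp_neg, ← one_div]
  apply one_div_le_one_div_of_le hu
  have := Real.add_one_le_exp u
  linarith

/-- growth of binomial coefficients -/
lemma choose_growth (n s : ℕ) (r : ℝ) (hr : 0 ≤ r) (hrs : ((n : ℝ) - s) ≤ r * (s + 1)) (j : ℕ)
    (hj : s + j ≤ n) : (n.choose (s + j) : ℝ) ≤ n.choose s * r ^ j := by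
  induction j with
  | zero => simp
  | succ j ih =>
    have ih' := ih (by omega)
    have h1 := Nat.choose_succ_right_eq n (s + j)
    have h2 : (n.choose (s + j + 1) : ℝ) * ((s + j : ℕ) + 1 : ℝ) =
        n.choose (s + j) * ((n : ℝ) - (s + j : ℕ)) := by
      have : ((n.choose (s + j + 1) * (s + j + 1) : ℕ) : ℝ) =
          ((n.choose (s + j) * (n - (s + j)) : ℕ) : ℝ) := by rw [h1]
      rw [Nat.cast_mul, Nat.cast_mul, Nat.cast_sub (by omega)] at this
      push_cast at this ⊢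
      exact this
    have h3 : (0 : ℝ) < ((s + j : ℕ) + 1 : ℝ) := by positivity
    have h4 : ((n : ℝ) - (s + j : ℕ)) ≤ r * ((s + j : ℕ) + 1) := by
      push_cast
      have : 0 ≤ r * j := by positivity
      have : (0 : ℝ) ≤ j := by positivity
      nlinarith
    have h5 : (n.choose (s + j + 1) : ℝ) * ((s + j : ℕ) + 1 : ℝ) ≤
        (n.choose (s + j) * r) * ((s + j : ℕ) + 1 : ℝ) := by
      rw [h2, mul_assoc]
      exact mul_le_mul_of_nonneg_left h4 (by positivity)
    have h6 := le_of_mul_le_mul_right h5 h3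
    rw [← add_assoc, pow_succ, ← mul_assoc]
    exact h6.trans (mul_le_mul_of_nonneg_right ih' hr)

/-- Asymptotic form, both parities. -/
theorem asym (ε : ℝ) (hε : 0 < ε) : ∃ C : ℝ, 0 < C ∧ ∀ n k : ℕ, 1 ≤ k → k ≤ n →
    C * n ≤ (k : ℝ) ^ 2 → C * k ≤ n → ∀ F : Finset (Finset (Fin n)),
      IsAntichain (· ⊆ ·) (F : Set (Finset (Fin n))) →
      (∀ A ∈ F, ∀ B ∈ F, (symmDiff A B).card ≤ n - k) →
      (F.card : ℝ) ≤ (1 + ε) * n.choose ((n + k + 1) / 2) := by
  set lam : ℝ := Real.log (1 + ε) with hlam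
  have hl : 0 < lam := Real.log_pos (by linarith)
  refine ⟨256 / lam + lam + 16, by positivity, ?_⟩
  intro n k hk1 hkn hC1 hC2 F hF hd
  set C : ℝ := 256 / lam + lam + 16 with hCdef
  have hCl : 256 / lam < C := by rw [hCdef]; linarith
  have hCl' : lam ≤ C := by rw [hCdef]; have : 0 < 256 / lam := by positivity
                            linarith
  have hC16 : 16 ≤ C := by rw [hCdef]; have : 0 < 256 / lam := by positivity
                           linarith
  have hCpos : 0 < C := by linarith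
  obtain ⟨s, k', hs1, hs2, hs3, hs4⟩ : ∃ s k' : ℕ, n = 2 * s + k' ∧ k ≤ k' ∧ k' ≤ k + 1 ∧
      n - (n + k + 1) / 2 = s := ⟨(n - k) / 2, n - 2 * ((n - k) / 2), by omega, by omega, by omega,
      by omega⟩
  have hch : n.choose ((n + k + 1) / 2) = n.choose s := by
    rw [← hs4]; exact (Nat.choose_symm (by omega)).symm
  rw [hch]
  by_contra hcon
  push Not at hcon
  -- real versions
  have hn0 : 0 < n := by omega
  have hnR : (0 : ℝ) < n := by exact_mod_cast hn0
  have hkR1 : (1 : ℝ) ≤ k := by exact_mod_cast hk1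
  have hknR : (k : ℝ) ≤ n := by exact_mod_cast hkn
  have hk'1 : (k : ℝ) ≤ k' := by exact_mod_cast hs2
  have hk'2 : (k' : ℝ) ≤ k + 1 := by exact_mod_cast hs3
  have hnE : (n : ℝ) = 2 * s + k' := by exact_mod_cast hs1
  have hk16 : (16 : ℝ) ≤ k := by
    have h1 : C * k ≤ (k : ℝ) ^ 2 := by
      have := mul_le_mul_of_nonneg_left hknR hCpos.le
      linarith
    have h2 : C ≤ k := by
      have h3 : C * k ≤ k * k := by nlinarith
      exact le_of_mul_le_mul_right h3 (by linarith)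
    linarith
  have hk'p : (0 : ℝ) < k' := by linarith
  have hk'n : 8 * (k' : ℝ) ≤ n := by
    have h1 : 16 * (k : ℝ) ≤ n := (mul_le_mul_of_nonneg_right hC16 (by linarith)).trans hC2
    linarith
  set y : ℝ := lam * n / (4 * k') with hy
  have hy0 : 0 < y := by positivity
  have hy1 : 1 ≤ y := by
    rw [hy, le_div_iff₀ (by positivity)]
    have h1 : 256 / lam * k ≤ n := (mul_le_mul_of_nonneg_right hCl.le (by linarith)).trans hC2
    have h2 : 256 * (k : ℝ) ≤ lam * n := by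
      have h3 := mul_le_mul_of_nonneg_left h1 hl.le
      have h4 : lam * (256 / lam * k) = 256 * k := by field_simp
      linarith
    linarith
  set j : ℕ := ⌊y⌋₊ with hj
  have hjy : (j : ℝ) ≤ y := Nat.floor_le hy0.le
  have hj1 : 1 ≤ j := by rw [hj]; exact Nat.one_le_floor_iff y |>.2 hy1
  have hj1R : (1 : ℝ) ≤ j := by exact_mod_cast hj1
  have hjy2 : y < j + 1 := Nat.lt_floor_add_one y
  have hyk : y ≤ k' / 4 := by
    rw [hy, div_le_iff₀ (by positivity)]
    have h1 : lam * n ≤ (k : ℝ) ^ 2 := (mul_le_mul_of_nonneg_right hCl' hnR.le).trans hC1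
    nlinarith
  have hjk : 2 * (s + j) + 1 ≤ n := by
    have h1 : (2 : ℝ) * (s + j) + 1 ≤ n := by rw [hnE]; linarith
    exact_mod_cast h1
  -- growth
  have hgr : (n.choose (s + j) : ℝ) ≤ (1 + ε) * n.choose s := by
    have h1 := choose_growth n s (1 + 4 * k' / n) (by positivity) (by
      have h2 : (4 * (k' : ℝ) / n) * (s + 1) ≥ k' := by
        rw [ge_iff_le, div_mul_eq_mul_div, le_div_iff₀ hnR]
        have h3 : (n : ℝ) ≤ 4 * (s + 1) := by linarith
        have := mul_le_mul_of_nonneg_left h3 hk'p.le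
        linarith
      have : (1 + 4 * (k' : ℝ) / n) * (s + 1) = (s + 1) + (4 * (k' : ℝ) / n) * (s + 1) := by ring
      rw [this]
      linarith) j (by omega)
    have h4 : (1 + 4 * (k' : ℝ) / n) ^ j ≤ 1 + ε := by
      have h5 : 1 + 4 * (k' : ℝ) / n ≤ Real.exp (4 * k' / n) := by
        have := Real.add_one_le_exp (4 * (k' : ℝ) / n)
        linarith
      have h6 := pow_le_pow_left₀ (by positivity) h5 j
      rw [← Real.exp_nat_mul] at h6
      refine h6.trans ?_
      have h7 : (j : ℝ) * (4 * k' / n) ≤ lam := by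
        have h8 : y * (4 * k' / n) = lam := by rw [hy]; field_simp
        have := mul_le_mul_of_nonneg_right hjy (by positivity : (0 : ℝ) ≤ 4 * k' / n)
        linarith
      have h9 := Real.exp_le_exp.2 h7
      rw [hlam, Real.exp_log (by linarith)] at h9
      exact h9
    have h10 := mul_le_mul_of_nonneg_left h4 (by positivity : (0 : ℝ) ≤ (n.choose s : ℝ))
    linarith
  have hx0 : (0 : ℝ) < k' / 2 - j := by linarith
  have hmain := diam_tail n k (s + j) hn0 hkn 0 le_rfl (by norm_num) hjk F hF hd (by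
    rw [zero_mul, add_zero]; linarith) (k' / 2 - j) hx0 (by rw [hnE]; push_cast; ring)
  set x : ℝ := k' / 2 - j with hx
  have hx4 : (k' : ℝ) / 4 ≤ x := by rw [hx]; linarith
  have e1 : (n : ℝ) / x ≤ 4 * n / k' := by
    rw [div_le_div_iff₀ hx0 hk'p]
    nlinarith
  have e2 : Real.exp (-(2 * x ^ 2 / n)) ≤ 8 / C := by
    have h1 : C / 8 ≤ 2 * x ^ 2 / n := by
      rw [div_le_div_iff₀ (by norm_num) hnR]
      have h2 : (k' : ℝ) ^ 2 / 16 ≤ x ^ 2 := by nlinarith
      have h3 : (k : ℝ) ^ 2 ≤ (k' : ℝ) ^ 2 := by nlinarith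
      nlinarith
    have h4 : Real.exp (-(2 * x ^ 2 / n)) ≤ Real.exp (-(C / 8)) := Real.exp_le_exp.2 (by linarith)
    have h5 := exp_neg_le_inv (C / 8) (by positivity)
    have h6 : 1 / (C / 8) = 8 / C := by field_simp
    linarith
  have e3 : (n : ℝ) / x * Real.exp (-(2 * x ^ 2 / n)) ≤ 4 * n / k' * (8 / C) :=
    mul_le_mul e1 e2 (Real.exp_pos _).le (by positivity)
  have e4 : (2 : ℝ) * j - 1 ≤ 4 * n / k' * (8 / C) := by
    have : 2 * x = k' - 2 * j := by rw [hx]; ring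
    linarith
  have e5 : y / 2 ≤ 2 * j - 1 := by linarith
  have e6 : y / 2 = lam * n / (8 * k') := by rw [hy]; field_simp; ring
  rw [e6] at e5
  have e7 : lam * n / (8 * k') ≤ 4 * n / k' * (8 / C) := e5.trans e4
  have e8 : 4 * (n : ℝ) / k' * (8 / C) = (256 / C) * (n / (8 * k')) := by field_simp; ring
  have e9 : lam * n / (8 * (k' : ℝ)) = lam * (n / (8 * k')) := by ring
  rw [e8, e9] at e7
  have e10 : lam ≤ 256 / C := le_of_mul_le_mul_right e7 (by positivity)
  rw [le_div_iff₀ hCpos] at e10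
  rw [div_lt_iff₀ hl] at hCl
  linarith

/-- Even case, middle range. -/
theorem asym_mid (ε : ℝ) (hε : 0 < ε) (c : ℝ) (hc : 0 < c) : ∃ C : ℝ, 0 < C ∧ ∀ n k : ℕ, 1 ≤ k →
    k ≤ n → Even (n + k) → 3 * k < n + 2 → C * n ≤ (k : ℝ) ^ 2 → (n : ℝ) < c * k →
    ∀ F : Finset (Finset (Fin n)), IsAntichain (· ⊆ ·) (F : Set (Finset (Fin n))) →
      (∀ A ∈ F, ∀ B ∈ F, (symmDiff A B).card ≤ n - k) →
      (F.card : ℝ) ≤ (1 + ε) * n.choose ((n + k) / 2) := by
  set t : ℝ := min ε 1 with ht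
  have ht0 : 0 < t := lt_min hε one_pos
  have ht1 : t ≤ 1 := min_le_right _ _
  have htε : t ≤ ε := min_le_left _ _
  refine ⟨16 * c / t + 8, by positivity, ?_⟩
  intro n k hk1 hkn he h3 hC1 hC2 F hF hd
  set C : ℝ := 16 * c / t + 8 with hCdef
  have hCl : 16 * c / t < C := by rw [hCdef]; linarith
  have hC8 : 8 ≤ C := by rw [hCdef]; have : 0 < 16 * c / t := by positivity
                         linarith
  have hCpos : 0 < C := by linarith
  obtain ⟨s, hs1, hs4⟩ : ∃ s : ℕ, n = 2 * s + k ∧ n - (n + k) / 2 = s := by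
    obtain ⟨r, hr⟩ := he
    exact ⟨(n - k) / 2, by omega, by omega⟩
  have hch : n.choose ((n + k) / 2) = n.choose s := by
    rw [← hs4]; exact (Nat.choose_symm (by omega)).symm
  rw [hch]
  by_contra hcon
  push Not at hcon
  have hn0 : 0 < n := by omega
  have hnR : (0 : ℝ) < n := by exact_mod_cast hn0
  have hkR1 : (1 : ℝ) ≤ k := by exact_mod_cast hk1
  have hknR : (k : ℝ) ≤ n := by exact_mod_cast hkn
  have hnE : (n : ℝ) = 2 * s + k := by exact_mod_cast hs1
  have hk8 : (8 : ℝ) ≤ k := by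
    have h1 : C * k ≤ (k : ℝ) ^ 2 := by
      have := mul_le_mul_of_nonneg_left hknR hCpos.le
      linarith
    have h2 : C ≤ k := by
      have h3 : C * k ≤ k * k := by nlinarith
      exact le_of_mul_le_mul_right h3 (by linarith)
    linarith
  have hkp : (0 : ℝ) < k := by linarith
  have hdouble : (n.choose (s + 1) : ℝ) ≤ 2 * n.choose s := by
    have := choose_growth n s 2 (by norm_num) (by
      have : n ≤ 3 * s + 2 := by omega
      have : (n : ℝ) ≤ 3 * s + 2 := by exact_mod_cast this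
      linarith) 1 (by omega)
    linarith
  have hcs : (0 : ℝ) < n.choose s := by exact_mod_cast Nat.choose_pos (by omega)
  have hx0 : (0 : ℝ) < k / 2 - t := by linarith
  have hmain := diam_tail n k s hn0 hkn t ht0.le ht1 (by omega) F hF hd (by
    have h4 : t * ((n.choose (s + 1) : ℝ) - n.choose s) ≤ ε * n.choose s := by
      have h5 : t * ((n.choose (s + 1) : ℝ) - n.choose s) ≤ t * n.choose s :=
        mul_le_mul_of_nonneg_left (by linarith) ht0.le
      have h6 := mul_le_mul_of_nonneg_right htε hcs.le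
      linarith
    linarith) (k / 2 - t) hx0 (by rw [hnE]; ring)
  set x : ℝ := k / 2 - t with hx
  have hx4 : (k : ℝ) / 4 ≤ x := by rw [hx]; linarith
  have e1 : (n : ℝ) / x ≤ 4 * n / k := by
    rw [div_le_div_iff₀ hx0 hkp]
    nlinarith
  have e2 : Real.exp (-(2 * x ^ 2 / n)) ≤ 8 * n / k ^ 2 := by
    have h1 : (k : ℝ) ^ 2 / (8 * n) ≤ 2 * x ^ 2 / n := by
      rw [div_le_div_iff₀ (by positivity) hnR]
      have h2 : (k : ℝ) ^ 2 / 16 ≤ x ^ 2 := by nlinarith
      nlinarith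
    have h4 : Real.exp (-(2 * x ^ 2 / n)) ≤ Real.exp (-((k : ℝ) ^ 2 / (8 * n))) :=
      Real.exp_le_exp.2 (by linarith)
    have h5 := exp_neg_le_inv ((k : ℝ) ^ 2 / (8 * n)) (by positivity)
    have h6 : 1 / ((k : ℝ) ^ 2 / (8 * n)) = 8 * n / k ^ 2 := by field_simp
    linarith
  have e3 : (n : ℝ) / x * Real.exp (-(2 * x ^ 2 / n)) ≤ 4 * n / k * (8 * n / k ^ 2) :=
    mul_le_mul e1 e2 (Real.exp_pos _).le (by positivity)
  have e4 : 2 * t ≤ 4 * n / k * (8 * n / k ^ 2) := by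
    have : 2 * x = k - 2 * t := by rw [hx]; ring
    linarith
  have e5 : 4 * (n : ℝ) / k * (8 * n / k ^ 2) ≤ 32 * c / C := by
    have h1 : 4 * (n : ℝ) / k ≤ 4 * c := by
      rw [div_le_iff₀ hkp]; linarith
    have h2 : 8 * (n : ℝ) / k ^ 2 ≤ 8 / C := by
      rw [div_le_div_iff₀ (by positivity) hCpos]; linarith
    have h3 := mul_le_mul h1 h2 (by positivity) (by positivity)
    have h4 : 4 * c * (8 / C) = 32 * c / C := by ring
    linarith
  have e6 := e4.trans e5
  rw [le_div_iff₀ hCpos] at e6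
  rw [div_lt_iff₀ ht0] at hCl
  nlinarith

end DiamEven
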