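import Mathlib

/-! The convexity inequality between consecutive differences of binomial coefficients. -/

namespace DiamEven

/-- `C(m,j)-C(m,j-1)`, as a real number. -/
noncomputable def dd (m j : ℕ) : ℝ := 2 * (m.choose j : ℝ) - ((m + 1).choose j : ℝ)

lemma dd_zero (m : ℕ) : dd m 0 = 1 := by simp [dd]; norm_num

lemma dd_succ (m j : ℕ) : dd m (j + 1) = (m.choose (j + 1) : ℝ) - m.choose j := by
  unfold dd
  rw [Nat.choose_succ_succ]
  push_cast
  ring

/-- Pascal for differences -/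
lemma dd_pascal (m j : ℕ) : dd (m + 1) (j + 1) = dd m (j + 1) + dd m j := by
  rw [dd_succ, dd_succ]
  unfold dd
  rw [Nat.choose_succ_succ]
  push_cast
  ring

lemma dd_mul (m a : ℕ) (h : a ≤ m) :
    dd m a * ((m : ℝ) - a + 1) = (m.choose a : ℝ) * ((m : ℝ) - 2 * a + 1) := by
  unfold dd
  have h1 : (m + 1) * m.choose a = (m + 1).choose a * (m + 1 - a) := by
    rw [mul_comm]; exact Nat.choose_mul_succ_eq m a
  have h2 : ((m : ℝ) + 1) * m.choose a = (m + 1).choose a * ((m : ℝ) + 1 - a) := by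
    have : (((m + 1) * m.choose a : ℕ) : ℝ) = (((m + 1).choose a * (m + 1 - a) : ℕ) : ℝ) := by
      rw [h1]
    rw [Nat.cast_mul, Nat.cast_mul, Nat.cast_sub (by omega)] at this
    push_cast at this
    exact this
  linear_combination h2

lemma dd_succ_mul (m a : ℕ) (h : a ≤ m) :
    dd m (a + 1) * ((a : ℝ) + 1) = (m.choose a : ℝ) * ((m : ℝ) - 2 * a - 1) := by
  rw [dd_succ]
  have h1 := Nat.choose_succ_right_eq m a
  have h2 : (m.choose (a + 1) : ℝ) * ((a : ℝ) + 1) = m.choose a * ((m : ℝ) - a) := by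
    have : ((m.choose (a + 1) * (a + 1) : ℕ) : ℝ) = ((m.choose a * (m - a) : ℕ) : ℝ) := by
      rw [h1]
    rw [Nat.cast_mul, Nat.cast_mul, Nat.cast_sub h] at this
    push_cast at this
    exact this
  linear_combination h2

lemma dd_pos (m a : ℕ) (h : 2 * (a + 1) ≤ m) : 0 < dd m (a + 1) := by
  have h1 := dd_succ_mul m a (by omega)
  have h2 : (0 : ℝ) < (m.choose a : ℝ) * ((m : ℝ) - 2 * a - 1) := by
    have : (0:ℝ) < m.choose a := by exact_mod_cast Nat.choose_pos (by omega : a ≤ m)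
    have h3 : (2 : ℝ) * (a + 1) ≤ m := by exact_mod_cast h
    apply mul_pos this; linarith
  rw [← h1] at h2
  exact pos_of_mul_pos_left h2 (by positivity)

/-- the polynomial inequality -/
lemma poly_ineq (x y k : ℝ) (hx : 1 ≤ x) (hy : 1 ≤ y) (hxk : x ≤ k - 1) (hyk : y ≤ k - 1) :
    4 * (x * y) ≤ (x + y + k) * ((k - 1) ^ 2 - (y - x) ^ 2) := by
  have h1 : x * y ≤ (k - 1) ^ 2 - (y - x) ^ 2 := by
    rcases le_total x y with h | h
    · nlinarith [mul_nonneg (sub_nonneg.2 h) (sub_nonneg.2 hyk),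
        mul_nonneg (by linarith : (0:ℝ) ≤ k - 1 - y) (by linarith : (0:ℝ) ≤ x),
        mul_nonneg (by linarith : (0:ℝ) ≤ k - 1 - y) (by linarith : (0:ℝ) ≤ y),
        mul_nonneg (by linarith : (0:ℝ) ≤ k - 1 - y) (by linarith : (0:ℝ) ≤ k - 1 - y),
        mul_nonneg (by linarith : (0:ℝ) ≤ x) (sub_nonneg.2 h)]
    · nlinarith [mul_nonneg (sub_nonneg.2 h) (sub_nonneg.2 hxk),
        mul_nonneg (by linarith : (0:ℝ) ≤ k - 1 - x) (by linarith : (0:ℝ) ≤ x),
        mul_nonneg (by linarith : (0:ℝ) ≤ k - 1 - x) (by linarith : (0:ℝ) ≤ y),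
        mul_nonneg (by linarith : (0:ℝ) ≤ k - 1 - x) (by linarith : (0:ℝ) ≤ k - 1 - x),
        mul_nonneg (by linarith : (0:ℝ) ≤ y) (sub_nonneg.2 h)]
  have h0 : 0 ≤ x * y := by positivity
  have h2 : (4 : ℝ) ≤ x + y + k := by linarith
  nlinarith

/-- The box is convex. -/
lemma good (a b k m : ℕ) (hm : m = a + b + k) (ha : a + 2 ≤ k) (hb : b + 2 ≤ k) :
    dd m a * dd m b ≤ dd m (a + 1) * dd m (b + 1) := by
  have ha' : a ≤ m := by omega
  have hb' : b ≤ m := by omega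
  have e1 := dd_mul m a ha'
  have e2 := dd_mul m b hb'
  have e3 := dd_succ_mul m a ha'
  have e4 := dd_succ_mul m b hb'
  have hmR : (m : ℝ) = a + b + k := by rw [hm]; push_cast; ring
  have haR : (a : ℝ) + 1 ≤ (k : ℝ) - 1 := by
    have : ((a + 2 : ℕ) : ℝ) ≤ k := by exact_mod_cast ha
    push_cast at this; linarith
  have hbR : (b : ℝ) + 1 ≤ (k : ℝ) - 1 := by
    have : ((b + 2 : ℕ) : ℝ) ≤ k := by exact_mod_cast hb
    push_cast at this; linarith
  have ha0 : (0 : ℝ) ≤ a := by positivity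
  have hb0 : (0 : ℝ) ≤ b := by positivity
  have p1 : (0 : ℝ) < (m : ℝ) - a + 1 := by rw [hmR]; linarith
  have p2 : (0 : ℝ) < (m : ℝ) - b + 1 := by rw [hmR]; linarith
  have p3 : (0 : ℝ) < (a : ℝ) + 1 := by positivity
  have p4 : (0 : ℝ) < (b : ℝ) + 1 := by positivity
  have f1 : dd m a = (m.choose a : ℝ) * ((m : ℝ) - 2 * a + 1) / ((m : ℝ) - a + 1) := by
    rw [eq_div_iff p1.ne']; exact e1
  have f2 : dd m b = (m.choose b : ℝ) * ((m : ℝ) - 2 * b + 1) / ((m : ℝ) - b + 1) := by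
    rw [eq_div_iff p2.ne']; exact e2
  have f3 : dd m (a + 1) = (m.choose a : ℝ) * ((m : ℝ) - 2 * a - 1) / ((a : ℝ) + 1) := by
    rw [eq_div_iff p3.ne']; exact e3
  have f4 : dd m (b + 1) = (m.choose b : ℝ) * ((m : ℝ) - 2 * b - 1) / ((b : ℝ) + 1) := by
    rw [eq_div_iff p4.ne']; exact e4
  rw [f1, f2, f3, f4, div_mul_div_comm, div_mul_div_comm, div_le_div_iff₀ (by positivity)
    (by positivity)]
  have hpoly := poly_ineq ((a : ℝ) + 1) ((b : ℝ) + 1) k (by linarith) (by linarith) haR hbR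
  have hC : (0 : ℝ) ≤ (m.choose a : ℝ) * m.choose b := by positivity
  have hk : (0:ℝ) ≤ k := by positivity
  have main : ((m : ℝ) - 2 * a + 1) * ((m : ℝ) - 2 * b + 1) * (((a : ℝ) + 1) * ((b : ℝ) + 1))
      ≤ ((m : ℝ) - 2 * a - 1) * ((m : ℝ) - 2 * b - 1) * (((m : ℝ) - a + 1) * ((m : ℝ) - b + 1)) := by
    rw [hmR]
    have h3 := mul_le_mul_of_nonneg_left hpoly hk
    nlinarith [h3]
  calc _ = ((m.choose a : ℝ) * m.choose b) * (((m : ℝ) - 2 * a + 1) * ((m : ℝ) - 2 * b + 1) *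
          (((a : ℝ) + 1) * ((b : ℝ) + 1))) := by ring
    _ ≤ ((m.choose a : ℝ) * m.choose b) * (((m : ℝ) - 2 * a - 1) * ((m : ℝ) - 2 * b - 1) *
          (((m : ℝ) - a + 1) * ((m : ℝ) - b + 1))) := mul_le_mul_of_nonneg_left main hC
    _ = _ := by ring

end DiamEven
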