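import Mathlib

/-! LYM weights: an antichain seen from an arbitrary centre. -/

namespace DiamEven

open Finset

variable {α : Type*} [DecidableEq α]

lemma lym_on (X : Finset α) (𝒜 : Finset (Finset α))
    (h : IsAntichain (· ⊆ ·) (𝒜 : Set (Finset α))) (hs : ∀ A ∈ 𝒜, A ⊆ X) :
    ∑ A ∈ 𝒜, (1 : ℝ) / (X.card.choose A.card) ≤ 1 := by
  classical
  set f : Finset α → Finset X := fun A => A.subtype (· ∈ X) with hf
  have hback : ∀ A ∈ 𝒜, (f A).map (Function.Embedding.subtype _) = A := by
    intro A hA
    rw [hf]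
    simp only [Finset.subtype_map]
    apply Finset.filter_true_of_mem
    intro x hx; exact hs A hA hx
  have hinj : Set.InjOn f (𝒜 : Set (Finset α)) := by
    intro A hA B hB hAB
    rw [← hback A hA, ← hback B hB, hAB]
  have hcard : ∀ A ∈ 𝒜, (f A).card = A.card := by
    intro A hA
    conv_rhs => rw [← hback A hA]
    rw [Finset.card_map]
  have hanti : IsAntichain (· ⊆ ·) ((𝒜.image f : Finset (Finset X)) : Set (Finset X)) := by
    intro A' hA' B' hB' hne hsub
    simp only [coe_image, Set.mem_image, mem_coe] at hA' hB'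
    obtain ⟨A, hA, rfl⟩ := hA'
    obtain ⟨B, hB, rfl⟩ := hB'
    have hne' : A ≠ B := fun h => hne (by rw [h])
    apply h hA hB hne'
    rw [← hback A hA, ← hback B hB]
    exact Finset.map_subset_map.2 hsub
  have := Finset.lubell_yamamoto_meshalkin_inequality_sum_inv_choose (𝕜 := ℝ) hanti
  rw [Finset.sum_image hinj] at this
  refine le_trans (le_of_eq ?_) this
  apply Finset.sum_congr rfl
  intro A hA
  rw [hcard A hA, Fintype.card_coe, one_div]

/-- first kind of weight -/
noncomputable def w1 (Z B T : Finset α) : ℝ :=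
  if Z \ B = T ∩ Z ∧ B \ Z ⊆ T \ Z then (1 : ℝ) / ((T \ Z).card.choose (B \ Z).card) else 0

/-- second kind of weight -/
noncomputable def w2 (Z B T : Finset α) : ℝ :=
  if B \ Z = T \ Z ∧ Z \ B ⊂ T ∩ Z then (1 : ℝ) / ((T ∩ Z).card.choose (Z \ B).card) else 0

lemma rebuild {Z B B' : Finset α} (h1 : Z \ B = Z \ B') (h2 : B \ Z = B' \ Z) : B = B' := by
  ext x
  by_cases hx : x ∈ Z
  · have := Finset.ext_iff.1 h1 x
    simp only [mem_sdiff, hx, true_and] at this
    exact not_iff_not.1 this
  · have := Finset.ext_iff.1 h2 x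
    simpa [mem_sdiff, hx] using this

lemma twisted {Z B B' : Finset α} (h1 : Z \ B' ⊆ Z \ B) (h2 : B \ Z ⊆ B' \ Z) : B ⊆ B' := by
  intro x hx
  by_cases hZ : x ∈ Z
  · by_contra hx'
    have : x ∈ Z \ B' := by simp [hZ, hx']
    have := h1 this
    simp [hx] at this
  · have : x ∈ B \ Z := by simp [hZ, hx]
    have := h2 this
    simp at this; exact this.1

lemma sum_w1_le (Z T : Finset α) (G : Finset (Finset α))
    (hG : IsAntichain (· ⊆ ·) (G : Set (Finset α))) : ∑ B ∈ G, w1 Z B T ≤ 1 := by
  unfold w1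
  rw [← Finset.sum_filter]
  set G' := G.filter (fun B => Z \ B = T ∩ Z ∧ B \ Z ⊆ T \ Z) with hG'
  have hinj : Set.InjOn (fun B : Finset α => B \ Z) (G' : Set (Finset α)) := by
    intro B hB B' hB' h
    simp only [hG', coe_filter, Set.mem_ofPred_eq] at hB hB'
    exact rebuild (hB.2.1.trans hB'.2.1.symm) h
  have hA := lym_on (T \ Z) (G'.image (fun B => B \ Z)) (by
    intro X hX Y hY hne hsub
    simp only [coe_image, Set.mem_image, mem_coe] at hX hY
    obtain ⟨B, hB, rfl⟩ := hX
    obtain ⟨B', hB', rfl⟩ := hY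
    simp only [hG', mem_filter] at hB hB'
    have hne' : B ≠ B' := fun h => hne (by rw [h])
    exact hG hB.1 hB'.1 hne' (twisted (by rw [hB.2.1, hB'.2.1]) hsub)) (by
    intro X hX
    simp only [mem_image] at hX
    obtain ⟨B, hB, rfl⟩ := hX
    simp only [hG', mem_filter] at hB
    exact hB.2.2)
  rw [Finset.sum_image hinj] at hA
  exact hA

lemma sum_w2_le (Z T : Finset α) (G : Finset (Finset α))
    (hG : IsAntichain (· ⊆ ·) (G : Set (Finset α))) : ∑ B ∈ G, w2 Z B T ≤ 1 := by
  unfold w2
  rw [← Finset.sum_filter]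
  set G' := G.filter (fun B => B \ Z = T \ Z ∧ Z \ B ⊂ T ∩ Z) with hG'
  have hinj : Set.InjOn (fun B : Finset α => Z \ B) (G' : Set (Finset α)) := by
    intro B hB B' hB' h
    simp only [hG', coe_filter, Set.mem_ofPred_eq] at hB hB'
    exact rebuild h (hB.2.1.trans hB'.2.1.symm)
  have hA := lym_on (T ∩ Z) (G'.image (fun B => Z \ B)) (by
    intro X hX Y hY hne hsub
    simp only [coe_image, Set.mem_image, mem_coe] at hX hY
    obtain ⟨B, hB, rfl⟩ := hX
    obtain ⟨B', hB', rfl⟩ := hY
    simp only [hG', mem_filter] at hB hB'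
    have hne' : B' ≠ B := fun h => hne (by rw [h])
    exact hG hB'.1 hB.1 hne' (twisted hsub (by rw [hB.2.1, hB'.2.1]))) (by
    intro X hX
    simp only [mem_image] at hX
    obtain ⟨B, hB, rfl⟩ := hX
    simp only [hG', mem_filter] at hB
    exact hB.2.2.subset)
  rw [Finset.sum_image hinj] at hA
  exact hA

lemma sum_w_le (Z T : Finset α) (G : Finset (Finset α))
    (hG : IsAntichain (· ⊆ ·) (G : Set (Finset α))) : ∑ B ∈ G, (w1 Z B T + w2 Z B T) ≤ 1 := by
  rw [Finset.sum_add_distrib]
  by_cases h1 : ∃ B ∈ G, Z \ B = T ∩ Z ∧ B \ Z ⊆ T \ Z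
  · obtain ⟨B, hB, hB1, hB2⟩ := h1
    have : ∑ B ∈ G, w2 Z B T = 0 := by
      apply Finset.sum_eq_zero
      intro B' hB'
      unfold w2
      rw [if_neg]
      rintro ⟨h3, h4⟩
      have hsub : B ⊆ B' := twisted (by rw [hB1]; exact h4.subset) (by rw [h3]; exact hB2)
      have heq : B = B' := by
        by_contra hne
        exact hG hB hB' hne hsub
      subst heq
      rw [hB1] at h4
      exact (ssubset_irrefl _) h4
    rw [this, add_zero]
    exact sum_w1_le Z T G hG
  · have : ∑ B ∈ G, w1 Z B T = 0 := by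
      apply Finset.sum_eq_zero
      intro B hB
      unfold w1
      rw [if_neg]
      intro h
      exact h1 ⟨B, hB, h⟩
    rw [this, zero_add]
    exact sum_w2_le Z T G hG

lemma w1_nonneg (Z B T : Finset α) : 0 ≤ w1 Z B T := by
  unfold w1; split_ifs <;> positivity

lemma w2_nonneg (Z B T : Finset α) : 0 ≤ w2 Z B T := by
  unfold w2; split_ifs <;> positivity

/-- total weight of the first kind sent by `B`. -/
lemma sum_T_w1 (S Z B : Finset α) (hZ : Z ⊆ S) (hB : B ⊆ S) (u : ℕ) :
    (((S \ Z).card - (B \ Z).card).choose u : ℝ) / (((B \ Z).card + u).choose u) ≤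
      ∑ T ∈ powersetCard ((Z \ B).card + (B \ Z).card + u) S, w1 Z B T := by
  classical
  set P := powersetCard u ((S \ Z) \ (B \ Z)) with hP
  have hPc : P.card = ((S \ Z).card - (B \ Z).card).choose u := by
    rw [hP, card_powersetCard, card_sdiff_of_subset]
    intro x hx
    simp only [mem_sdiff] at hx ⊢
    exact ⟨hB hx.1, hx.2⟩
  set g : Finset α → Finset α := fun M => (Z \ B) ∪ (M ∪ (B \ Z)) with hg
  have hM : ∀ M ∈ P, M ⊆ S ∧ Disjoint M Z ∧ Disjoint M (B \ Z) ∧ M.card = u := by
    intro M hM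
    rw [hP, mem_powersetCard] at hM
    refine ⟨fun x hx => ?_, ?_, ?_, hM.2⟩
    · have := hM.1 hx; simp only [mem_sdiff] at this; exact this.1.1
    · rw [Finset.disjoint_left]; intro x hx hx'
      have := hM.1 hx; simp only [mem_sdiff] at this; exact this.1.2 hx'
    · rw [Finset.disjoint_left]; intro x hx hx'
      have := hM.1 hx; rw [mem_sdiff] at this; exact this.2 hx'
  have hgZ : ∀ M ∈ P, g M ∩ Z = Z \ B := by
    intro M hMP
    obtain ⟨h1, h2, h3, h4⟩ := hM M hMP
    ext x
    simp only [hg, mem_inter, mem_union, mem_sdiff]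
    constructor
    · rintro ⟨h | h | h, hz⟩
      · exact h
      · exact absurd hz (Finset.disjoint_left.1 h2 h)
      · exact absurd hz h.2
    · intro h; exact ⟨Or.inl h, h.1⟩
  have hgO : ∀ M ∈ P, g M \ Z = M ∪ (B \ Z) := by
    intro M hMP
    obtain ⟨h1, h2, h3, h4⟩ := hM M hMP
    ext x
    simp only [hg, mem_union, mem_sdiff]
    constructor
    · rintro ⟨h | h | h, hz⟩
      · exact absurd h.1 hz
      · exact Or.inl h
      · exact Or.inr h
    · rintro (h | h)
      · exact ⟨Or.inr (Or.inl h), Finset.disjoint_left.1 h2 h⟩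
      · exact ⟨Or.inr (Or.inr h), h.2⟩
  have hginj : Set.InjOn g (P : Set (Finset α)) := by
    intro M hMP M' hMP' h
    have e1 := hgO M hMP
    have e2 := hgO M' hMP'
    rw [h, e2] at e1
    obtain ⟨_, _, h3, _⟩ := hM M hMP
    obtain ⟨_, _, h3', _⟩ := hM M' hMP'
    have := congrArg (fun X => X \ (B \ Z)) e1
    simp only [Finset.union_sdiff_right] at this
    rw [Finset.sdiff_eq_self_of_disjoint h3, Finset.sdiff_eq_self_of_disjoint h3'] at this
    exact this.symm
  have hsub : P.image g ⊆ powersetCard ((Z \ B).card + (B \ Z).card + u) S := by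
    intro T hT
    rw [mem_image] at hT
    obtain ⟨M, hMP, rfl⟩ := hT
    obtain ⟨h1, h2, h3, h4⟩ := hM M hMP
    rw [mem_powersetCard]
    constructor
    · intro x hx
      simp only [hg, mem_union, mem_sdiff] at hx
      rcases hx with h | h | h
      · exact hZ h.1
      · exact h1 h
      · exact hB h.1
    · rw [hg]
      simp only
      rw [card_union_of_disjoint, card_union_of_disjoint h3, h4]
      · ring
      · rw [Finset.disjoint_left]
        intro x hx hx'
        simp only [mem_union, mem_sdiff] at hx hx'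
        rcases hx' with h | h
        · exact Finset.disjoint_left.1 h2 h hx.1
        · exact h.2 hx.1
  calc (((S \ Z).card - (B \ Z).card).choose u : ℝ) / (((B \ Z).card + u).choose u)
      = ∑ M ∈ P, (1 : ℝ) / (((B \ Z).card + u).choose u) := by
        rw [Finset.sum_const, nsmul_eq_mul, hPc, mul_one_div]
    _ = ∑ M ∈ P, w1 Z B (g M) := by
        apply Finset.sum_congr rfl
        intro M hMP
        obtain ⟨h1, h2, h3, h4⟩ := hM M hMP
        unfold w1
        rw [if_pos ⟨(hgZ M hMP).symm, by rw [hgO M hMP]; exact subset_union_right⟩, hgO M hMP,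
          card_union_of_disjoint h3, h4, add_comm u, Nat.choose_symm_add]
    _ = ∑ T ∈ P.image g, w1 Z B T := by rw [Finset.sum_image hginj]
    _ ≤ _ := Finset.sum_le_sum_of_subset_of_nonneg hsub (fun T _ _ => w1_nonneg Z B T)

/-- total weight of the second kind sent by `B`. -/
lemma sum_T_w2 (S Z B : Finset α) (hZ : Z ⊆ S) (hB : B ⊆ S) (u : ℕ) (hu : 1 ≤ u) :
    ((Z.card - (Z \ B).card).choose u : ℝ) / (((Z \ B).card + u).choose u) ≤
      ∑ T ∈ powersetCard ((Z \ B).card + (B \ Z).card + u) S, w2 Z B T := by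
  classical
  set P := powersetCard u (Z \ (Z \ B)) with hP
  have hPc : P.card = (Z.card - (Z \ B).card).choose u := by
    rw [hP, card_powersetCard, card_sdiff_of_subset sdiff_subset]
  set g : Finset α → Finset α := fun M => (B \ Z) ∪ (M ∪ (Z \ B)) with hg
  have hM : ∀ M ∈ P, M ⊆ Z ∧ Disjoint M (Z \ B) ∧ M.card = u := by
    intro M hM
    rw [hP, mem_powersetCard] at hM
    refine ⟨fun x hx => ?_, ?_, hM.2⟩
    · have := hM.1 hx; rw [mem_sdiff] at this; exact this.1
    · rw [Finset.disjoint_left]; intro x hx hx'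
      have := hM.1 hx; rw [mem_sdiff] at this; exact this.2 hx'
  have hgZ : ∀ M ∈ P, g M ∩ Z = M ∪ (Z \ B) := by
    intro M hMP
    obtain ⟨h1, h2, h3⟩ := hM M hMP
    ext x
    simp only [hg, mem_inter, mem_union, mem_sdiff]
    constructor
    · rintro ⟨h | h | h, hz⟩
      · exact absurd hz h.2
      · exact Or.inl h
      · exact Or.inr h
    · rintro (h | h)
      · exact ⟨Or.inr (Or.inl h), h1 h⟩
      · exact ⟨Or.inr (Or.inr h), h.1⟩
  have hgO : ∀ M ∈ P, g M \ Z = B \ Z := by
    intro M hMP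
    obtain ⟨h1, h2, h3⟩ := hM M hMP
    ext x
    simp only [hg, mem_union, mem_sdiff]
    constructor
    · rintro ⟨h | h | h, hz⟩
      · exact h
      · exact absurd (h1 h) hz
      · exact absurd h.1 hz
    · intro h; exact ⟨Or.inl h, h.2⟩
  have hginj : Set.InjOn g (P : Set (Finset α)) := by
    intro M hMP M' hMP' h
    have e1 := hgZ M hMP
    have e2 := hgZ M' hMP'
    rw [h, e2] at e1
    obtain ⟨_, h3, _⟩ := hM M hMP
    obtain ⟨_, h3', _⟩ := hM M' hMP'
    have := congrArg (fun X => X \ (Z \ B)) e1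
    simp only [Finset.union_sdiff_right] at this
    rw [Finset.sdiff_eq_self_of_disjoint h3, Finset.sdiff_eq_self_of_disjoint h3'] at this
    exact this.symm
  have hsub : P.image g ⊆ powersetCard ((Z \ B).card + (B \ Z).card + u) S := by
    intro T hT
    rw [mem_image] at hT
    obtain ⟨M, hMP, rfl⟩ := hT
    obtain ⟨h1, h3, h4⟩ := hM M hMP
    rw [mem_powersetCard]
    constructor
    · intro x hx
      simp only [hg, mem_union, mem_sdiff] at hx
      rcases hx with h | h | h
      · exact hB h.1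
      · exact hZ (h1 h)
      · exact hZ h.1
    · rw [hg]
      simp only
      rw [card_union_of_disjoint, card_union_of_disjoint h3, h4]
      · ring
      · rw [Finset.disjoint_left]
        intro x hx hx'
        simp only [mem_union, mem_sdiff] at hx hx'
        rcases hx' with h | h
        · exact hx.2 (h1 h)
        · exact hx.2 h.1
  calc ((Z.card - (Z \ B).card).choose u : ℝ) / (((Z \ B).card + u).choose u)
      = ∑ M ∈ P, (1 : ℝ) / (((Z \ B).card + u).choose u) := by
        rw [Finset.sum_const, nsmul_eq_mul, hPc, mul_one_div]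
    _ = ∑ M ∈ P, w2 Z B (g M) := by
        apply Finset.sum_congr rfl
        intro M hMP
        obtain ⟨h1, h3, h4⟩ := hM M hMP
        unfold w2
        have hss : Z \ B ⊂ g M ∩ Z := by
          rw [hgZ M hMP]
          refine ⟨subset_union_right, fun hcon => ?_⟩
          have hMne : M.Nonempty := by rw [← card_pos]; omega
          obtain ⟨x, hx⟩ := hMne
          exact Finset.disjoint_left.1 h3 hx (hcon (mem_union_left _ hx))
        rw [if_pos ⟨(hgO M hMP).symm, hss⟩, hgZ M hMP,
          card_union_of_disjoint h3, h4, add_comm u, Nat.choose_symm_add]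
    _ = ∑ T ∈ P.image g, w2 Z B T := by rw [Finset.sum_image hginj]
    _ ≤ _ := Finset.sum_le_sum_of_subset_of_nonneg hsub (fun T _ _ => w2_nonneg Z B T)

/-- Weight lemma: if every member `B` within distance `a` of `Z` has value `f B` at most the
weight it can send, then the sum of values is at most `C(m,a)`. -/
theorem weight (S Z : Finset α) (hZ : Z ⊆ S) (G : Finset (Finset α))
    (hG : IsAntichain (· ⊆ ·) (G : Set (Finset α))) (hS : ∀ B ∈ G, B ⊆ S) (a : ℕ)
    (f : Finset α → ℝ)
    (hf0 : ∀ B ∈ G, (Z \ B).card + (B \ Z).card = a → f B ≤ 1)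
    (hf1 : ∀ B ∈ G, ∀ u, 1 ≤ u → (Z \ B).card + (B \ Z).card + u = a →
      f B ≤ (((S \ Z).card - (B \ Z).card).choose u : ℝ) / (((B \ Z).card + u).choose u)
        + ((Z.card - (Z \ B).card).choose u : ℝ) / (((Z \ B).card + u).choose u))
    (hf2 : ∀ B ∈ G, a < (Z \ B).card + (B \ Z).card → f B ≤ 0) :
    ∑ B ∈ G, f B ≤ (S.card.choose a : ℝ) := by
  calc ∑ B ∈ G, f B ≤ ∑ B ∈ G, ∑ T ∈ powersetCard a S, (w1 Z B T + w2 Z B T) := by
        apply Finset.sum_le_sum
        intro B hB
        rcases lt_trichotomy ((Z \ B).card + (B \ Z).card) a with h | h | h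
        · obtain ⟨u, hu⟩ := Nat.exists_eq_add_of_le h.le
          have hu1 : 1 ≤ u := by omega
          refine (hf1 B hB u hu1 hu.symm).trans ?_
          rw [Finset.sum_add_distrib, hu]
          exact add_le_add (sum_T_w1 S Z B hZ (hS B hB) u) (sum_T_w2 S Z B hZ (hS B hB) u hu1)
        · refine (hf0 B hB h).trans ?_
          rw [Finset.sum_add_distrib]
          have h1 := sum_T_w1 S Z B hZ (hS B hB) 0
          simp only [Nat.choose_zero_right, add_zero, h] at h1
          norm_num at h1
          have h2 : 0 ≤ ∑ T ∈ powersetCard a S, w2 Z B T :=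
            Finset.sum_nonneg (fun T _ => w2_nonneg Z B T)
          linarith
        · refine (hf2 B hB h).trans ?_
          exact Finset.sum_nonneg (fun T _ => add_nonneg (w1_nonneg Z B T) (w2_nonneg Z B T))
    _ = ∑ T ∈ powersetCard a S, ∑ B ∈ G, (w1 Z B T + w2 Z B T) := Finset.sum_comm
    _ ≤ ∑ T ∈ powersetCard a S, 1 := Finset.sum_le_sum (fun T _ => sum_w_le Z T G hG)
    _ = (S.card.choose a : ℝ) := by
        rw [Finset.sum_const, card_powersetCard, nsmul_eq_mul, mul_one]

end DiamEven
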