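import Pool.Agent.DiamEven.Num
import Pool.Agent.DiamEven.Num2
import Pool.Agent.DiamEven.Weight

/-! Lemma L' and the choice of the coordinate. -/

namespace DiamEven

open Finset

variable {α : Type*} [DecidableEq α]

lemma cards {S Z B : Finset α} (hZ : Z ⊆ S) (hB : B ⊆ S) :
    ∃ p q : ℕ, (S \ Z).card = (B \ Z).card + p ∧ Z.card = (Z \ B).card + q ∧
      S.card = (Z \ B).card + (B \ Z).card + p + q := by
  have h1 : (B \ Z).card ≤ (S \ Z).card := card_le_card (sdiff_subset_sdiff hB subset_rfl)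
  have h2 : (Z \ B).card ≤ Z.card := card_le_card sdiff_subset
  have h3 : (S \ Z).card + Z.card = S.card := card_sdiff_add_card_eq_card hZ
  exact ⟨(S \ Z).card - (B \ Z).card, Z.card - (Z \ B).card, by omega, by omega, by omega⟩

/-- Lemma L': weighted LYM inequality around an arbitrary centre. -/
theorem lprime (S Z : Finset α) (hZ : Z ⊆ S) (G : Finset (Finset α))
    (hG : IsAntichain (· ⊆ ·) (G : Set (Finset α))) (hS : ∀ B ∈ G, B ⊆ S) (a : ℕ) (ha : 1 ≤ a)
    (h3 : 3 * a ≤ S.card + 1) :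
    ∑ B ∈ G, (((S.card : ℝ) + 1 - 2 * a) * ((a : ℝ) - (((Z \ B).card + (B \ Z).card : ℕ) : ℝ)) + a)
      ≤ a * (S.card.choose a : ℝ) := by
  have ha0 : (0 : ℝ) < a := by exact_mod_cast ha
  have h3R : (3 : ℝ) * a ≤ S.card + 1 := by exact_mod_cast h3
  have ha1 : (1 : ℝ) ≤ a := by exact_mod_cast ha
  have hw := weight S Z hZ G hG hS a (fun B =>
    (((S.card : ℝ) + 1 - 2 * a) * ((a : ℝ) - (((Z \ B).card + (B \ Z).card : ℕ) : ℝ)) + a) / a)
    (by
      intro B hB h
      simp only [h, sub_self, mul_zero, zero_add]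
      rw [div_self ha0.ne'])
    (by
      intro B hB u hu h
      obtain ⟨p, q, h1, h2, h4⟩ := cards hZ (hS B hB)
      rw [h1, h2, Nat.add_sub_cancel_left, Nat.add_sub_cancel_left]
      set i := (Z \ B).card
      set j := (B \ Z).card
      have hs := star i j u p q hu (by omega)
      rw [div_le_iff₀ ha0]
      have e1 : (S.card : ℝ) = i + j + p + q := by rw [h4]; push_cast; ring
      have e2 : (a : ℝ) = i + j + u := by rw [← h]; push_cast; ring
      rw [e1, e2]
      push_cast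
      calc _ = ((i + j + u : ℝ) + ((i + j + p + q : ℝ) + 1 - 2 * (i + j + u)) * u) := by ring
        _ ≤ _ := hs
        _ = _ := by ring)
    (by
      intro B hB h
      have h5 : ((a : ℝ) - (((Z \ B).card + (B \ Z).card : ℕ) : ℝ)) ≤ -1 := by
        have : ((a + 1 : ℕ) : ℝ) ≤ (((Z \ B).card + (B \ Z).card : ℕ) : ℝ) := by exact_mod_cast h
        push_cast at this ⊢
        linarith
      apply div_nonpos_of_nonpos_of_nonneg _ ha0.le
      have h6 : (0 : ℝ) ≤ (S.card : ℝ) + 1 - 2 * a := by linarith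
      nlinarith)
  rw [← Finset.sum_div, div_le_iff₀ ha0] at hw
  linarith

/-- An antichain inside a Hamming ball. -/
theorem ball (S Z : Finset α) (hZ : Z ⊆ S) (G : Finset (Finset α))
    (hG : IsAntichain (· ⊆ ·) (G : Set (Finset α))) (hS : ∀ B ∈ G, B ⊆ S) (D : ℕ)
    (hD : 2 * D ≤ S.card) (hball : ∀ B ∈ G, (Z \ B).card + (B \ Z).card ≤ D) :
    G.card ≤ S.card.choose D := by
  have hw := weight S Z hZ G hG hS D (fun _ => 1) (fun _ _ _ => le_rfl)
    (by
      intro B hB u hu h
      obtain ⟨p, q, h1, h2, h4⟩ := cards hZ (hS B hB)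
      rw [h1, h2, Nat.add_sub_cancel_left, Nat.add_sub_cancel_left]
      exact star0 _ _ u p q hu (by omega))
    (by
      intro B hB h
      exact absurd (hball B hB) (by omega))
  rw [Finset.sum_const, nsmul_eq_mul, mul_one] at hw
  exact_mod_cast hw

lemma card_memberSubfamily_eq (x : α) (G : Finset (Finset α)) :
    (G.memberSubfamily x).card = (G.filter (fun B => x ∈ B)).card := by
  have h1 := card_memberSubfamily_add_card_nonMemberSubfamily x G
  have h2 := Finset.card_filter_add_card_filter_not (s := G) (fun B => x ∈ B)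
  have h3 : (G.nonMemberSubfamily x).card = (G.filter (fun B => x ∉ B)).card := rfl
  omega

lemma sum_dist (S Z : Finset α) (hZ : Z ⊆ S) (G : Finset (Finset α))
    (hS : ∀ B ∈ G, B ⊆ S) :
    ∑ B ∈ G, ((Z \ B).card + (B \ Z).card) =
      ∑ x ∈ S, (if x ∈ Z then (G.nonMemberSubfamily x).card else (G.memberSubfamily x).card) := by
  have h1 : ∀ B ∈ G, (Z \ B).card + (B \ Z).card =
      ∑ x ∈ S, (if x ∈ Z then (if x ∉ B then 1 else 0) else (if x ∈ B then 1 else 0)) := by
    intro B hB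
    have e1 : (Z \ B).card = ∑ x ∈ S, (if x ∈ Z then (if x ∉ B then 1 else 0) else 0) := by
      rw [← Finset.sum_filter, ← Finset.sum_filter, ← Finset.card_eq_sum_ones]
      congr 1
      ext x
      simp only [mem_sdiff, mem_filter]
      constructor
      · rintro ⟨h1, h2⟩; exact ⟨⟨hZ h1, h1⟩, h2⟩
      · rintro ⟨⟨_, h1⟩, h2⟩; exact ⟨h1, h2⟩
    have e2 : (B \ Z).card = ∑ x ∈ S, (if x ∈ Z then 0 else (if x ∈ B then 1 else 0)) := by
      have : ∀ x ∈ S, (if x ∈ Z then 0 else (if x ∈ B then 1 else 0)) =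
          (if x ∉ Z ∧ x ∈ B then 1 else 0) := by
        intro x _; by_cases hz : x ∈ Z <;> by_cases hb : x ∈ B <;> simp [hz, hb]
      rw [Finset.sum_congr rfl this, ← Finset.sum_filter, ← Finset.card_eq_sum_ones]
      congr 1
      ext x
      simp only [mem_sdiff, mem_filter]
      constructor
      · rintro ⟨h1, h2⟩; exact ⟨hS B hB h1, h2, h1⟩
      · rintro ⟨_, h2, h1⟩; exact ⟨h1, h2⟩
    rw [e1, e2, ← Finset.sum_add_distrib]
    apply Finset.sum_congr rfl
    intro x _
    by_cases hz : x ∈ Z <;> simp [hz]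
  rw [Finset.sum_congr rfl h1, Finset.sum_comm]
  apply Finset.sum_congr rfl
  intro x _
  by_cases hz : x ∈ Z
  · simp only [hz, if_true]
    rw [← Finset.sum_filter, ← Finset.card_eq_sum_ones]
    rfl
  · simp only [hz, if_false]
    rw [← Finset.sum_filter, ← Finset.card_eq_sum_ones, card_memberSubfamily_eq]

/-- Existence of a coordinate with spread at most one. -/
theorem coord (m : ℕ) (S : Finset α) (hm : S.card = m + 1) (G : Finset (Finset α))
    (hG : IsAntichain (· ⊆ ·) (G : Set (Finset α))) (hS : ∀ B ∈ G, B ⊆ S) (a : ℕ)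
    (h3 : 3 * (a + 1) ≤ m + 2) (ξ : ℝ)
    (hcard : (G.card : ℝ) = ((m + 1).choose a : ℝ) + ξ * dd (m + 1) (a + 1)) :
    ∃ x ∈ S, (m.choose a : ℝ) - (1 - ξ) * dd m a ≤ (G.memberSubfamily x).card ∧
      (m.choose a : ℝ) - (1 - ξ) * dd m a ≤ (G.nonMemberSubfamily x).card := by
  by_contra hcon
  push Not at hcon
  set P : ℝ := (m.choose a : ℝ) - (1 - ξ) * dd m a with hP
  set Z : Finset α := S.filter (fun x => (G.nonMemberSubfamily x).card < (G.memberSubfamily x).card)
    with hZdef
  have hZ : Z ⊆ S := filter_subset _ _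
  have hsd := sum_dist S Z hZ G hS
  have hlt : ((∑ B ∈ G, ((Z \ B).card + (B \ Z).card) : ℕ) : ℝ) < (m + 1 : ℝ) * P := by
    rw [hsd]
    have hne : S.Nonempty := by rw [← card_pos]; omega
    have : ((∑ x ∈ S, (if x ∈ Z then (G.nonMemberSubfamily x).card else
        (G.memberSubfamily x).card) : ℕ) : ℝ) < ∑ x ∈ S, P := by
      push_cast
      apply Finset.sum_lt_sum_of_nonempty hne
      intro x hx
      by_cases hz : x ∈ Z
      · rw [if_pos hz]
        have hz' : (G.nonMemberSubfamily x).card < (G.memberSubfamily x).card := by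
          rw [hZdef, mem_filter] at hz; exact hz.2
        by_contra hge
        push Not at hge
        have h1 : P ≤ (G.memberSubfamily x).card := hge.trans (by exact_mod_cast hz'.le)
        exact absurd hge (not_le.2 (hcon x hx h1))
      · rw [if_neg hz]
        have hz' : (G.memberSubfamily x).card ≤ (G.nonMemberSubfamily x).card := by
          rw [hZdef, mem_filter] at hz; push Not at hz; exact hz hx
        by_contra hge
        push Not at hge
        have h1 := hcon x hx hge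
        have : (((G.memberSubfamily x).card : ℕ) : ℝ) ≤ ((G.nonMemberSubfamily x).card : ℕ) := by
          exact_mod_cast hz'
        linarith
    refine this.trans_le (le_of_eq ?_)
    rw [Finset.sum_const, hm, nsmul_eq_mul]
    push_cast
    ring
  have hl := lprime S Z hZ G hG hS (a + 1) (by omega) (by omega)
  rw [Finset.sum_add_distrib, ← Finset.mul_sum, Finset.sum_sub_distrib, Finset.sum_const,
    nsmul_eq_mul, hm, ← Nat.cast_sum] at hl
  set St : ℝ := ((∑ B ∈ G, ((Z \ B).card + (B \ Z).card) : ℕ) : ℝ) with hSt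
  have hpos : (0 : ℝ) ≤ ((m + 1 : ℕ) : ℝ) + 1 - 2 * ((a + 1 : ℕ) : ℝ) := by
    have : ((3 * (a + 1) : ℕ) : ℝ) ≤ ((m + 2 : ℕ) : ℝ) := by exact_mod_cast h3
    push_cast at this ⊢
    have ha : (0 : ℝ) ≤ a := by positivity
    linarith
  have hpos' : (0 : ℝ) < ((m + 1 : ℕ) : ℝ) + 1 - 2 * ((a + 1 : ℕ) : ℝ) := by
    have h4 : 2 * (a + 1) < m + 2 := by omega
    have : ((2 * (a + 1) : ℕ) : ℝ) < ((m + 2 : ℕ) : ℝ) := by exact_mod_cast h4
    push_cast at this ⊢
    linarith
  have hmul := mul_lt_mul_of_pos_left hlt hpos'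
  -- binomial identities
  have i1 : ((m : ℝ) + 1) * m.choose a = (m + 1).choose (a + 1) * ((a : ℝ) + 1) := by
    have := Nat.add_one_mul_choose_eq m a
    exact_mod_cast this
  have i2 : ((m : ℝ) + 1) * m.choose a = (m + 1).choose a * ((m : ℝ) + 1 - a) := by
    have h1 : (m + 1) * m.choose a = (m + 1).choose a * (m + 1 - a) := by
      rw [mul_comm]; exact Nat.choose_mul_succ_eq m a
    have : (((m + 1) * m.choose a : ℕ) : ℝ) = (((m + 1).choose a * (m + 1 - a) : ℕ) : ℝ) := by
      rw [h1]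
    rw [Nat.cast_mul, Nat.cast_mul, Nat.cast_sub (by omega)] at this
    push_cast at this
    exact this
  rw [hcard] at hl
  have hdd : dd (m + 1) (a + 1) = ((m + 1).choose (a + 1) : ℝ) - (m + 1).choose a := dd_succ _ _
  have hdd2 : dd m a = 2 * (m.choose a : ℝ) - ((m + 1).choose a : ℝ) := rfl
  have key : (((m + 1 : ℕ) : ℝ) + 1 - 2 * ((a + 1 : ℕ) : ℝ)) * (((m : ℝ) + 1) * P) =
      (((m + 1).choose a : ℝ) + ξ * dd (m + 1) (a + 1)) *
        ((((m + 1 : ℕ) : ℝ) + 1 - 2 * ((a + 1 : ℕ) : ℝ)) * ((a + 1 : ℕ) : ℝ) + ((a + 1 : ℕ) : ℝ))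
      - ((a + 1 : ℕ) : ℝ) * ((m + 1).choose (a + 1) : ℝ) := by
    rw [hP, hdd, hdd2]
    push_cast
    linear_combination (((m : ℝ) - 2 * a + 1) * ξ - 1) * i1 - (1 - ξ) * ((m : ℝ) - 2 * a - 1) * i2
  rw [key] at hmul
  nlinarith [hl, hmul]

end DiamEven
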