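import Pool.Agent.DiamEven.Coord

/-! Lemma L' in the full range `2a ≤ m + 1`, by averaging over the coordinates. -/

namespace DiamEven

open Finset

variable {α : Type*} [DecidableEq α]

/-- `𝒟` is an antichain after translation by `Z`. -/
def Tw (Z : Finset α) (𝒟 : Finset (Finset α)) : Prop :=
  ∀ D ∈ 𝒟, ∀ D' ∈ 𝒟, symmDiff D Z ⊆ symmDiff D' Z → D = D'

lemma tw_nonMember {Z : Finset α} {𝒟 : Finset (Finset α)} (h : Tw Z 𝒟) (y : α) :
    Tw (Z.erase y) (𝒟.nonMemberSubfamily y) := by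
  intro D hD D' hD' hsub
  rw [mem_nonMemberSubfamily] at hD hD'
  apply h D hD.1 D' hD'.1
  intro z hz
  by_cases hzy : z = y
  · subst hzy
    rw [mem_symmDiff] at hz ⊢
    tauto
  · have h1 : z ∈ symmDiff D (Z.erase y) := by
      rw [mem_symmDiff, mem_erase] at *
      tauto
    have h2 := hsub h1
    rw [mem_symmDiff, mem_erase] at h2
    rw [mem_symmDiff]
    tauto

lemma tw_member {Z : Finset α} {𝒟 : Finset (Finset α)} (h : Tw Z 𝒟) (y : α) :
    Tw (Z.erase y) (𝒟.memberSubfamily y) := by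
  intro D hD D' hD' hsub
  rw [mem_memberSubfamily] at hD hD'
  have h0 : insert y D = insert y D' := by
    apply h _ hD.1 _ hD'.1
    intro z hz
    by_cases hzy : z = y
    · subst hzy
      rw [mem_symmDiff] at hz ⊢
      simp only [mem_insert, true_or, not_true_eq_false, and_false, or_false, true_and] at hz ⊢
      exact hz
    · have h1 : z ∈ symmDiff D (Z.erase y) := by
        rw [mem_symmDiff, mem_insert] at hz
        rw [mem_symmDiff, mem_erase]
        tauto
      have h2 := hsub h1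
      rw [mem_symmDiff, mem_erase] at h2
      rw [mem_symmDiff, mem_insert]
      tauto
  rw [← erase_insert hD.2, ← erase_insert hD'.2, h0]

lemma sum_nonMember (S : Finset α) (𝒟 : Finset (Finset α)) (hS : ∀ D ∈ 𝒟, D ⊆ S)
    (f : ℕ → ℝ) :
    ∑ y ∈ S, ∑ D ∈ 𝒟.nonMemberSubfamily y, f D.card =
      ∑ D ∈ 𝒟, ((S.card : ℝ) - D.card) * f D.card := by
  have h1 : ∀ y ∈ S, ∑ D ∈ 𝒟.nonMemberSubfamily y, f D.card =
      ∑ D ∈ 𝒟, if y ∉ D then f D.card else 0 := by
    intro y _
    rw [← Finset.sum_filter]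
    rfl
  rw [Finset.sum_congr rfl h1, Finset.sum_comm]
  apply Finset.sum_congr rfl
  intro D hD
  rw [← Finset.sum_filter, Finset.sum_const, nsmul_eq_mul]
  congr 1
  have h2 : S.filter (fun y => y ∉ D) = S \ D := by
    ext y; simp
  rw [h2, card_sdiff_of_subset (hS D hD), Nat.cast_sub (card_le_card (hS D hD))]

lemma sum_member (S : Finset α) (𝒟 : Finset (Finset α)) (hS : ∀ D ∈ 𝒟, D ⊆ S)
    (f : ℕ → ℝ) :
    ∑ y ∈ S, ∑ D ∈ 𝒟.memberSubfamily y, f D.card =
      ∑ D ∈ 𝒟, (D.card : ℝ) * f (D.card - 1) := by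
  have h1 : ∀ y ∈ S, ∑ D ∈ 𝒟.memberSubfamily y, f D.card =
      ∑ D ∈ 𝒟, if y ∈ D then f (D.card - 1) else 0 := by
    intro y _
    rw [← Finset.sum_filter]
    have : 𝒟.memberSubfamily y = (𝒟.filter (fun D => y ∈ D)).image (fun D => D.erase y) := rfl
    rw [this, Finset.sum_image]
    · apply Finset.sum_congr rfl
      intro D hD
      rw [mem_filter] at hD
      rw [card_erase_of_mem hD.2]
    · intro D hD D' hD' h
      simp only [coe_filter, Set.mem_ofPred_eq] at hD hD'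
      rw [← insert_erase hD.2, ← insert_erase hD'.2]
      simp only at h
      rw [h]
  rw [Finset.sum_congr rfl h1, Finset.sum_comm]
  apply Finset.sum_congr rfl
  intro D hD
  rw [← Finset.sum_filter, Finset.sum_const, nsmul_eq_mul]
  congr 2
  have h2 : S.filter (fun y => y ∈ D) = D := by
    ext y
    simp only [mem_filter, and_iff_right_iff_imp]
    intro hy
    exact hS D hD hy
  rw [h2]

lemma tw_sperner (S Z : Finset α) (hZ : Z ⊆ S) (𝒟 : Finset (Finset α)) (hT : Tw Z 𝒟)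
    (hS : ∀ D ∈ 𝒟, D ⊆ S) (a : ℕ) (ha : 2 * a = S.card + 1) :
    (𝒟.card : ℝ) ≤ S.card.choose a := by
  set f : Finset α → Finset α := fun D => symmDiff D Z with hf
  have hinj : Function.Injective f := symmDiff_left_injective Z
  have hsub : ∀ A ∈ 𝒟.image f, A ⊆ S := by
    intro A hA
    rw [mem_image] at hA
    obtain ⟨D, hD, rfl⟩ := hA
    intro x hx
    rw [hf] at hx
    simp only [mem_symmDiff] at hx
    rcases hx with h | h
    · exact hS D hD h.1
    · exact hZ h.1
  have hanti : IsAntichain (· ⊆ ·) ((𝒟.image f : Finset (Finset α)) : Set (Finset α)) := by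
    intro A hA B hB hne hAB
    simp only [coe_image, Set.mem_image, mem_coe] at hA hB
    obtain ⟨D, hD, rfl⟩ := hA
    obtain ⟨D', hD', rfl⟩ := hB
    exact hne (by rw [hT D hD D' hD' hAB])
  have h1 := lym_on S (𝒟.image f) hanti hsub
  have hpos : (0 : ℝ) < S.card.choose a := by
    exact_mod_cast Nat.choose_pos (by omega)
  have h2 : ∑ A ∈ 𝒟.image f, (1 : ℝ) / (S.card.choose a) ≤
      ∑ A ∈ 𝒟.image f, (1 : ℝ) / (S.card.choose A.card) := by
    apply Finset.sum_le_sum
    intro A hA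
    have hA' : A.card ≤ S.card := card_le_card (hsub A hA)
    apply one_div_le_one_div_of_le
    · exact_mod_cast Nat.choose_pos hA'
    · have h3 : S.card.choose A.card ≤ S.card.choose (S.card / 2) := Nat.choose_le_middle _ _
      have h4 : S.card.choose (S.card / 2) = S.card.choose a := by
        apply Nat.choose_symm_of_eq_add
        omega
      rw [h4] at h3
      exact_mod_cast h3
  rw [Finset.sum_const, nsmul_eq_mul, card_image_of_injective _ hinj, mul_one_div] at h2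
  have h3 := h2.trans h1
  rwa [div_le_one hpos] at h3

/-- L' for twisted families, full range. -/
theorem tw_full : ∀ (m : ℕ) (S Z : Finset α), S.card = m → Z ⊆ S → ∀ 𝒟 : Finset (Finset α),
    Tw Z 𝒟 → (∀ D ∈ 𝒟, D ⊆ S) → ∀ a : ℕ, 2 * a ≤ m + 1 →
    ∑ D ∈ 𝒟, (((m : ℝ) + 1 - 2 * a) * ((a : ℝ) - D.card) + a) ≤ a * (m.choose a : ℝ) := by
  intro m
  induction m with
  | zero =>
    intro S Z hm hZ 𝒟 hT hS a ha
    have ha0 : a = 0 := by omega
    subst ha0
    rw [card_eq_zero] at hm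
    subst hm
    have : ∀ D ∈ 𝒟, (((0 : ℕ) : ℝ) + 1 - 2 * ((0 : ℕ) : ℝ)) * (((0 : ℕ) : ℝ) - D.card) + ((0 : ℕ) : ℝ) = 0 := by
      intro D hD
      have : D = ∅ := subset_empty.1 (hS D hD)
      subst this
      simp
    rw [Finset.sum_congr rfl this]
    simp
  | succ m ih =>
    intro S Z hm hZ 𝒟 hT hS a ha
    rcases Nat.eq_zero_or_pos a with ha0 | ha1
    · subst ha0
      have : ∑ D ∈ 𝒟, ((((m + 1 : ℕ) : ℝ) + 1 - 2 * ((0 : ℕ) : ℝ)) * (((0 : ℕ) : ℝ) - D.card)
          + ((0 : ℕ) : ℝ)) ≤ ∑ D ∈ 𝒟, (0 : ℝ) := by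
        apply Finset.sum_le_sum
        intro D _
        have h1 : (0 : ℝ) ≤ D.card := by positivity
        have h2 : (0 : ℝ) ≤ ((m + 1 : ℕ) : ℝ) + 1 := by positivity
        have h3 := mul_nonneg h2 h1
        push_cast at h3 ⊢
        linarith
      refine this.trans ?_
      simp
    rcases Nat.lt_or_ge (m + 1) (2 * a) with h2a | h2a
    · -- the Sperner case
      have h2a' : 2 * a = m + 2 := by omega
      have hsp := tw_sperner S Z hZ 𝒟 hT hS a (by omega)
      have hR : (2 : ℝ) * a = m + 2 := by exact_mod_cast h2a'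
      have : ∀ D ∈ 𝒟, ((((m + 1 : ℕ) : ℝ) + 1 - 2 * (a : ℝ)) * ((a : ℝ) - D.card) + (a : ℝ)) = a := by
        intro D _
        push_cast
        rw [hR]
        ring
      rw [Finset.sum_congr rfl this, Finset.sum_const, nsmul_eq_mul, mul_comm]
      rw [hm] at hsp
      exact mul_le_mul_of_nonneg_left hsp (by positivity)
    · -- the averaging step
      obtain ⟨b, rfl⟩ : ∃ b, a = b + 1 := ⟨a - 1, by omega⟩
      have i0 : ∀ y ∈ S, ∑ D ∈ 𝒟.nonMemberSubfamily y,
          (((m : ℝ) + 1 - 2 * ((b + 1 : ℕ) : ℝ)) * (((b + 1 : ℕ) : ℝ) - D.card) + ((b + 1 : ℕ) : ℝ))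
            ≤ ((b + 1 : ℕ) : ℝ) * (m.choose (b + 1) : ℝ) := by
        intro y hy
        apply ih (S.erase y) (Z.erase y) (by rw [card_erase_of_mem hy, hm]; rfl)
          (erase_subset_erase _ hZ) _ (tw_nonMember hT y) _ _ (by omega)
        intro D hD
        rw [mem_nonMemberSubfamily] at hD
        intro z hz
        rw [mem_erase]
        exact ⟨fun h => hD.2 (h ▸ hz), hS D hD.1 hz⟩
      have i1 : ∀ y ∈ S, ∑ D ∈ 𝒟.memberSubfamily y,
          (((m : ℝ) + 1 - 2 * (b : ℝ)) * ((b : ℝ) - D.card) + (b : ℝ))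
            ≤ (b : ℝ) * (m.choose b : ℝ) := by
        intro y hy
        apply ih (S.erase y) (Z.erase y) (by rw [card_erase_of_mem hy, hm]; rfl)
          (erase_subset_erase _ hZ) _ (tw_member hT y) _ _ (by omega)
        intro D hD
        rw [mem_memberSubfamily] at hD
        intro z hz
        rw [mem_erase]
        exact ⟨fun h => hD.2 (h ▸ hz), hS _ hD.1 (mem_insert_of_mem hz)⟩
      have s0 := Finset.sum_le_sum i0
      have s1 := Finset.sum_le_sum i1
      rw [sum_nonMember S 𝒟 hS (fun d => ((m : ℝ) + 1 - 2 * ((b + 1 : ℕ) : ℝ)) *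
        (((b + 1 : ℕ) : ℝ) - d) + ((b + 1 : ℕ) : ℝ)), Finset.sum_const, hm, nsmul_eq_mul] at s0
      rw [sum_member S 𝒟 hS (fun d => ((m : ℝ) + 1 - 2 * (b : ℝ)) * ((b : ℝ) - d) + (b : ℝ)),
        Finset.sum_const, hm, nsmul_eq_mul] at s1
      have hbR : (2 : ℝ) * (b + 1) ≤ m + 1 := by exact_mod_cast h2a
      have c0 : (0 : ℝ) ≤ (m : ℝ) + 1 - 2 * b := by linarith
      have c1 : (0 : ℝ) ≤ (m : ℝ) - 1 - 2 * b := by linarith
      have t0 := mul_le_mul_of_nonneg_left s0 c0
      have t1 := mul_le_mul_of_nonneg_left s1 c1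
      rw [Finset.mul_sum] at t0 t1
      have t := add_le_add t0 t1
      rw [← Finset.sum_add_distrib] at t
      have hmp : (0 : ℝ) < (m : ℝ) + 1 := by positivity
      have hkp : (0 : ℝ) < (m : ℝ) - 2 * b := by linarith
      have e1 : ∀ D ∈ 𝒟,
          ((m : ℝ) + 1 - 2 * b) * ((((m + 1 : ℕ) : ℝ) - D.card) *
            (((m : ℝ) + 1 - 2 * ((b + 1 : ℕ) : ℝ)) * (((b + 1 : ℕ) : ℝ) - D.card)
              + ((b + 1 : ℕ) : ℝ))) +
          ((m : ℝ) - 1 - 2 * b) * ((D.card : ℝ) *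
            (((m : ℝ) + 1 - 2 * (b : ℝ)) * ((b : ℝ) - ((D.card - 1 : ℕ) : ℝ)) + (b : ℝ))) =
          ((m : ℝ) + 1) * ((m : ℝ) - 2 * b) *
            ((((m + 1 : ℕ) : ℝ) + 1 - 2 * ((b + 1 : ℕ) : ℝ)) * (((b + 1 : ℕ) : ℝ) - D.card)
              + ((b + 1 : ℕ) : ℝ)) := by
        intro D _
        rcases Nat.eq_zero_or_pos D.card with h | h
        · rw [h]; push_cast; ring
        · rw [Nat.cast_sub h]; push_cast; ring
      rw [Finset.sum_congr rfl e1, ← Finset.mul_sum] at t
      -- binomial identities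
      have j1 : ((m : ℝ) + 1) * m.choose b = (m + 1).choose (b + 1) * ((b : ℝ) + 1) := by
        have := Nat.add_one_mul_choose_eq m b
        exact_mod_cast this
      have j2 : (m.choose (b + 1) : ℝ) = (m + 1).choose (b + 1) - m.choose b := by
        rw [Nat.choose_succ_succ]; push_cast; ring
      have e2 : ((m : ℝ) + 1 - 2 * b) * (((m + 1 : ℕ) : ℝ) * (((b + 1 : ℕ) : ℝ) *
            (m.choose (b + 1) : ℝ))) +
          ((m : ℝ) - 1 - 2 * b) * (((m + 1 : ℕ) : ℝ) * ((b : ℝ) * (m.choose b : ℝ))) =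
          ((m : ℝ) + 1) * ((m : ℝ) - 2 * b) * (((b + 1 : ℕ) : ℝ) *
            ((m + 1).choose (b + 1) : ℝ)) := by
        rw [j2]
        push_cast
        linear_combination (((m : ℝ) - 1 - 2 * b) * b - ((m : ℝ) + 1 - 2 * b) * (b + 1)) * j1
      rw [e2] at t
      exact le_of_mul_le_mul_left t (mul_pos hmp hkp)

/-- L' in the full range. -/
theorem lfull (S Z : Finset α) (hZ : Z ⊆ S) (G : Finset (Finset α))
    (hG : IsAntichain (· ⊆ ·) (G : Set (Finset α))) (hS : ∀ B ∈ G, B ⊆ S) (a : ℕ)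
    (h2 : 2 * a ≤ S.card + 1) :
    ∑ B ∈ G, (((S.card : ℝ) + 1 - 2 * a) * ((a : ℝ) - (((Z \ B).card + (B \ Z).card : ℕ) : ℝ)) + a)
      ≤ a * (S.card.choose a : ℝ) := by
  have hinj : Function.Injective (fun B : Finset α => symmDiff B Z) := symmDiff_left_injective Z
  have h := tw_full S.card S Z rfl hZ (G.image (fun B => symmDiff B Z)) (by
    intro D hD D' hD' hsub
    rw [mem_image] at hD hD'
    obtain ⟨A, hA, rfl⟩ := hD
    obtain ⟨B, hB, rfl⟩ := hD'
    simp only [symmDiff_symmDiff_cancel_right] at hsub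
    by_cases hAB : A = B
    · rw [hAB]
    · exact absurd hsub (hG hA hB hAB)) (by
    intro D hD
    rw [mem_image] at hD
    obtain ⟨A, hA, rfl⟩ := hD
    intro x hx
    rw [mem_symmDiff] at hx
    rcases hx with h | h
    · exact hS A hA h.1
    · exact hZ h.1) a h2
  rw [Finset.sum_image (fun _ _ _ _ h => hinj h)] at h
  refine le_trans (le_of_eq ?_) h
  apply Finset.sum_congr rfl
  intro B _
  have : (symmDiff B Z).card = (Z \ B).card + (B \ Z).card := by
    rw [symmDiff_def, sup_eq_union, card_union_of_disjoint disjoint_sdiff_sdiff, add_comm]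
  rw [this]

end DiamEven
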