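import Pool.Agent.DiamEven.Num2

/-! The function `g_m(ρ) = ∑ C(m,j) |j - ρ|` and its convexity along the binomials. -/

namespace DiamEven

open Finset

/-- `g_m(ρ) = ∑ C(m,j) |j - ρ|` -/
noncomputable def gg (m : ℕ) (ρ : ℝ) : ℝ := ∑ j ∈ range (m + 1), (m.choose j : ℝ) * |(j : ℝ) - ρ|

lemma sum_choose_succ (m : ℕ) (f : ℕ → ℝ) :
    ∑ j ∈ range (m + 2), ((m + 1).choose j : ℝ) * f j =
      ∑ j ∈ range (m + 1), (m.choose j : ℝ) * f j + ∑ j ∈ range (m + 1), (m.choose j : ℝ) * f (j + 1) := by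
  rw [Finset.sum_range_succ']
  have h1 : ∑ j ∈ range (m + 1), ((m + 1).choose (j + 1) : ℝ) * f (j + 1) =
      ∑ j ∈ range (m + 1), (m.choose j : ℝ) * f (j + 1) +
        ∑ j ∈ range (m + 1), (m.choose (j + 1) : ℝ) * f (j + 1) := by
    rw [← Finset.sum_add_distrib]
    apply Finset.sum_congr rfl
    intro j _
    rw [Nat.choose_succ_succ]
    push_cast
    ring
  have h2 : ∑ j ∈ range (m + 1), (m.choose (j + 1) : ℝ) * f (j + 1) + (m.choose 0 : ℝ) * f 0 =
      ∑ j ∈ range (m + 1), (m.choose j : ℝ) * f j := by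
    rw [← Finset.sum_range_succ' (fun j => (m.choose j : ℝ) * f j) (m + 1),
      Finset.sum_range_succ]
    simp
  rw [h1, ← h2]
  simp only [Nat.choose_zero_right]
  ring

lemma gg_pascal (m : ℕ) (ρ : ℝ) : gg (m + 1) ρ = gg m ρ + gg m (ρ - 1) := by
  unfold gg
  rw [sum_choose_succ m (fun j => |(j : ℝ) - ρ|)]
  congr 1
  apply Finset.sum_congr rfl
  intro j _
  push_cast
  congr 2
  ring

lemma gg_symm (m : ℕ) (ρ : ℝ) : gg m ((m : ℝ) - ρ) = gg m ρ := by
  unfold gg
  rw [← Finset.sum_range_reflect]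
  apply Finset.sum_congr rfl
  intro j hj
  rw [mem_range] at hj
  have h1 : m + 1 - 1 - j = m - j := by omega
  rw [h1, Nat.choose_symm (by omega), Nat.cast_sub (by omega), ← abs_neg]
  congr 2
  ring

lemma abs_lin (j z : ℤ) (t : ℝ) (h0 : 0 ≤ t) (h1 : t ≤ 1) :
    |(j : ℝ) - (z + t)| = (1 - t) * |(j : ℝ) - z| + t * |(j : ℝ) - (z + 1)| := by
  rcases le_or_gt j z with h | h
  · have h' : (j : ℝ) ≤ z := by exact_mod_cast h
    rw [abs_of_nonpos (by linarith), abs_of_nonpos (by linarith), abs_of_nonpos (by linarith)]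
    ring
  · have h' : (z : ℝ) + 1 ≤ j := by exact_mod_cast h
    rw [abs_of_nonneg (by linarith), abs_of_nonneg (by linarith), abs_of_nonneg (by linarith)]
    ring

lemma gg_lin_int (m : ℕ) (z : ℤ) (t : ℝ) (h0 : 0 ≤ t) (h1 : t ≤ 1) :
    gg m ((z : ℝ) + t) = (1 - t) * gg m z + t * gg m ((z : ℝ) + 1) := by
  unfold gg
  rw [Finset.mul_sum, Finset.mul_sum, ← Finset.sum_add_distrib]
  apply Finset.sum_congr rfl
  intro j _
  have := abs_lin (j : ℤ) z t h0 h1
  push_cast at this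
  rw [this]
  ring

lemma gg_lin (m a : ℕ) (t : ℝ) (h0 : 0 ≤ t) (h1 : t ≤ 1) :
    gg m ((a : ℝ) + t) = (1 - t) * gg m a + t * gg m ((a : ℝ) + 1) := by
  have := gg_lin_int m (a : ℤ) t h0 h1
  exact_mod_cast this

/-- `u_j = g_m(j-1) - g_m(j)` -/
noncomputable def uu (m j : ℕ) : ℝ := gg m ((j : ℝ) - 1) - gg m j

lemma uu_pascal (m j : ℕ) : uu (m + 1) (j + 1) = uu m (j + 1) + uu m j := by
  unfold uu
  rw [gg_pascal, gg_pascal]
  push_cast
  ring_nf

lemma uu_zero (m : ℕ) : uu m 0 = 2 ^ m := by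
  unfold uu gg
  rw [← Finset.sum_sub_distrib]
  have : ∀ j ∈ range (m + 1), (m.choose j : ℝ) * |(j : ℝ) - (((0 : ℕ) : ℝ) - 1)| -
      (m.choose j : ℝ) * |(j : ℝ) - ((0 : ℕ) : ℝ)| = m.choose j := by
    intro j _
    have h : (0 : ℝ) ≤ j := by positivity
    rw [abs_of_nonneg (by push_cast; linarith), abs_of_nonneg (by push_cast; linarith)]
    push_cast
    ring
  rw [Finset.sum_congr rfl this, ← Nat.cast_sum, Nat.sum_range_choose]
  push_cast
  rfl

lemma uu_one_le (m : ℕ) : uu m 1 ≤ 2 ^ m := by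
  have h0 : (2 : ℝ) ^ m = ∑ j ∈ range (m + 1), (m.choose j : ℝ) := by
    rw [← Nat.cast_sum, Nat.sum_range_choose]
    push_cast
    rfl
  unfold uu gg
  rw [h0, ← Finset.sum_sub_distrib]
  apply Finset.sum_le_sum
  intro j _
  have h1 : |(j : ℝ) - (((1 : ℕ) : ℝ) - 1)| - |(j : ℝ) - ((1 : ℕ) : ℝ)| ≤ 1 := by
    have := abs_sub_abs_le_abs_sub ((j : ℝ) - (((1 : ℕ) : ℝ) - 1)) ((j : ℝ) - ((1 : ℕ) : ℝ))
    refine this.trans ?_
    push_cast
    rw [show (j : ℝ) - (1 - 1) - (j - 1) = 1 by ring, abs_one]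
  have h2 : (0 : ℝ) ≤ m.choose j := by positivity
  nlinarith

lemma uu_mid (i : ℕ) : uu (2 * i + 1) (i + 1) = 0 := by
  unfold uu
  have h := gg_symm (2 * i + 1) (((i + 1 : ℕ) : ℝ))
  have e : (((2 * i + 1 : ℕ) : ℝ) - ((i + 1 : ℕ) : ℝ)) = ((i + 1 : ℕ) : ℝ) - 1 := by
    push_cast; ring
  rw [e] at h
  rw [h, sub_self]

lemma dd_mid (i : ℕ) : dd (2 * i + 1) (i + 1) = 0 := by
  rw [dd_succ]
  have : (2 * i + 1).choose (i + 1) = (2 * i + 1).choose i := by
    apply Nat.choose_symm_of_eq_add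
    omega
  rw [this, sub_self]

lemma dd_nonneg (m j : ℕ) (h : 2 * j ≤ m + 1) : 0 ≤ dd m j := by
  rcases j with _ | j
  · rw [dd_zero]; norm_num
  rcases Nat.lt_or_ge m (2 * (j + 1)) with h' | h'
  · obtain rfl : m = 2 * j + 1 := by omega
    rw [dd_mid]
  · exact (dd_pos m j h').le

lemma uu_nonneg (m : ℕ) : ∀ j : ℕ, 2 * j ≤ m + 1 → 0 ≤ uu m j := by
  induction m with
  | zero =>
    intro j hj
    have : j = 0 := by omega
    subst this
    rw [uu_zero]; norm_num
  | succ m ih =>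
    intro j hj
    rcases j with _ | j
    · rw [uu_zero]; positivity
    rcases Nat.lt_or_ge (m + 1) (2 * (j + 1)) with h' | h'
    · obtain rfl : m = 2 * j := by omega
      rw [uu_mid]
    · rw [uu_pascal]
      exact add_nonneg (ih _ (by omega)) (ih _ (by omega))

/-- convexity of `g` along the binomials -/
lemma kink (m : ℕ) : ∀ j : ℕ, 2 * j + 1 ≤ m → dd m j * uu m (j + 1) ≤ dd m (j + 1) * uu m j := by
  induction m with
  | zero => intro j hj; omega
  | succ m ih =>
    intro j hj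
    rcases j with _ | j
    · rw [dd_zero, uu_zero, one_mul]
      rcases Nat.eq_zero_or_pos m with hm | hm
      · subst hm
        have h1 := uu_mid 0
        have h2 := dd_mid 0
        simp only [mul_zero, zero_add] at h1 h2 ⊢
        rw [h1, h2]
        norm_num
      · have h1 := uu_one_le (m + 1)
        have h2 : (1 : ℝ) ≤ dd (m + 1) 1 := by
          rw [show (1 : ℕ) = 0 + 1 from rfl, dd_succ]
          simp only [zero_add, Nat.choose_one_right, Nat.choose_zero_right]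
          have : (1 : ℝ) ≤ m := by exact_mod_cast hm
          push_cast
          linarith
        have h3 : (0 : ℝ) ≤ 2 ^ (m + 1) := by positivity
        simp only [zero_add]
        nlinarith
    · rcases Nat.lt_or_ge m (2 * (j + 1) + 1) with h' | h'
      · obtain rfl : m = 2 * (j + 1) := by omega
        rw [uu_mid, dd_mid]
        simp
      · have k1 := ih j (by omega)
        have k2 := ih (j + 1) (by omega)
        rw [dd_pascal, uu_pascal, dd_pascal, uu_pascal]
        have p1 : 0 < dd m (j + 1) := dd_pos m j (by omega)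
        have p0 : 0 ≤ dd m j := dd_nonneg m j (by omega)
        have p2 : 0 ≤ dd m (j + 1 + 1) := dd_nonneg m (j + 1 + 1) (by omega)
        have k3 : dd m j * uu m (j + 1 + 1) ≤ dd m (j + 1 + 1) * uu m j := by
          have e1 := mul_le_mul_of_nonneg_left k1 p2
          have e2 := mul_le_mul_of_nonneg_left k2 p0
          have e3 : dd m (j + 1) * (dd m j * uu m (j + 1 + 1)) ≤
              dd m (j + 1) * (dd m (j + 1 + 1) * uu m j) := by nlinarith
          exact le_of_mul_le_mul_left e3 p1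
        nlinarith

end DiamEven
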