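import Pool.Agent.DiamEven.Coord

/-! The induction. -/

namespace DiamEven

open Finset

variable {α : Type*} [DecidableEq α]

/-- Two antichains of subsets of `S` at mutual Hamming distance at least `k`. -/
structure VPair (k : ℕ) (S : Finset α) (G H : Finset (Finset α)) : Prop where
  antiG : IsAntichain (· ⊆ ·) (G : Set (Finset α))
  antiH : IsAntichain (· ⊆ ·) (H : Set (Finset α))
  subG : ∀ A ∈ G, A ⊆ S
  subH : ∀ B ∈ H, B ⊆ S
  far : ∀ A ∈ G, ∀ B ∈ H, k ≤ (A \ B).card + (B \ A).card

namespace VPair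

variable {k : ℕ} {S : Finset α} {G H : Finset (Finset α)}

lemma symm (h : VPair k S G H) : VPair k S H G :=
  ⟨h.antiH, h.antiG, h.subH, h.subG, fun A hA B hB => by
    rw [add_comm]; exact h.far B hB A hA⟩

lemma mono (h : VPair k S G H) {G' H' : Finset (Finset α)} (hG : G' ⊆ G) (hH : H' ⊆ H) :
    VPair k S G' H' :=
  ⟨h.antiG.subset (by exact_mod_cast hG), h.antiH.subset (by exact_mod_cast hH),
    fun A hA => h.subG A (hG hA), fun A hA => h.subH A (hH hA),
    fun A hA B hB => h.far A (hG hA) B (hH hB)⟩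

lemma anti_member (x : α) (hG : IsAntichain (· ⊆ ·) (G : Set (Finset α))) :
    IsAntichain (· ⊆ ·) ((G.memberSubfamily x : Finset (Finset α)) : Set (Finset α)) := by
  intro A hA B hB hne hsub
  simp only [mem_coe, mem_memberSubfamily] at hA hB
  apply hG hA.1 hB.1 _ (insert_subset_insert x hsub)
  intro h
  apply hne
  rw [← erase_insert hA.2, ← erase_insert hB.2, h]

lemma anti_nonMember (x : α) (hG : IsAntichain (· ⊆ ·) (G : Set (Finset α))) :
    IsAntichain (· ⊆ ·) ((G.nonMemberSubfamily x : Finset (Finset α)) : Set (Finset α)) :=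
  hG.subset (by intro A hA; simp only [mem_coe, mem_nonMemberSubfamily] at hA; exact hA.1)

lemma member (h : VPair k S G H) (x : α) :
    VPair k (S.erase x) (G.memberSubfamily x) (H.memberSubfamily x) := by
  refine ⟨anti_member x h.antiG, anti_member x h.antiH, ?_, ?_, ?_⟩
  · intro A hA
    rw [mem_memberSubfamily] at hA
    have := h.subG _ hA.1
    intro y hy
    rw [mem_erase]
    exact ⟨fun hyx => hA.2 (hyx ▸ hy), this (mem_insert_of_mem hy)⟩
  · intro A hA
    rw [mem_memberSubfamily] at hA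
    have := h.subH _ hA.1
    intro y hy
    rw [mem_erase]
    exact ⟨fun hyx => hA.2 (hyx ▸ hy), this (mem_insert_of_mem hy)⟩
  · intro A hA B hB
    rw [mem_memberSubfamily] at hA hB
    have h1 := h.far _ hA.1 _ hB.1
    have e1 : insert x A \ insert x B = A \ B := by
      rw [insert_sdiff_insert]
      ext y; simp only [mem_sdiff, mem_insert, not_or]
      constructor
      · rintro ⟨h1, h2, h3⟩; exact ⟨h1, h3⟩
      · rintro ⟨h1, h2⟩; exact ⟨h1, fun hyx => hA.2 (hyx ▸ h1), h2⟩
    have e2 : insert x B \ insert x A = B \ A := by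
      rw [insert_sdiff_insert]
      ext y; simp only [mem_sdiff, mem_insert, not_or]
      constructor
      · rintro ⟨h1, h2, h3⟩; exact ⟨h1, h3⟩
      · rintro ⟨h1, h2⟩; exact ⟨h1, fun hyx => hB.2 (hyx ▸ h1), h2⟩
    rwa [e1, e2] at h1

lemma nonMember (h : VPair k S G H) (x : α) :
    VPair k (S.erase x) (G.nonMemberSubfamily x) (H.nonMemberSubfamily x) := by
  refine ⟨anti_nonMember x h.antiG, anti_nonMember x h.antiH, ?_, ?_, ?_⟩
  · intro A hA
    rw [mem_nonMemberSubfamily] at hA
    intro y hy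
    rw [mem_erase]
    exact ⟨fun hyx => hA.2 (hyx ▸ hy), h.subG _ hA.1 hy⟩
  · intro A hA
    rw [mem_nonMemberSubfamily] at hA
    intro y hy
    rw [mem_erase]
    exact ⟨fun hyx => hA.2 (hyx ▸ hy), h.subH _ hA.1 hy⟩
  · intro A hA B hB
    rw [mem_nonMemberSubfamily] at hA hB
    exact h.far _ hA.1 _ hB.1

/-- Corner `(0, D)`. -/
lemma ball_le (h : VPair k S G H) (hG : G.Nonempty) (D : ℕ) (hS : S.card = D + k)
    (hD : 2 * D ≤ S.card) : H.card ≤ S.card.choose D := by
  obtain ⟨A, hA⟩ := hG
  refine ball S (S \ A) sdiff_subset H h.antiH h.subH D hD ?_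
  intro B hB
  have h1 := h.far A hA B hB
  have hAS := h.subG A hA
  have hBS := h.subH B hB
  have e1 : (S \ A) \ B = S \ (A ∪ B) := by
    ext y; simp only [mem_sdiff, mem_union, not_or]; tauto
  have e2 : B \ (S \ A) = A ∩ B := by
    ext y; simp only [mem_sdiff, mem_inter, not_and, not_not]
    constructor
    · rintro ⟨h1, h2⟩; exact ⟨h2 (hBS h1), h1⟩
    · rintro ⟨h1, h2⟩; exact ⟨h2, fun _ => h1⟩
  rw [e1, e2]
  have e3 : (S \ (A ∪ B)).card + (A ∪ B).card = S.card :=
    card_sdiff_add_card_eq_card (union_subset hAS hBS)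
  have e4 : (A ∪ B).card = (A \ B).card + (B \ A).card + (A ∩ B).card := by
    have h3 : (A \ B).card + (A ∩ B).card = A.card := card_sdiff_add_card_inter A B
    have h4 : (B \ A).card + (B ∩ A).card = B.card := card_sdiff_add_card_inter B A
    have h5 := card_union_add_card_inter A B
    rw [inter_comm B A] at h4
    omega
  omega

end VPair

/-- The triangle statement for box `(a,b)`. -/
def PT (α : Type*) [DecidableEq α] (c k D : ℕ) : Prop :=
  ∀ a b : ℕ, a + b + 1 = D → a + 1 ≤ c → b + 1 ≤ c → ∀ (S : Finset α) (G H : Finset (Finset α)),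
    S.card = D + k → VPair k S G H →
    (S.card.choose a : ℝ) ≤ G.card → (G.card : ℝ) ≤ S.card.choose (a + 1) →
    (S.card.choose b : ℝ) ≤ H.card → (H.card : ℝ) ≤ S.card.choose (b + 1) →
    dd S.card (b + 1) * ((G.card : ℝ) - S.card.choose a) +
      dd S.card (a + 1) * ((H.card : ℝ) - S.card.choose b) ≤ dd S.card (a + 1) * dd S.card (b + 1)

/-- The corner statement for `(a,b)`. -/
def PK (α : Type*) [DecidableEq α] (c k D : ℕ) : Prop :=
  ∀ a b : ℕ, a + b = D → a ≤ c → b ≤ c → ∀ (S : Finset α) (G H : Finset (Finset α)),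
    S.card = D + k → VPair k S G H → S.card.choose a ≤ G.card → H.card ≤ S.card.choose b

lemma M1 {c k D : ℕ} (hck : c + 1 ≤ k) (hT : PT α c k D) (a b : ℕ) (hab : a + b + 1 = D)
    (ha : a + 1 ≤ c) (hb : b + 1 ≤ c) (S : Finset α) (G H : Finset (Finset α))
    (hS : S.card = D + k) (hV : VPair k S G H) (ξ : ℝ) (h0 : 0 < ξ) (h1 : ξ ≤ 1)
    (hG : (S.card.choose a : ℝ) + ξ * dd S.card (a + 1) ≤ G.card) :
    (H.card : ℝ) ≤ S.card.choose (b + 1) - ξ * dd S.card (b + 1) := by
  by_contra hcon
  push Not at hcon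
  have pa : 0 < dd S.card (a + 1) := dd_pos _ _ (by omega)
  have pb : 0 < dd S.card (b + 1) := dd_pos _ _ (by omega)
  have ea := dd_succ S.card a
  have eb := dd_succ S.card b
  obtain ⟨G', hG', hG'c⟩ := Finset.exists_subset_card_eq
    (min_le_left G.card (S.card.choose (a + 1)))
  obtain ⟨H', hH', hH'c⟩ := Finset.exists_subset_card_eq
    (min_le_left H.card (S.card.choose (b + 1)))
  have g1 : (S.card.choose a : ℝ) + ξ * dd S.card (a + 1) ≤ G'.card := by
    rw [hG'c]; push_cast
    apply le_min hG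
    nlinarith
  have g2 : (G'.card : ℝ) ≤ S.card.choose (a + 1) := by
    rw [hG'c]; exact_mod_cast min_le_right _ _
  have k1 : (S.card.choose (b + 1) : ℝ) - ξ * dd S.card (b + 1) < H'.card := by
    rw [hH'c]; push_cast
    apply lt_min hcon
    nlinarith
  have k2 : (H'.card : ℝ) ≤ S.card.choose (b + 1) := by
    rw [hH'c]; exact_mod_cast min_le_right _ _
  have := hT a b hab ha hb S G' H' hS (hV.mono hG' hH') (by nlinarith) g2 (by nlinarith) k2
  nlinarith [mul_le_mul_of_nonneg_left g1 pb.le, mul_lt_mul_of_pos_left k1 pa]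

/-- bound for one of the two same-side pairs -/
lemma pairBound {c k D : ℕ} (hck : c + 1 ≤ k) (hT : PT α c k D) (hK : PK α c k D) (a b : ℕ)
    (hab : a + b = D) (hle : a ≤ b) (ha : a + 1 ≤ c) (hb : b + 1 ≤ c) (S : Finset α)
    (G H : Finset (Finset α)) (hS : S.card = D + k) (hV : VPair k S G H) (ξ : ℝ) (h0 : 0 < ξ)
    (h1 : ξ ≤ 1)
    (hlo : (S.card.choose a : ℝ) - (1 - ξ) * dd S.card a ≤ G.card)
    (hhi : (G.card : ℝ) ≤ S.card.choose a + ξ * dd S.card (a + 1))
    (hz : a = 0 → 1 ≤ G.card) :
    ((1 - ξ) * dd S.card a + ξ * dd S.card (a + 1)) * ((H.card : ℝ) - S.card.choose b) ≤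
      (ξ * dd S.card (a + 1) - ((G.card : ℝ) - S.card.choose a)) * ((1 - ξ) * dd S.card (b + 1))
      - (((G.card : ℝ) - S.card.choose a) + (1 - ξ) * dd S.card a) * (ξ * dd S.card b) := by
  have pa : 0 < dd S.card (a + 1) := dd_pos _ _ (by omega)
  have pb : 0 < dd S.card (b + 1) := dd_pos _ _ (by omega)
  have hgood := good a b k S.card (by omega) (by omega) (by omega)
  have pa0 : 0 < dd S.card a := by
    rcases Nat.eq_zero_or_pos a with h | h
    · subst h; rw [dd_zero]; norm_num
    · obtain ⟨a', rfl⟩ : ∃ a', a = a' + 1 := ⟨a - 1, by omega⟩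
      exact dd_pos _ _ (by omega)
  rcases lt_trichotomy ((G.card : ℝ) - S.card.choose a) 0 with hδ | hδ | hδ
  · -- below
    obtain ⟨a', rfl⟩ : ∃ a', a = a' + 1 := by
      rcases Nat.eq_zero_or_pos a with h | h
      · subst h
        have := hz rfl
        have h2 : (1 : ℝ) ≤ G.card := by exact_mod_cast this
        rw [Nat.choose_zero_right] at hδ
        push_cast at hδ
        linarith
      · exact ⟨a - 1, by omega⟩
    set θ : ℝ := ((S.card.choose (a' + 1) : ℝ) - G.card) / dd S.card (a' + 1) with hθ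
    have hθd : θ * dd S.card (a' + 1) = (S.card.choose (a' + 1) : ℝ) - G.card := by
      rw [hθ, div_mul_cancel₀ _ pa0.ne']
    have hθ0 : 0 < θ := div_pos (by linarith) pa0
    have hθ1 : θ ≤ 1 - ξ := by
      rw [hθ, div_le_iff₀ pa0]; linarith
    have ea := dd_succ S.card a'
    have eb := dd_succ S.card b
    have hM := M1 hck hT a' b (by omega) (by omega) hb S G H hS hV (1 - θ) (by linarith)
      (by linarith) (by nlinarith)
    have hh : (H.card : ℝ) - S.card.choose b ≤ θ * dd S.card (b + 1) := by nlinarith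
    have hpq : 0 ≤ (1 - ξ) * dd S.card (a' + 1) + ξ * dd S.card (a' + 1 + 1) := by
      have : 0 ≤ 1 - ξ := by linarith
      positivity
    have hδ' : ((G.card : ℝ) - S.card.choose (a' + 1)) = - (θ * dd S.card (a' + 1)) := by
      rw [hθd]; ring
    rw [hδ']
    refine (mul_le_mul_of_nonneg_left hh hpq).trans ?_
    have hfin : 0 ≤ ξ * (1 - ξ - θ) * (dd S.card (a' + 1 + 1) * dd S.card (b + 1)
        - dd S.card (a' + 1) * dd S.card b) := by
      apply mul_nonneg (mul_nonneg h0.le (by linarith)) (by linarith)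
    nlinarith [hfin]
  · -- equal
    have hGe : S.card.choose a ≤ G.card := by
      have : (S.card.choose a : ℝ) ≤ G.card := by linarith
      exact_mod_cast this
    have hH := hK a b hab (by omega) (by omega) S G H hS hV hGe
    have hh : (H.card : ℝ) - S.card.choose b ≤ 0 := by
      have : (H.card : ℝ) ≤ S.card.choose b := by exact_mod_cast hH
      linarith
    have hpq : 0 ≤ (1 - ξ) * dd S.card a + ξ * dd S.card (a + 1) := by
      have : 0 ≤ 1 - ξ := by linarith
      positivity
    rw [hδ]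
    refine (mul_le_mul_of_nonneg_left hh hpq).trans ?_
    have hfin : 0 ≤ ξ * (1 - ξ) * (dd S.card (a + 1) * dd S.card (b + 1)
        - dd S.card a * dd S.card b) := by
      apply mul_nonneg (mul_nonneg h0.le (by linarith)) (by linarith)
    nlinarith [hfin]
  · -- above
    set θ : ℝ := ((G.card : ℝ) - S.card.choose a) / dd S.card (a + 1) with hθ
    have hθd : θ * dd S.card (a + 1) = (G.card : ℝ) - S.card.choose a := by
      rw [hθ, div_mul_cancel₀ _ pa.ne']
    have hθ0 : 0 < θ := div_pos hδ pa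
    have hθ1 : θ ≤ ξ := by
      rw [hθ, div_le_iff₀ pa]; linarith
    have hh : (H.card : ℝ) - S.card.choose b ≤ - (θ * dd S.card b) := by
      rcases Nat.eq_zero_or_pos b with h | h
      · -- b = 0, a = 0, D = 0
        have ha0 : a = 0 := by omega
        subst h
        subst ha0
        have hD : D = 0 := by omega
        subst hD
        rcases H.eq_empty_or_nonempty with hH | hH
        · rw [hH, dd_zero]
          simp only [card_empty, Nat.choose_zero_right]
          push_cast
          linarith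
        · exfalso
          have hb := hV.symm.ball_le hH 0 hS (by omega)
          simp only [Nat.choose_zero_right] at hb
          have : (G.card : ℝ) ≤ 1 := by exact_mod_cast hb
          simp only [Nat.choose_zero_right] at hδ
          push_cast at hδ
          linarith
      · obtain ⟨b', rfl⟩ : ∃ b', b = b' + 1 := ⟨b - 1, by omega⟩
        have hM := M1 hck hT a b' (by omega) ha (by omega) S G H hS hV θ hθ0 (by linarith)
          (by linarith)
        linarith
    have hpq : 0 ≤ (1 - ξ) * dd S.card a + ξ * dd S.card (a + 1) := by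
      have : 0 ≤ 1 - ξ := by linarith
      positivity
    rw [← hθd]
    refine (mul_le_mul_of_nonneg_left hh hpq).trans ?_
    have hfin : 0 ≤ (ξ - θ) * (1 - ξ) * (dd S.card (a + 1) * dd S.card (b + 1)
        - dd S.card a * dd S.card b) := by
      apply mul_nonneg (mul_nonneg (by linarith) (by linarith)) (by linarith)
    nlinarith [hfin]

/-- Step on the smaller side. -/
lemma stepT {c k D : ℕ} (hck : c + 1 ≤ k) (hT : PT α c k D) (hK : PK α c k D) (a b : ℕ)
    (hab : a + b = D) (hle : a ≤ b) (ha : a + 1 ≤ c) (hb : b + 1 ≤ c) (S : Finset α)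
    (G H : Finset (Finset α)) (hS : S.card = D + 1 + k) (hV : VPair k S G H)
    (hlo : (S.card.choose a : ℝ) ≤ G.card) (hhi : (G.card : ℝ) ≤ S.card.choose (a + 1))
    (hHhi : (H.card : ℝ) ≤ S.card.choose (b + 1)) :
    dd S.card (b + 1) * ((G.card : ℝ) - S.card.choose a) +
      dd S.card (a + 1) * ((H.card : ℝ) - S.card.choose b)
      ≤ dd S.card (a + 1) * dd S.card (b + 1) := by
  have pa : 0 < dd S.card (a + 1) := dd_pos _ _ (by omega)
  have pb : 0 < dd S.card (b + 1) := dd_pos _ _ (by omega)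
  have ea := dd_succ S.card a
  have eb := dd_succ S.card b
  rcases hlo.eq_or_lt with heq | hlt
  · -- ξ = 0: trivial
    rw [← heq]
    nlinarith [mul_le_mul_of_nonneg_left hHhi pa.le]
  set ξ : ℝ := ((G.card : ℝ) - S.card.choose a) / dd S.card (a + 1) with hξ
  have hξd : ξ * dd S.card (a + 1) = (G.card : ℝ) - S.card.choose a := by
    rw [hξ, div_mul_cancel₀ _ pa.ne']
  have h0 : 0 < ξ := div_pos (by linarith) pa
  have h1 : ξ ≤ 1 := by rw [hξ, div_le_iff₀ pa]; linarith
  have hSm : S.card = (D + k) + 1 := by omega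
  obtain ⟨x, hxS, hx1, hx0⟩ := coord (D + k) S hSm G hV.antiG hV.subG a (by omega) ξ (by
    rw [← hSm]; linarith)
  have hSe : (S.erase x).card = D + k := by rw [card_erase_of_mem hxS]; omega
  have hsumG := card_memberSubfamily_add_card_nonMemberSubfamily x G
  have hsumH := card_memberSubfamily_add_card_nonMemberSubfamily x H
  set m := D + k with hm
  have q1 : dd S.card (a + 1) = dd m (a + 1) + dd m a := by rw [hSm]; exact dd_pascal m a
  have q2 : dd S.card (b + 1) = dd m (b + 1) + dd m b := by rw [hSm]; exact dd_pascal m b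
  have q3 : (S.card.choose a : ℝ) = 2 * (m.choose a : ℝ) - dd m a := by
    rw [hSm]; unfold dd; ring
  have q4 : (S.card.choose b : ℝ) = 2 * (m.choose b : ℝ) - dd m b := by
    rw [hSm]; unfold dd; ring
  have hGs : ((G.memberSubfamily x).card : ℝ) + (G.nonMemberSubfamily x).card = G.card := by
    exact_mod_cast hsumG
  have hHs : ((H.memberSubfamily x).card : ℝ) + (H.nonMemberSubfamily x).card = H.card := by
    exact_mod_cast hsumH
  have hGval : (G.card : ℝ) = 2 * (m.choose a : ℝ) - dd m a + ξ * (dd m (a + 1) + dd m a) := by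
    rw [← q3, ← q1]; linarith
  have hz : ∀ y : ℕ, (m.choose a : ℝ) - (1 - ξ) * dd m a ≤ y → a = 0 → 1 ≤ y := by
    intro y hy h
    subst h
    rw [dd_zero] at hy
    simp only [Nat.choose_zero_right] at hy
    push_cast at hy
    have : (0 : ℝ) < y := by linarith
    exact_mod_cast this
  have b1 := pairBound hck hT hK a b hab hle ha hb (S.erase x) _ _ hSe (hV.member x) ξ h0 h1
    (by rw [hSe]; exact hx1) (by rw [hSe]; linarith) (hz _ hx1)
  have b0 := pairBound hck hT hK a b hab hle ha hb (S.erase x) _ _ hSe (hV.nonMember x) ξ h0 h1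
    (by rw [hSe]; exact hx0) (by rw [hSe]; linarith) (hz _ hx0)
  rw [hSe] at b1 b0
  have pam : 0 < dd m (a + 1) := dd_pos _ _ (by omega)
  have pa0 : 0 ≤ dd m a := by
    rcases Nat.eq_zero_or_pos a with h | h
    · subst h; rw [dd_zero]; norm_num
    · obtain ⟨a', rfl⟩ : ∃ a', a = a' + 1 := ⟨a - 1, by omega⟩
      exact (dd_pos _ _ (by omega)).le
  have hpq : 0 < (1 - ξ) * dd m a + ξ * dd m (a + 1) := by
    have : 0 ≤ (1 - ξ) * dd m a := mul_nonneg (by linarith) pa0
    have : 0 < ξ * dd m (a + 1) := mul_pos h0 pam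
    linarith
  have hsum : ((1 - ξ) * dd m a + ξ * dd m (a + 1)) * ((H.card : ℝ) - 2 * m.choose b) ≤
      ((1 - ξ) * dd m a + ξ * dd m (a + 1)) * ((1 - ξ) * dd m (b + 1) - ξ * dd m b) := by
    rw [← hHs]
    have hg : ((G.memberSubfamily x).card : ℝ) = 2 * (m.choose a : ℝ) - dd m a +
        ξ * (dd m (a + 1) + dd m a) - (G.nonMemberSubfamily x).card := by
      rw [← hGval]; linarith
    rw [hg] at b1
    nlinarith [b1, b0]
  have hfin := le_of_mul_le_mul_left hsum hpq
  have hH2 : (H.card : ℝ) - S.card.choose b ≤ (1 - ξ) * dd S.card (b + 1) := by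
    rw [q4, q2]; linarith
  rw [← hξd]
  nlinarith [mul_le_mul_of_nonneg_left hH2 pa.le]

/-- corner step on the smaller side -/
lemma stepK {c k D : ℕ} (hck : c + 1 ≤ k) (hT : PT α c k D) (hK : PK α c k D) (a b : ℕ)
    (hab : a + b = D + 1) (hle : a ≤ b) (ha : a ≤ c) (hb : b ≤ c) (S : Finset α)
    (G H : Finset (Finset α)) (hS : S.card = D + 1 + k) (hV : VPair k S G H)
    (hG : S.card.choose a ≤ G.card) : H.card ≤ S.card.choose b := by
  rcases Nat.eq_zero_or_pos a with h | h
  · subst h
    have hb' : b = D + 1 := by omega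
    rw [hb']
    apply hV.ball_le _ (D + 1) hS (by omega)
    rw [← card_pos]
    simp only [Nat.choose_zero_right] at hG
    omega
  obtain ⟨a', rfl⟩ : ∃ a', a = a' + 1 := ⟨a - 1, by omega⟩
  obtain ⟨b', rfl⟩ : ∃ b', b = b' + 1 := ⟨b - 1, by omega⟩
  obtain ⟨G', hG', hG'c⟩ := Finset.exists_subset_card_eq hG
  have hV' := hV.mono hG' (Finset.Subset.refl H)
  have hSm : S.card = (D + k) + 1 := by omega
  set m := D + k with hm
  have ea := dd_succ S.card a'
  obtain ⟨x, hxS, hx1, hx0⟩ := coord m S hSm G' hV'.antiG hV'.subG a' (by omega) 1 (by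
    rw [hG'c, ← hSm, ea]; ring)
  have hSe : (S.erase x).card = m := by rw [card_erase_of_mem hxS]; omega
  have hsumG := card_memberSubfamily_add_card_nonMemberSubfamily x G'
  have hsumH := card_memberSubfamily_add_card_nonMemberSubfamily x H
  have hGs : ((G'.memberSubfamily x).card : ℝ) + (G'.nonMemberSubfamily x).card = G'.card := by
    exact_mod_cast hsumG
  have hHs : ((H.memberSubfamily x).card : ℝ) + (H.nonMemberSubfamily x).card = H.card := by
    exact_mod_cast hsumH
  have pa : 0 < dd m (a' + 1) := dd_pos _ _ (by omega)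
  have ea' := dd_succ m a'
  have eb' := dd_succ m b'
  have hGval : (G'.card : ℝ) = 2 * m.choose a' + dd m (a' + 1) := by
    rw [hG'c, hSm, Nat.choose_succ_succ, ea']; push_cast; ring
  have key : ∀ (G1 H1 : Finset (Finset α)), VPair k (S.erase x) G1 H1 →
      (m.choose a' : ℝ) ≤ G1.card → (G1.card : ℝ) ≤ m.choose a' + dd m (a' + 1) →
      dd m (a' + 1) * (H1.card : ℝ) ≤ dd m (a' + 1) * m.choose (b' + 1)
        - ((G1.card : ℝ) - m.choose a') * dd m (b' + 1) := by
    intro G1 H1 hV1 hlo hhi
    rcases hlo.eq_or_lt with heq | hlt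
    · have : m.choose a' ≤ G1.card := by exact_mod_cast hlo
      have h2 := hK a' (b' + 1) (by omega) (by omega) hb (S.erase x) G1 H1 (by omega) hV1
        (by rw [hSe]; exact this)
      rw [hSe] at h2
      have h3 : (H1.card : ℝ) ≤ m.choose (b' + 1) := by exact_mod_cast h2
      rw [← heq]
      nlinarith
    · set θ : ℝ := ((G1.card : ℝ) - m.choose a') / dd m (a' + 1) with hθ
      have hθd : θ * dd m (a' + 1) = (G1.card : ℝ) - m.choose a' := by
        rw [hθ, div_mul_cancel₀ _ pa.ne']
      have hθ0 : 0 < θ := div_pos (by linarith) pa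
      have hθ1 : θ ≤ 1 := by rw [hθ, div_le_iff₀ pa]; linarith
      have hM := M1 hck hT a' b' (by omega) (by omega) (by omega) (S.erase x) G1 H1 (by omega)
        hV1 θ hθ0 hθ1 (by rw [hSe]; linarith)
      rw [hSe] at hM
      rw [← hθd]
      nlinarith [mul_le_mul_of_nonneg_left hM pa.le]
  simp only [sub_self, zero_mul, sub_zero] at hx1 hx0
  have k1 := key _ _ (hV'.member x) hx1 (by linarith)
  have k0 := key _ _ (hV'.nonMember x) hx0 (by linarith)
  have hfin : dd m (a' + 1) * (H.card : ℝ) ≤ dd m (a' + 1) * (S.card.choose (b' + 1) : ℝ) := by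
    have e : (S.card.choose (b' + 1) : ℝ) = 2 * m.choose (b' + 1) - dd m (b' + 1) := by
      rw [hSm, Nat.choose_succ_succ, eb']; push_cast; ring
    rw [e, ← hHs]
    have hg : ((G'.memberSubfamily x).card : ℝ) = 2 * m.choose a' + dd m (a' + 1)
      - (G'.nonMemberSubfamily x).card := by rw [← hGval]; linarith
    rw [hg] at k1
    nlinarith [k1, k0]
  exact_mod_cast le_of_mul_le_mul_left hfin pa

theorem all_D {c k : ℕ} (hck : c + 1 ≤ k) (D : ℕ) : PT α c k D ∧ PK α c k D := by
  induction D with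
  | zero =>
    refine ⟨fun a b hab => by omega, fun a b hab ha hb S G H hS hV hG => ?_⟩
    have ha0 : a = 0 := by omega
    have hb0 : b = 0 := by omega
    subst ha0; subst hb0
    apply hV.ball_le _ 0 hS (by omega)
    rw [← card_pos]
    simp only [Nat.choose_zero_right] at hG
    omega
  | succ D ih =>
    obtain ⟨hT, hK⟩ := ih
    have hT' : PT α c k (D + 1) := by
      intro a b hab ha hb S G H hS hV h1 h2 h3 h4
      rcases le_total a b with hle | hle
      · exact stepT hck hT hK a b (by omega) hle ha hb S G H hS hV h1 h2 h4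
      · have := stepT hck hT hK b a (by omega) hle hb ha S H G hS hV.symm h3 h4 h2
        linarith
    refine ⟨hT', ?_⟩
    intro a b hab ha hb S G H hS hV hG
    rcases le_or_gt a b with hle | hlt
    · exact stepK hck hT hK a b hab hle ha hb S G H hS hV hG
    · obtain ⟨a', rfl⟩ : ∃ a', a = a' + 1 := ⟨a - 1, by omega⟩
      have ea := dd_succ S.card a'
      have eb := dd_succ S.card b
      have hGR : (S.card.choose (a' + 1) : ℝ) ≤ G.card := by exact_mod_cast hG
      have := M1 hck hT' a' b (by omega) ha (by omega) S G H hS hV 1 one_pos le_rfl (by linarith)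
      rw [one_mul, eb] at this
      have h2 : (H.card : ℝ) ≤ S.card.choose b := by linarith
      exact_mod_cast h2

end DiamEven
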