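import Pool.Agent.DiamEven.Full
import Pool.Agent.DiamEven.Gfun
import Pool.Agent.DiamEven.Main

/-! Mean distance from a random set to an antichain. -/

namespace DiamEven

open Finset

variable {α : Type*} [DecidableEq α]

/-- Existence of a coordinate with spread at most one, full range. -/
theorem coordFull (m : ℕ) (S : Finset α) (hm : S.card = m + 1) (G : Finset (Finset α))
    (hG : IsAntichain (· ⊆ ·) (G : Set (Finset α))) (hS : ∀ B ∈ G, B ⊆ S) (a : ℕ)
    (h2 : 2 * a < m) (t : ℝ)
    (hcard : ((m + 1).choose a : ℝ) + t * dd (m + 1) (a + 1) ≤ G.card) :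
    ∃ x ∈ S, (m.choose a : ℝ) - (1 - t) * dd m a ≤ (G.memberSubfamily x).card ∧
      (m.choose a : ℝ) - (1 - t) * dd m a ≤ (G.nonMemberSubfamily x).card := by
  by_contra hcon
  push Not at hcon
  set P : ℝ := (m.choose a : ℝ) - (1 - t) * dd m a with hP
  set Z : Finset α := S.filter (fun x => (G.nonMemberSubfamily x).card < (G.memberSubfamily x).card)
    with hZdef
  have hZ : Z ⊆ S := filter_subset _ _
  have hsd := sum_dist S Z hZ G hS
  have hlt : ((∑ B ∈ G, ((Z \ B).card + (B \ Z).card) : ℕ) : ℝ) < (m + 1 : ℝ) * P := by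
    rw [hsd]
    have hne : S.Nonempty := by rw [← card_pos]; omega
    have : ((∑ x ∈ S, (if x ∈ Z then (G.nonMemberSubfamily x).card else
        (G.memberSubfamily x).card) : ℕ) : ℝ) < ∑ x ∈ S, P := by
      push_cast
      apply Finset.sum_lt_sum_of_nonempty hne
      intro x hx
      by_cases hz : x ∈ Z
      · rw [if_pos hz]
        have hz' : (G.nonMemberSubfamily x).card < (G.memberSubfamily x).card := by
          rw [hZdef, mem_filter] at hz; exact hz.2
        by_contra hge
        push Not at hge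
        have h1 : P ≤ (G.memberSubfamily x).card := hge.trans (by exact_mod_cast hz'.le)
        exact absurd hge (not_le.2 (hcon x hx h1))
      · rw [if_neg hz]
        have hz' : (G.memberSubfamily x).card ≤ (G.nonMemberSubfamily x).card := by
          rw [hZdef, mem_filter] at hz; push Not at hz; exact hz hx
        by_contra hge
        push Not at hge
        have h1 := hcon x hx hge
        have : (((G.memberSubfamily x).card : ℕ) : ℝ) ≤ ((G.nonMemberSubfamily x).card : ℕ) := by
          exact_mod_cast hz'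
        linarith
    refine this.trans_le (le_of_eq ?_)
    rw [Finset.sum_const, hm, nsmul_eq_mul]
    push_cast
    ring
  have hl := lfull S Z hZ G hG hS (a + 1) (by omega)
  rw [Finset.sum_add_distrib, ← Finset.mul_sum, Finset.sum_sub_distrib, Finset.sum_const,
    nsmul_eq_mul, hm, ← Nat.cast_sum] at hl
  try rw [Finset.sum_const, nsmul_eq_mul] at hl
  set St : ℝ := ((∑ B ∈ G, ((Z \ B).card + (B \ Z).card) : ℕ) : ℝ) with hSt
  have h2R : (2 : ℝ) * a + 1 ≤ m := by exact_mod_cast h2
  have hpos' : (0 : ℝ) < ((m + 1 : ℕ) : ℝ) + 1 - 2 * ((a + 1 : ℕ) : ℝ) := by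
    push_cast
    linarith
  have hmul := mul_lt_mul_of_pos_left hlt hpos'
  -- binomial identities
  have i1 : ((m : ℝ) + 1) * m.choose a = (m + 1).choose (a + 1) * ((a : ℝ) + 1) := by
    have := Nat.add_one_mul_choose_eq m a
    exact_mod_cast this
  have i2 : ((m : ℝ) + 1) * m.choose a = (m + 1).choose a * ((m : ℝ) + 1 - a) := by
    have h1 : (m + 1) * m.choose a = (m + 1).choose a * (m + 1 - a) := by
      rw [mul_comm]; exact Nat.choose_mul_succ_eq m a
    have : (((m + 1) * m.choose a : ℕ) : ℝ) = (((m + 1).choose a * (m + 1 - a) : ℕ) : ℝ) := by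
      rw [h1]
    rw [Nat.cast_mul, Nat.cast_mul, Nat.cast_sub (by omega)] at this
    push_cast at this
    exact this
  have hdd : dd (m + 1) (a + 1) = ((m + 1).choose (a + 1) : ℝ) - (m + 1).choose a := dd_succ _ _
  have hdd2 : dd m a = 2 * (m.choose a : ℝ) - ((m + 1).choose a : ℝ) := rfl
  have key : (((m + 1 : ℕ) : ℝ) + 1 - 2 * ((a + 1 : ℕ) : ℝ)) * (((m : ℝ) + 1) * P) =
      (((m + 1).choose a : ℝ) + t * dd (m + 1) (a + 1)) *
        ((((m + 1 : ℕ) : ℝ) + 1 - 2 * ((a + 1 : ℕ) : ℝ)) * ((a + 1 : ℕ) : ℝ) + ((a + 1 : ℕ) : ℝ))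
      - ((a + 1 : ℕ) : ℝ) * ((m + 1).choose (a + 1) : ℝ) := by
    rw [hP, hdd, hdd2]
    push_cast
    linear_combination (((m : ℝ) - 2 * a + 1) * t - 1) * i1 - (1 - t) * ((m : ℝ) - 2 * a - 1) * i2
  rw [key] at hmul
  have hcoef : (0 : ℝ) ≤ ((((m + 1 : ℕ) : ℝ) + 1 - 2 * ((a + 1 : ℕ) : ℝ)) * ((a + 1 : ℕ) : ℝ)
      + ((a + 1 : ℕ) : ℝ)) := by
    have : (0 : ℝ) ≤ ((a + 1 : ℕ) : ℝ) := by positivity
    have := mul_nonneg hpos'.le this
    positivity
  have hmono := mul_le_mul_of_nonneg_right hcard hcoef
  nlinarith [hl, hmul, hmono]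

/-- There is a selection `X ↦ sel X ∈ K` of total cost at most `c`. -/
def Sel (S : Finset α) (K : Finset (Finset α)) (c : ℝ) : Prop :=
  ∃ sel : Finset α → Finset α, (∀ X, X ⊆ S → sel X ∈ K) ∧
    ∑ X ∈ S.powerset, ((symmDiff X (sel X)).card : ℝ) ≤ c

lemma Sel.mono {S : Finset α} {K : Finset (Finset α)} {c c' : ℝ} (h : Sel S K c) (hc : c ≤ c') :
    Sel S K c' := by
  obtain ⟨sel, h1, h2⟩ := h
  exact ⟨sel, h1, h2.trans hc⟩

omit [DecidableEq α] in
lemma sum_card_powerset (S : Finset α) :
    ∑ X ∈ S.powerset, (X.card : ℝ) = gg S.card 0 := by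
  rw [Finset.sum_powerset_apply_card (fun j => (j : ℝ))]
  unfold gg
  apply Finset.sum_congr rfl
  intro j _
  rw [nsmul_eq_mul, sub_zero, abs_of_nonneg (by positivity)]

lemma Sel.const {S : Finset α} {K : Finset (Finset α)} (hS : ∀ B ∈ K, B ⊆ S)
    (hK : K.Nonempty) : Sel S K (gg S.card 0) := by
  obtain ⟨B, hB⟩ := hK
  refine ⟨fun _ => B, fun _ _ => hB, le_of_eq ?_⟩
  rw [← sum_card_powerset]
  apply Finset.sum_nbij' (fun X => symmDiff X B) (fun X => symmDiff X B)
  · intro X hX
    rw [mem_powerset] at hX ⊢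
    intro z hz
    rw [mem_symmDiff] at hz
    rcases hz with h | h
    · exact hX h.1
    · exact hS B hB h.1
  · intro X hX
    rw [mem_powerset] at hX ⊢
    intro z hz
    rw [mem_symmDiff] at hz
    rcases hz with h | h
    · exact hX h.1
    · exact hS B hB h.1
  · intro X _; exact symmDiff_symmDiff_cancel_right B X
  · intro X _; exact symmDiff_symmDiff_cancel_right B X
  · intro X _; rfl

lemma card_symmDiff_insert {x : α} {X Y : Finset α} (hX : x ∉ X) (hY : x ∉ Y) :
    (symmDiff (insert x X) (insert x Y)).card = (symmDiff X Y).card := by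
  congr 1
  ext z
  simp only [mem_symmDiff, mem_insert]
  by_cases hz : z = x
  · subst hz; simp [hX, hY]
  · simp [hz]

lemma Sel.step {S : Finset α} {K : Finset (Finset α)} {x : α} (hx : x ∈ S) {c1 c0 : ℝ}
    (h1 : Sel (S.erase x) (K.memberSubfamily x) c1)
    (h0 : Sel (S.erase x) (K.nonMemberSubfamily x) c0) : Sel S K (c1 + c0) := by
  obtain ⟨s1, m1, l1⟩ := h1
  obtain ⟨s0, m0, l0⟩ := h0
  refine ⟨fun X => if x ∈ X then insert x (s1 (X.erase x)) else s0 X, ?_, ?_⟩
  · intro X hX
    by_cases hxX : x ∈ X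
    · simp only [hxX, if_true]
      have := m1 (X.erase x) (erase_subset_erase _ hX)
      rw [mem_memberSubfamily] at this
      exact this.1
    · simp only [hxX, if_false]
      have := m0 X (fun z hz => mem_erase.2 ⟨fun h => hxX (h ▸ hz), hX hz⟩)
      rw [mem_nonMemberSubfamily] at this
      exact this.1
  · conv_lhs => rw [← insert_erase hx]
    rw [Finset.sum_powerset_insert (notMem_erase x S), add_comm c1 c0]
    apply add_le_add
    · refine le_trans (le_of_eq ?_) l0
      apply Finset.sum_congr rfl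
      intro X hX
      rw [mem_powerset] at hX
      have hxX : x ∉ X := fun h => (mem_erase.1 (hX h)).1 rfl
      simp only [hxX, if_false]
    · refine le_trans (le_of_eq ?_) l1
      apply Finset.sum_congr rfl
      intro X hX
      rw [mem_powerset] at hX
      have hxX : x ∉ X := fun h => (mem_erase.1 (hX h)).1 rfl
      have h3 := m1 X hX
      rw [mem_memberSubfamily] at h3
      simp only [mem_insert_self, if_true]
      rw [erase_insert hxX, card_symmDiff_insert hxX h3.2]

/-- the statement for ground sets of size `m` -/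
def SelStat (α : Type*) [DecidableEq α] (m : ℕ) : Prop :=
  ∀ (S : Finset α), S.card = m → ∀ K : Finset (Finset α),
    IsAntichain (· ⊆ ·) (K : Set (Finset α)) → (∀ B ∈ K, B ⊆ S) →
    ∀ (a : ℕ) (t : ℝ), 0 ≤ t → t ≤ 1 → 2 * a + 1 ≤ m →
    (m.choose a : ℝ) + t * dd m (a + 1) ≤ K.card → Sel S K (gg m ((a : ℝ) + t))

/-- bound for one half -/
lemma half {m : ℕ} (ih : SelStat α m) (S : Finset α) (hm : S.card = m) (K : Finset (Finset α))
    (hK : IsAntichain (· ⊆ ·) (K : Set (Finset α))) (hS : ∀ B ∈ K, B ⊆ S) (a : ℕ) (t : ℝ)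
    (h0 : 0 ≤ t) (h1 : t ≤ 1) (h2 : 2 * a < m) (hne : 1 ≤ a ∨ 0 < t)
    (hP : (m.choose a : ℝ) - (1 - t) * dd m a ≤ K.card) :
    ∃ θ : ℝ, 0 ≤ θ ∧ θ ≤ 1 ∧
      Sel S K ((1 - θ) * gg m ((a : ℝ) + t - 1) + θ * gg m ((a : ℝ) + t)) ∧
      (θ = 1 ∨ (0 < (1 - t) * dd m a + t * dd m (a + 1) ∧
        (K.card : ℝ) = (m.choose a : ℝ) - (1 - t) * dd m a +
          θ * ((1 - t) * dd m a + t * dd m (a + 1)))) := by
  have hV : 0 ≤ dd m a := dd_nonneg m a (by omega)
  have hW : 0 ≤ dd m (a + 1) := dd_nonneg m (a + 1) (by omega)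
  have hk := kink m a (by omega)
  have g1 : gg m ((a : ℝ) + t) = gg m a - t * uu m (a + 1) := by
    rw [gg_lin m a t h0 h1]
    unfold uu
    push_cast
    ring_nf
  have g0 : gg m ((a : ℝ) + t - 1) = gg m a + (1 - t) * uu m a := by
    have := gg_lin_int m ((a : ℤ) - 1) t h0 h1
    push_cast at this
    rw [show (a : ℝ) + t - 1 = (a : ℝ) - 1 + t by ring, this]
    unfold uu
    rw [show (a : ℝ) - 1 + 1 = a by ring]
    ring
  rcases le_or_gt ((m.choose a : ℝ) + t * dd m (a + 1)) K.card with hQ | hQ
  · refine ⟨1, by norm_num, le_rfl, ?_, Or.inl rfl⟩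
    have := ih S hm K hK hS a t h0 h1 (by omega) hQ
    simpa using this
  · have hD : 0 < (1 - t) * dd m a + t * dd m (a + 1) := by linarith
    set D := (1 - t) * dd m a + t * dd m (a + 1) with hDdef
    set y : ℝ := (K.card : ℝ) with hy
    refine ⟨(y - ((m.choose a : ℝ) - (1 - t) * dd m a)) / D, div_nonneg (by linarith) hD.le, ?_, ?_,
      Or.inr ⟨hD, by field_simp; ring⟩⟩
    · rw [div_le_one hD, hDdef]; linarith
    · rcases le_or_gt (m.choose a : ℝ) y with hC | hC
      · -- upper part
        have hWp : 0 < dd m (a + 1) := by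
          by_contra hcon
          have : dd m (a + 1) = 0 := le_antisymm (not_lt.1 hcon) hW
          rw [this, mul_zero, add_zero] at hQ
          linarith
        set τ := (y - m.choose a) / dd m (a + 1) with hτ
        have hτ0 : 0 ≤ τ := div_nonneg (by linarith) hW
        have hyτ : y = m.choose a + τ * dd m (a + 1) := by rw [hτ]; field_simp; ring
        have hτt : τ ≤ t := by
          rw [hτ, div_le_iff₀ hWp]; linarith
        have hs := ih S hm K hK hS a τ hτ0 (hτt.trans h1) (by omega) (le_of_eq hyτ.symm)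
        apply hs.mono
        have g2 : gg m ((a : ℝ) + τ) = gg m a - τ * uu m (a + 1) := by
          rw [gg_lin m a τ hτ0 (hτt.trans h1)]
          unfold uu
          push_cast
          ring_nf
        rw [g2, g1, g0]
        have hth : (y - ((m.choose a : ℝ) - (1 - t) * dd m a)) / D =
            ((1 - t) * dd m a + τ * dd m (a + 1)) / D := by
          congr 1; rw [hyτ]; ring
        rw [hth]
        set θ := ((1 - t) * dd m a + τ * dd m (a + 1)) / D with hθ
        have hθD : θ * D = (1 - t) * dd m a + τ * dd m (a + 1) := by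
          rw [hθ]; field_simp
        have hmain : 0 ≤ D * (((1 - θ) * (gg m a + (1 - t) * uu m a) +
            θ * (gg m a - t * uu m (a + 1))) - (gg m a - τ * uu m (a + 1))) := by
          have e : D * (((1 - θ) * (gg m a + (1 - t) * uu m a) +
            θ * (gg m a - t * uu m (a + 1))) - (gg m a - τ * uu m (a + 1))) =
            (t - τ) * (1 - t) * (dd m (a + 1) * uu m a - dd m a * uu m (a + 1)) := by
            have : D * (((1 - θ) * (gg m a + (1 - t) * uu m a) +
              θ * (gg m a - t * uu m (a + 1))) - (gg m a - τ * uu m (a + 1))) =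
              (D - θ * D) * ((1 - t) * uu m a) - (θ * D) * (t * uu m (a + 1))
                + D * (τ * uu m (a + 1)) := by ring
            rw [this, hθD, hDdef]
            ring
          rw [e]
          apply mul_nonneg (mul_nonneg (by linarith) (by linarith)) (by linarith)
        have := nonneg_of_mul_nonneg_right hmain hD
        linarith
      · -- lower part
        rcases Nat.eq_zero_or_pos a with ha | ha
        · exfalso
          subst ha
          have ht : 0 < t := by rcases hne with h | h; · omega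
                                · exact h
          rw [dd_zero, Nat.choose_zero_right] at hP
          rw [Nat.choose_zero_right] at hC
          have h3 : (0 : ℝ) < y := by push_cast at hP; linarith
          rw [hy] at h3 hC
          have h4 : 0 < K.card := by exact_mod_cast h3
          have h5 : K.card < 1 := by exact_mod_cast hC
          omega
        · obtain ⟨b, rfl⟩ : ∃ b, a = b + 1 := ⟨a - 1, by omega⟩
          have hVp : 0 < dd m (b + 1) := dd_pos m b (by omega)
          set σ := (m.choose (b + 1) - y) / dd m (b + 1) with hσ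
          have hσ0 : 0 ≤ σ := div_nonneg (by linarith) hV
          have hyσ : y = m.choose (b + 1) - σ * dd m (b + 1) := by rw [hσ]; field_simp; ring
          have hσt : σ ≤ 1 - t := by
            rw [hσ, div_le_iff₀ hVp]; linarith
          have hs := ih S hm K hK hS b (1 - σ) (by linarith) (by linarith) (by omega) (by
            rw [← hy, hyσ, dd_succ]; linarith)
          apply hs.mono
          have g2 : gg m ((b : ℝ) + (1 - σ)) = gg m ((b + 1 : ℕ) : ℝ) + σ * uu m (b + 1) := by
            rw [gg_lin m b (1 - σ) (by linarith) (by linarith)]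
            unfold uu
            push_cast
            ring_nf
          rw [g2, g1, g0]
          have hth : (y - ((m.choose (b + 1) : ℝ) - (1 - t) * dd m (b + 1))) / D =
              ((1 - t - σ) * dd m (b + 1)) / D := by
            congr 1; rw [hyσ]; ring
          rw [hth]
          set θ := ((1 - t - σ) * dd m (b + 1)) / D with hθ
          have hθD : θ * D = (1 - t - σ) * dd m (b + 1) := by
            rw [hθ]; field_simp
          have hmain : 0 ≤ D * (((1 - θ) * (gg m ((b + 1 : ℕ) : ℝ) + (1 - t) * uu m (b + 1)) +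
              θ * (gg m ((b + 1 : ℕ) : ℝ) - t * uu m (b + 1 + 1))) -
              (gg m ((b + 1 : ℕ) : ℝ) + σ * uu m (b + 1))) := by
            have e : D * (((1 - θ) * (gg m ((b + 1 : ℕ) : ℝ) + (1 - t) * uu m (b + 1)) +
              θ * (gg m ((b + 1 : ℕ) : ℝ) - t * uu m (b + 1 + 1))) -
              (gg m ((b + 1 : ℕ) : ℝ) + σ * uu m (b + 1))) =
              (1 - t - σ) * t * (dd m (b + 1 + 1) * uu m (b + 1) - dd m (b + 1) * uu m (b + 1 + 1)) := by
              have : D * (((1 - θ) * (gg m ((b + 1 : ℕ) : ℝ) + (1 - t) * uu m (b + 1)) +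
                θ * (gg m ((b + 1 : ℕ) : ℝ) - t * uu m (b + 1 + 1))) -
                (gg m ((b + 1 : ℕ) : ℝ) + σ * uu m (b + 1))) =
                (D - θ * D) * ((1 - t) * uu m (b + 1)) - (θ * D) * (t * uu m (b + 1 + 1))
                  - D * (σ * uu m (b + 1)) := by ring
              rw [this, hθD, hDdef]
              ring
            rw [e]
            apply mul_nonneg (mul_nonneg (by linarith) h0) (by linarith)
          have := nonneg_of_mul_nonneg_right hmain hD
          linarith

/-- the non-degenerate step -/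
lemma sel_step_main {m : ℕ} (ih : SelStat α m) (S : Finset α) (hm : S.card = m + 1)
    (K : Finset (Finset α)) (hK : IsAntichain (· ⊆ ·) (K : Set (Finset α)))
    (hS : ∀ B ∈ K, B ⊆ S) (hKne : K.Nonempty) (a : ℕ) (t : ℝ)
    (h0 : 0 ≤ t) (h1 : t ≤ 1) (h2 : 2 * a < m)
    (hcard : ((m + 1).choose a : ℝ) + t * dd (m + 1) (a + 1) ≤ K.card) :
    Sel S K (gg (m + 1) ((a : ℝ) + t)) := by
  by_cases h00 : a = 0 ∧ t = 0
  · obtain ⟨rfl, rfl⟩ := h00
    have := Sel.const hS hKne
    rw [hm] at this
    simpa using this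
  have hne : 1 ≤ a ∨ 0 < t := by
    by_contra hcon
    push Not at hcon
    exact h00 ⟨by omega, le_antisymm hcon.2 h0⟩
  obtain ⟨x, hx, hx1, hx0⟩ := coordFull m S hm K hK hS a h2 t hcard
  have hcx : (S.erase x).card = m := by rw [card_erase_of_mem hx, hm]; rfl
  have sub1 : ∀ B ∈ K.memberSubfamily x, B ⊆ S.erase x := by
    intro A hA
    rw [mem_memberSubfamily] at hA
    intro y hy
    rw [mem_erase]
    exact ⟨fun hyx => hA.2 (hyx ▸ hy), hS _ hA.1 (mem_insert_of_mem hy)⟩
  have sub0 : ∀ B ∈ K.nonMemberSubfamily x, B ⊆ S.erase x := by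
    intro A hA
    rw [mem_nonMemberSubfamily] at hA
    intro y hy
    rw [mem_erase]
    exact ⟨fun hyx => hA.2 (hyx ▸ hy), hS _ hA.1 hy⟩
  obtain ⟨θ1, p1, q1, s1, r1⟩ := half ih (S.erase x) hcx _ (VPair.anti_member x hK) sub1 a t h0 h1
    h2 hne hx1
  obtain ⟨θ0, p0, q0, s0, r0⟩ := half ih (S.erase x) hcx _ (VPair.anti_nonMember x hK) sub0 a t
    h0 h1 h2 hne hx0
  have hs := Sel.step hx s1 s0
  apply hs.mono
  rw [gg_pascal]
  have hmon : gg m ((a : ℝ) + t) ≤ gg m ((a : ℝ) + t - 1) := by
    have g1 : gg m ((a : ℝ) + t) = gg m a - t * uu m (a + 1) := by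
      rw [gg_lin m a t h0 h1]
      unfold uu
      push_cast
      ring_nf
    have g0 : gg m ((a : ℝ) + t - 1) = gg m a + (1 - t) * uu m a := by
      have := gg_lin_int m ((a : ℤ) - 1) t h0 h1
      push_cast at this
      rw [show (a : ℝ) + t - 1 = (a : ℝ) - 1 + t by ring, this]
      unfold uu
      rw [show (a : ℝ) - 1 + 1 = a by ring]
      ring
    rw [g1, g0]
    have e1 := mul_nonneg h0 (uu_nonneg m (a + 1) (by omega))
    have e0 := mul_nonneg (sub_nonneg.2 h1) (uu_nonneg m a (by omega))
    linarith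
  have hθ : 1 ≤ θ1 + θ0 := by
    rcases r1 with r1 | ⟨hD, r1⟩
    · linarith
    rcases r0 with r0 | ⟨_, r0⟩
    · linarith
    have hsum := card_memberSubfamily_add_card_nonMemberSubfamily x K
    have hsumR : ((K.memberSubfamily x).card : ℝ) + ((K.nonMemberSubfamily x).card : ℝ) = K.card := by
      exact_mod_cast hsum
    rw [r1, r0] at hsumR
    rw [← hsumR] at hcard
    have e1 : ((m + 1).choose a : ℝ) = 2 * (m.choose a : ℝ) - dd m a := by unfold dd; ring
    rw [e1, dd_pascal] at hcard
    have e2 : 0 ≤ (θ1 + θ0 - 1) * ((1 - t) * dd m a + t * dd m (a + 1)) := by nlinarith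
    have := nonneg_of_mul_nonneg_left e2 hD
    linarith
  nlinarith

theorem selStat : ∀ m : ℕ, SelStat α m := by
  intro m
  induction m with
  | zero => intro S hm K hK hS a t h0 h1 h2; omega
  | succ m ih =>
    intro S hm K hK hS a t h0 h1 h2 hcard
    have hW : 0 ≤ dd (m + 1) (a + 1) := dd_nonneg _ _ (by omega)
    have hcpos : (0 : ℝ) < (m + 1).choose a := by exact_mod_cast Nat.choose_pos (by omega)
    have hKne : K.Nonempty := by
      rw [← card_pos]
      have := mul_nonneg h0 hW
      have : (0 : ℝ) < K.card := by linarith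
      exact_mod_cast this
    rcases Nat.lt_or_ge (2 * a) m with h3 | h3
    · exact sel_step_main ih S hm K hK hS hKne a t h0 h1 h3 hcard
    · obtain rfl : m = 2 * a := by omega
      have hflat : gg (2 * a + 1) ((a : ℝ) + t) = gg (2 * a + 1) a := by
        rw [gg_lin _ a t h0 h1]
        have := uu_mid a
        unfold uu at this
        push_cast at this
        rw [show (a : ℝ) + 1 - 1 = a by ring] at this
        have h4 : gg (2 * a + 1) ((a : ℝ) + 1) = gg (2 * a + 1) a := by linarith
        rw [h4]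
        ring
      rw [hflat]
      rw [dd_mid, mul_zero, add_zero] at hcard
      rcases Nat.eq_zero_or_pos a with ha | ha
      · subst ha
        have := Sel.const hS hKne
        rw [hm] at this
        simpa using this
      · obtain ⟨b, rfl⟩ : ∃ b, a = b + 1 := ⟨a - 1, by omega⟩
        have := sel_step_main ih S hm K hK hS hKne b 1 (by norm_num) le_rfl (by omega) (by
          rw [dd_succ]; linarith)
        push_cast at this ⊢
        exact this

end DiamEven
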