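import Pool.Agent.DiamEven.Iid

/-! Neighbourhoods of antichains: `|N_t(K)|` is at least the linear interpolation of its values
at the levels. -/

namespace DiamEven

open Finset

/-- `|N_t(level a)|` -/
noncomputable def WW (t m a : ℕ) : ℝ :=
  ∑ j ∈ range (m + 1), (m.choose j : ℝ) * (if a ≤ j + t ∧ j ≤ a + t then 1 else 0)

/-- `|N_t(level a)| - |N_t(level (a-1))|` -/
noncomputable def vv (t m a : ℕ) : ℝ :=
  (m.choose (a + t) : ℝ) - (if t + 1 ≤ a then (m.choose (a - 1 - t) : ℝ) else 0)

lemma vv_zero (t m : ℕ) : vv t m 0 = m.choose t := by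
  unfold vv
  simp

lemma vv_pascal (t m a : ℕ) : vv t (m + 1) (a + 1) = vv t m (a + 1) + vv t m a := by
  unfold vv
  have e1 : a + 1 + t = (a + t) + 1 := by ring
  rw [e1, Nat.choose_succ_succ]
  rcases Nat.lt_trichotomy a t with h | h | h
  · rw [if_neg (by omega), if_neg (by omega), if_neg (by omega)]
    push_cast
    ring
  · subst h
    rw [if_pos (by omega), if_pos (by omega), if_neg (by omega)]
    have e2 : a + 1 - 1 - a = 0 := by omega
    rw [e2, Nat.choose_zero_right, Nat.choose_zero_right]
    push_cast
    ring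
  · rw [if_pos (by omega), if_pos (by omega), if_pos (by omega)]
    obtain ⟨b, hb⟩ : ∃ b, a - t = b + 1 := ⟨a - t - 1, by omega⟩
    have e2 : a + 1 - 1 - t = b + 1 := by omega
    have e3 : a - 1 - t = b := by omega
    rw [e2, e3, Nat.choose_succ_succ]
    push_cast
    ring

lemma sum_choose_ite_eq (m c : ℕ) :
    ∑ j ∈ range (m + 1), (m.choose j : ℝ) * (if j = c then 1 else 0) = m.choose c := by
  rcases Nat.lt_or_ge c (m + 1) with h | h
  · rw [Finset.sum_eq_single c]
    · simp
    · intro j _ hj
      rw [if_neg hj, mul_zero]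
    · intro hc
      exact absurd (mem_range.2 h) hc
  · rw [Nat.choose_eq_zero_of_lt (by omega), Nat.cast_zero]
    apply Finset.sum_eq_zero
    intro j hj
    rw [mem_range] at hj
    rw [if_neg (by omega), mul_zero]

lemma WW_succ (t m a : ℕ) : WW t m (a + 1) = WW t m a + vv t m (a + 1) := by
  have h : WW t m (a + 1) - WW t m a = vv t m (a + 1) := by
    unfold WW vv
    rw [← Finset.sum_sub_distrib]
    rcases Nat.lt_or_ge a t with h | h
    · rw [if_neg (by omega), sub_zero, ← sum_choose_ite_eq m (a + 1 + t)]
      apply Finset.sum_congr rfl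
      intro j _
      rw [← mul_sub]
      congr 1
      by_cases h1 : j ≤ a + t
      · rw [if_pos (by omega), if_pos (by omega), if_neg (by omega)]; ring
      · by_cases h2 : j = a + 1 + t
        · rw [if_pos (by omega), if_neg (by omega), if_pos h2]; ring
        · rw [if_neg (by omega), if_neg (by omega), if_neg h2]; ring
    · rw [if_pos (by omega), ← sum_choose_ite_eq m (a + 1 + t),
        ← sum_choose_ite_eq m (a + 1 - 1 - t), ← Finset.sum_sub_distrib]
      apply Finset.sum_congr rfl
      intro j _
      rw [← mul_sub, ← mul_sub]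
      congr 1
      by_cases h1 : j ≤ a + t
      · by_cases h2 : a ≤ j + t
        · by_cases h3 : j = a + 1 - 1 - t
          · rw [if_neg (by omega), if_pos (by omega), if_neg (by omega), if_pos h3]
          · rw [if_pos (by omega), if_pos (by omega), if_neg (by omega), if_neg h3]; ring
        · rw [if_neg (by omega), if_neg (by omega), if_neg (by omega), if_neg (by omega)]
      · by_cases h2 : j = a + 1 + t
        · rw [if_pos (by omega), if_neg (by omega), if_pos h2, if_neg (by omega)]
        · rw [if_neg (by omega), if_neg (by omega), if_neg h2, if_neg (by omega)]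
  linarith

lemma WW_double (t m a : ℕ) : WW t (m + 1) a = 2 * WW t m a - vv t m a := by
  rcases a with _ | a
  · have h1 : WW t (m + 1) 0 = WW t m 0 +
        ∑ j ∈ range (m + 1), (m.choose j : ℝ) * (if 0 ≤ j + 1 + t ∧ j + 1 ≤ 0 + t then 1 else 0) := by
      unfold WW
      exact sum_choose_succ m (fun j => if 0 ≤ j + t ∧ j ≤ 0 + t then 1 else 0)
    have h2 : WW t m 0 - ∑ j ∈ range (m + 1), (m.choose j : ℝ) *
        (if 0 ≤ j + 1 + t ∧ j + 1 ≤ 0 + t then 1 else 0) = m.choose t := by
      unfold WW
      rw [← Finset.sum_sub_distrib, ← sum_choose_ite_eq m t]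
      apply Finset.sum_congr rfl
      intro j _
      rw [← mul_sub]
      congr 1
      by_cases h1 : j + 1 ≤ t
      · rw [if_pos (by omega), if_pos (by omega), if_neg (by omega)]; ring
      · by_cases h2 : j = t
        · rw [if_pos (by omega), if_neg (by omega), if_pos h2]; ring
        · rw [if_neg (by omega), if_neg (by omega), if_neg h2]; ring
    rw [vv_zero]
    linarith
  · have h1 : WW t (m + 1) (a + 1) = WW t m (a + 1) + WW t m a := by
      unfold WW
      rw [sum_choose_succ m (fun j => if a + 1 ≤ j + t ∧ j ≤ a + 1 + t then 1 else 0)]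
      congr 1
      apply Finset.sum_congr rfl
      intro j _
      congr 1
      by_cases h : a ≤ j + t ∧ j ≤ a + t
      · rw [if_pos h, if_pos (by omega)]
      · rw [if_neg h, if_neg (by omega)]
    have := WW_succ t m a
    linarith

lemma vv_mid (t i : ℕ) : vv t (2 * i + 1) (i + 1) = 0 := by
  unfold vv
  rcases Nat.lt_or_ge i t with h | h
  · rw [if_neg (by omega), Nat.choose_eq_zero_of_lt (by omega)]; simp
  · rw [if_pos (by omega)]
    have : (2 * i + 1).choose (i + 1 + t) = (2 * i + 1).choose (i + 1 - 1 - t) := by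
      apply Nat.choose_symm_of_eq_add
      omega
    rw [this, sub_self]

lemma vv_nonneg (t m : ℕ) : ∀ j : ℕ, 2 * j ≤ m + 1 → 0 ≤ vv t m j := by
  induction m with
  | zero =>
    intro j hj
    have : j = 0 := by omega
    subst this
    rw [vv_zero]; positivity
  | succ m ih =>
    intro j hj
    rcases j with _ | j
    · rw [vv_zero]; positivity
    rcases Nat.lt_or_ge (m + 1) (2 * (j + 1)) with h' | h'
    · obtain rfl : m = 2 * j := by omega
      rw [vv_mid]
    · rw [vv_pascal]
      exact add_nonneg (ih _ (by omega)) (ih _ (by omega))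

/-- concavity along the binomials -/
lemma vkink (t m : ℕ) : ∀ j : ℕ, 2 * j + 1 ≤ m →
    dd m j * vv t m (j + 1) ≤ dd m (j + 1) * vv t m j := by
  induction m with
  | zero => intro j hj; omega
  | succ m ih =>
    intro j hj
    rcases j with _ | j
    · rw [dd_zero, vv_zero, one_mul]
      have h2 : dd (m + 1) (0 + 1) = m := by
        rw [dd_succ]
        simp only [zero_add, Nat.choose_one_right, Nat.choose_zero_right]
        push_cast
        ring
      rw [h2]
      rcases Nat.eq_zero_or_pos t with ht | ht
      · subst ht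
        unfold vv
        rw [if_pos (by omega)]
        simp only [zero_add, Nat.choose_one_right, add_zero, Nat.sub_self,
          Nat.choose_zero_right]
        push_cast
        linarith
      · unfold vv
        rw [if_neg (by omega), sub_zero]
        have h3 : (m + 1).choose (0 + 1 + t) * (0 + 1 + t) = (m + 1).choose t * (m + 1 - t) := by
          have := Nat.choose_succ_right_eq (m + 1) t
          rw [show 0 + 1 + t = t + 1 by ring]
          exact this
        have h4 : (m + 1).choose (0 + 1 + t) ≤ m * (m + 1).choose t := by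
          by_contra hcon
          push Not at hcon
          have h5 : (m + 1).choose t * (m + 1 - t) ≤ (m + 1).choose t * (m * (0 + 1 + t) + m) := by
            apply Nat.mul_le_mul_left
            have : m + 1 - t ≤ m := by omega
            omega
          have hpos : 0 < 0 + 1 + t := by omega
          rcases Nat.eq_zero_or_pos ((m + 1).choose t) with h0 | h0
          · rw [h0] at h3 hcon
            simp only [zero_mul, mul_zero] at h3 hcon
            rcases Nat.mul_eq_zero.1 h3 with h | h
            · omega
            · omega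
          · have h6 : (m + 1).choose t * (m + 1 - t) ≤ (m + 1).choose t * (m * (0 + 1 + t)) := by
              apply Nat.mul_le_mul_left
              have h7 : m + 1 - t ≤ m := by omega
              have h8 : m ≤ m * (0 + 1 + t) := Nat.le_mul_of_pos_right m hpos
              omega
            have h9 : (m * (m + 1).choose t) * (0 + 1 + t) < (m + 1).choose (0 + 1 + t) * (0 + 1 + t) :=
              Nat.mul_lt_mul_of_pos_right hcon hpos
            rw [h3] at h9
            have h10 : (m * (m + 1).choose t) * (0 + 1 + t) =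
                (m + 1).choose t * (m * (0 + 1 + t)) := by ring
            omega
        exact_mod_cast h4
    · rcases Nat.lt_or_ge m (2 * (j + 1) + 1) with h' | h'
      · obtain rfl : m = 2 * (j + 1) := by omega
        rw [vv_mid, dd_mid]
        simp
      · have k1 := ih j (by omega)
        have k2 := ih (j + 1) (by omega)
        rw [dd_pascal, vv_pascal, dd_pascal, vv_pascal]
        have p1 : 0 < dd m (j + 1) := dd_pos m j (by omega)
        have p0 : 0 ≤ dd m j := dd_nonneg m j (by omega)
        have p2 : 0 ≤ dd m (j + 1 + 1) := dd_nonneg m (j + 1 + 1) (by omega)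
        have k3 : dd m j * vv t m (j + 1 + 1) ≤ dd m (j + 1 + 1) * vv t m j := by
          have e1 := mul_le_mul_of_nonneg_left k1 p2
          have e2 := mul_le_mul_of_nonneg_left k2 p0
          have e3 : dd m (j + 1) * (dd m j * vv t m (j + 1 + 1)) ≤
              dd m (j + 1) * (dd m (j + 1 + 1) * vv t m j) := by nlinarith
          exact le_of_mul_le_mul_left e3 p1
        nlinarith

variable {α : Type*} [DecidableEq α]

open Classical in
/-- number of subsets of `S` at distance at most `t` from `K` -/
noncomputable def cov (t : ℕ) (S : Finset α) (K : Finset (Finset α)) : ℝ :=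
  ∑ X ∈ S.powerset, (if ∃ B ∈ K, (symmDiff X B).card ≤ t then 1 else 0)

lemma cov_const (t : ℕ) {S : Finset α} {K : Finset (Finset α)} (hS : ∀ B ∈ K, B ⊆ S)
    (hK : K.Nonempty) : WW t S.card 0 ≤ cov t S K := by
  classical
  obtain ⟨B, hB⟩ := hK
  have h1 : ∑ X ∈ S.powerset, (if (symmDiff X B).card ≤ t then (1 : ℝ) else 0) ≤ cov t S K := by
    unfold cov
    apply Finset.sum_le_sum
    intro X _
    split_ifs with h2 h3 h3
    · exact le_rfl
    · exact absurd ⟨B, hB, h2⟩ h3
    · norm_num
    · exact le_rfl
  refine le_trans (le_of_eq ?_) h1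
  have h2 : ∑ X ∈ S.powerset, (if (symmDiff X B).card ≤ t then (1 : ℝ) else 0) =
      ∑ X ∈ S.powerset, (if X.card ≤ t then (1 : ℝ) else 0) := by
    apply Finset.sum_nbij' (fun X => symmDiff X B) (fun X => symmDiff X B)
    · intro X hX
      rw [mem_powerset] at hX ⊢
      intro z hz
      rw [mem_symmDiff] at hz
      rcases hz with h | h
      · exact hX h.1
      · exact hS B hB h.1
    · intro X hX
      rw [mem_powerset] at hX ⊢
      intro z hz
      rw [mem_symmDiff] at hz
      rcases hz with h | h
      · exact hX h.1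
      · exact hS B hB h.1
    · intro X _; exact symmDiff_symmDiff_cancel_right B X
    · intro X _; exact symmDiff_symmDiff_cancel_right B X
    · intro X _; rfl
  rw [h2, Finset.sum_powerset_apply_card (fun j => if j ≤ t then (1 : ℝ) else 0)]
  unfold WW
  apply Finset.sum_congr rfl
  intro j _
  rw [nsmul_eq_mul]
  congr 1
  by_cases h : j ≤ t
  · rw [if_pos h, if_pos (by omega)]
  · rw [if_neg h, if_neg (by omega)]

lemma cov_step (t : ℕ) {S : Finset α} {K : Finset (Finset α)} {x : α} (hx : x ∈ S) :
    cov t (S.erase x) (K.memberSubfamily x) + cov t (S.erase x) (K.nonMemberSubfamily x)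
      ≤ cov t S K := by
  classical
  conv_rhs => unfold cov; rw [← insert_erase hx]
  rw [Finset.sum_powerset_insert (notMem_erase x S), add_comm]
  unfold cov
  apply add_le_add
  · apply Finset.sum_le_sum
    intro X hX
    split_ifs with h2 h3 h3
    · exact le_rfl
    · obtain ⟨B, hB, hc⟩ := h2
      rw [mem_nonMemberSubfamily] at hB
      exact absurd ⟨B, hB.1, hc⟩ h3
    · norm_num
    · exact le_rfl
  · apply Finset.sum_le_sum
    intro X hX
    rw [mem_powerset] at hX
    have hxX : x ∉ X := fun h => (mem_erase.1 (hX h)).1 rfl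
    split_ifs with h2 h3 h3
    · exact le_rfl
    · obtain ⟨B, hB, hc⟩ := h2
      rw [mem_memberSubfamily] at hB
      exact absurd ⟨insert x B, hB.1, by rwa [card_symmDiff_insert hxX hB.2]⟩ h3
    · norm_num
    · exact le_rfl

/-- the statement for ground sets of size `m` -/
def CovStat (α : Type*) [DecidableEq α] (t m : ℕ) : Prop :=
  ∀ (S : Finset α), S.card = m → ∀ K : Finset (Finset α),
    IsAntichain (· ⊆ ·) (K : Set (Finset α)) → (∀ B ∈ K, B ⊆ S) →
    ∀ (a : ℕ) (τ : ℝ), 0 ≤ τ → τ ≤ 1 → 2 * a + 1 ≤ m →
    (m.choose a : ℝ) + τ * dd m (a + 1) ≤ K.card → WW t m a + τ * vv t m (a + 1) ≤ cov t S K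

/-- bound for one half -/
lemma cov_half {t m : ℕ} (ih : CovStat α t m) (S : Finset α) (hm : S.card = m)
    (K : Finset (Finset α))
    (hK : IsAntichain (· ⊆ ·) (K : Set (Finset α))) (hS : ∀ B ∈ K, B ⊆ S) (a : ℕ) (τ : ℝ)
    (h0 : 0 ≤ τ) (h1 : τ ≤ 1) (h2 : 2 * a < m) (hne : 1 ≤ a ∨ 0 < τ)
    (hP : (m.choose a : ℝ) - (1 - τ) * dd m a ≤ K.card) :
    ∃ θ : ℝ, 0 ≤ θ ∧ θ ≤ 1 ∧
      ((1 - θ) * (WW t m a - (1 - τ) * vv t m a) + θ * (WW t m a + τ * vv t m (a + 1)) ≤ cov t S K)
      ∧ (θ = 1 ∨ (0 < (1 - τ) * dd m a + τ * dd m (a + 1) ∧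
        (K.card : ℝ) = (m.choose a : ℝ) - (1 - τ) * dd m a +
          θ * ((1 - τ) * dd m a + τ * dd m (a + 1)))) := by
  have hV : 0 ≤ dd m a := dd_nonneg m a (by omega)
  have hW : 0 ≤ dd m (a + 1) := dd_nonneg m (a + 1) (by omega)
  have hk := vkink t m a (by omega)
  rcases le_or_gt ((m.choose a : ℝ) + τ * dd m (a + 1)) K.card with hQ | hQ
  · refine ⟨1, by norm_num, le_rfl, ?_, Or.inl rfl⟩
    have := ih S hm K hK hS a τ h0 h1 (by omega) hQ
    simpa using this
  · have hD : 0 < (1 - τ) * dd m a + τ * dd m (a + 1) := by linarith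
    set D := (1 - τ) * dd m a + τ * dd m (a + 1) with hDdef
    set y : ℝ := (K.card : ℝ) with hy
    refine ⟨(y - ((m.choose a : ℝ) - (1 - τ) * dd m a)) / D, div_nonneg (by linarith) hD.le, ?_, ?_,
      Or.inr ⟨hD, by field_simp; ring⟩⟩
    · rw [div_le_one hD, hDdef]; linarith
    · rcases le_or_gt (m.choose a : ℝ) y with hC | hC
      · -- upper part
        have hWp : 0 < dd m (a + 1) := by
          by_contra hcon
          have : dd m (a + 1) = 0 := le_antisymm (not_lt.1 hcon) hW
          rw [this, mul_zero, add_zero] at hQ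
          linarith
        set σ := (y - m.choose a) / dd m (a + 1) with hσ
        have hσ0 : 0 ≤ σ := div_nonneg (by linarith) hW
        have hyσ : y = m.choose a + σ * dd m (a + 1) := by rw [hσ]; field_simp; ring
        have hστ : σ ≤ τ := by
          rw [hσ, div_le_iff₀ hWp]; linarith
        have hs := ih S hm K hK hS a σ hσ0 (hστ.trans h1) (by omega) (le_of_eq hyσ.symm)
        refine le_trans ?_ hs
        have hth : (y - ((m.choose a : ℝ) - (1 - τ) * dd m a)) / D =
            ((1 - τ) * dd m a + σ * dd m (a + 1)) / D := by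
          congr 1; rw [hyσ]; ring
        rw [hth]
        set θ := ((1 - τ) * dd m a + σ * dd m (a + 1)) / D with hθ
        have hθD : θ * D = (1 - τ) * dd m a + σ * dd m (a + 1) := by
          rw [hθ]; field_simp
        have hmain : 0 ≤ D * ((WW t m a + σ * vv t m (a + 1)) -
            ((1 - θ) * (WW t m a - (1 - τ) * vv t m a) +
            θ * (WW t m a + τ * vv t m (a + 1)))) := by
          have e : D * ((WW t m a + σ * vv t m (a + 1)) -
            ((1 - θ) * (WW t m a - (1 - τ) * vv t m a) +
            θ * (WW t m a + τ * vv t m (a + 1)))) =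
            (τ - σ) * (1 - τ) * (dd m (a + 1) * vv t m a - dd m a * vv t m (a + 1)) := by
            have : D * ((WW t m a + σ * vv t m (a + 1)) -
              ((1 - θ) * (WW t m a - (1 - τ) * vv t m a) +
              θ * (WW t m a + τ * vv t m (a + 1)))) =
              (D - θ * D) * ((1 - τ) * vv t m a) - (θ * D) * (τ * vv t m (a + 1))
                + D * (σ * vv t m (a + 1)) := by ring
            rw [this, hθD, hDdef]
            ring
          rw [e]
          apply mul_nonneg (mul_nonneg (by linarith) (by linarith)) (by linarith)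
        have := nonneg_of_mul_nonneg_right hmain hD
        linarith
      · -- lower part
        rcases Nat.eq_zero_or_pos a with ha | ha
        · exfalso
          subst ha
          have ht : 0 < τ := by rcases hne with h | h; · omega
                                · exact h
          rw [dd_zero, Nat.choose_zero_right] at hP
          rw [Nat.choose_zero_right] at hC
          have h3 : (0 : ℝ) < y := by push_cast at hP; linarith
          rw [hy] at h3 hC
          have h4 : 0 < K.card := by exact_mod_cast h3
          have h5 : K.card < 1 := by exact_mod_cast hC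
          omega
        · obtain ⟨b, rfl⟩ : ∃ b, a = b + 1 := ⟨a - 1, by omega⟩
          have hVp : 0 < dd m (b + 1) := dd_pos m b (by omega)
          set σ := (m.choose (b + 1) - y) / dd m (b + 1) with hσ
          have hσ0 : 0 ≤ σ := div_nonneg (by linarith) hV
          have hyσ : y = m.choose (b + 1) - σ * dd m (b + 1) := by rw [hσ]; field_simp; ring
          have hσt : σ ≤ 1 - τ := by
            rw [hσ, div_le_iff₀ hVp]; linarith
          have hs := ih S hm K hK hS b (1 - σ) (by linarith) (by linarith) (by omega) (by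
            rw [← hy, hyσ, dd_succ]; linarith)
          refine le_trans ?_ hs
          have g2 : WW t m b + (1 - σ) * vv t m (b + 1) =
              WW t m (b + 1) - σ * vv t m (b + 1) := by
            rw [WW_succ]; ring
          rw [g2]
          have hth : (y - ((m.choose (b + 1) : ℝ) - (1 - τ) * dd m (b + 1))) / D =
              ((1 - τ - σ) * dd m (b + 1)) / D := by
            congr 1; rw [hyσ]; ring
          rw [hth]
          set θ := ((1 - τ - σ) * dd m (b + 1)) / D with hθ
          have hθD : θ * D = (1 - τ - σ) * dd m (b + 1) := by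
            rw [hθ]; field_simp
          have hmain : 0 ≤ D * ((WW t m (b + 1) - σ * vv t m (b + 1)) -
              ((1 - θ) * (WW t m (b + 1) - (1 - τ) * vv t m (b + 1)) +
              θ * (WW t m (b + 1) + τ * vv t m (b + 1 + 1)))) := by
            have e : D * ((WW t m (b + 1) - σ * vv t m (b + 1)) -
              ((1 - θ) * (WW t m (b + 1) - (1 - τ) * vv t m (b + 1)) +
              θ * (WW t m (b + 1) + τ * vv t m (b + 1 + 1)))) =
              (1 - τ - σ) * τ * (dd m (b + 1 + 1) * vv t m (b + 1) - dd m (b + 1) * vv t m (b + 1 + 1)) := by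
              have : D * ((WW t m (b + 1) - σ * vv t m (b + 1)) -
                ((1 - θ) * (WW t m (b + 1) - (1 - τ) * vv t m (b + 1)) +
                θ * (WW t m (b + 1) + τ * vv t m (b + 1 + 1)))) =
                (D - θ * D) * ((1 - τ) * vv t m (b + 1)) - (θ * D) * (τ * vv t m (b + 1 + 1))
                  - D * (σ * vv t m (b + 1)) := by ring
              rw [this, hθD, hDdef]
              ring
            rw [e]
            apply mul_nonneg (mul_nonneg (by linarith) h0) (by linarith)
          have := nonneg_of_mul_nonneg_right hmain hD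
          linarith

/-- the non-degenerate step -/
lemma cov_step_main {t m : ℕ} (ih : CovStat α t m) (S : Finset α) (hm : S.card = m + 1)
    (K : Finset (Finset α)) (hK : IsAntichain (· ⊆ ·) (K : Set (Finset α)))
    (hS : ∀ B ∈ K, B ⊆ S) (hKne : K.Nonempty) (a : ℕ) (τ : ℝ)
    (h0 : 0 ≤ τ) (h1 : τ ≤ 1) (h2 : 2 * a < m)
    (hcard : ((m + 1).choose a : ℝ) + τ * dd (m + 1) (a + 1) ≤ K.card) :
    WW t (m + 1) a + τ * vv t (m + 1) (a + 1) ≤ cov t S K := by
  by_cases h00 : a = 0 ∧ τ = 0
  · obtain ⟨rfl, rfl⟩ := h00
    have := cov_const t hS hKne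
    rw [hm] at this
    simpa using this
  have hne : 1 ≤ a ∨ 0 < τ := by
    by_contra hcon
    push Not at hcon
    exact h00 ⟨by omega, le_antisymm hcon.2 h0⟩
  obtain ⟨x, hx, hx1, hx0⟩ := coordFull m S hm K hK hS a h2 τ hcard
  have hcx : (S.erase x).card = m := by rw [card_erase_of_mem hx, hm]; rfl
  have sub1 : ∀ B ∈ K.memberSubfamily x, B ⊆ S.erase x := by
    intro A hA
    rw [mem_memberSubfamily] at hA
    intro y hy
    rw [mem_erase]
    exact ⟨fun hyx => hA.2 (hyx ▸ hy), hS _ hA.1 (mem_insert_of_mem hy)⟩
  have sub0 : ∀ B ∈ K.nonMemberSubfamily x, B ⊆ S.erase x := by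
    intro A hA
    rw [mem_nonMemberSubfamily] at hA
    intro y hy
    rw [mem_erase]
    exact ⟨fun hyx => hA.2 (hyx ▸ hy), hS _ hA.1 hy⟩
  obtain ⟨θ1, p1, q1, s1, r1⟩ := cov_half ih (S.erase x) hcx _ (VPair.anti_member x hK) sub1 a τ
    h0 h1 h2 hne hx1
  obtain ⟨θ0, p0, q0, s0, r0⟩ := cov_half ih (S.erase x) hcx _ (VPair.anti_nonMember x hK) sub0 a τ
    h0 h1 h2 hne hx0
  have hs := cov_step t (K := K) hx
  refine le_trans ?_ hs
  rw [WW_double, vv_pascal]
  have hmon : WW t m a - (1 - τ) * vv t m a ≤ WW t m a + τ * vv t m (a + 1) := by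
    have e1 := mul_nonneg h0 (vv_nonneg t m (a + 1) (by omega))
    have e0 := mul_nonneg (sub_nonneg.2 h1) (vv_nonneg t m a (by omega))
    linarith
  have hθ : 1 ≤ θ1 + θ0 := by
    rcases r1 with r1 | ⟨hD, r1⟩
    · linarith
    rcases r0 with r0 | ⟨_, r0⟩
    · linarith
    have hsum := card_memberSubfamily_add_card_nonMemberSubfamily x K
    have hsumR : ((K.memberSubfamily x).card : ℝ) + ((K.nonMemberSubfamily x).card : ℝ) = K.card := by
      exact_mod_cast hsum
    rw [r1, r0] at hsumR
    rw [← hsumR] at hcard
    have e1 : ((m + 1).choose a : ℝ) = 2 * (m.choose a : ℝ) - dd m a := by unfold dd; ring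
    rw [e1, dd_pascal] at hcard
    have e2 : 0 ≤ (θ1 + θ0 - 1) * ((1 - τ) * dd m a + τ * dd m (a + 1)) := by nlinarith
    have := nonneg_of_mul_nonneg_left e2 hD
    linarith
  nlinarith

theorem covStat (t : ℕ) : ∀ m : ℕ, CovStat α t m := by
  intro m
  induction m with
  | zero => intro S hm K hK hS a τ h0 h1 h2; omega
  | succ m ih =>
    intro S hm K hK hS a τ h0 h1 h2 hcard
    have hW : 0 ≤ dd (m + 1) (a + 1) := dd_nonneg _ _ (by omega)
    have hcpos : (0 : ℝ) < (m + 1).choose a := by exact_mod_cast Nat.choose_pos (by omega)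
    have hKne : K.Nonempty := by
      rw [← card_pos]
      have := mul_nonneg h0 hW
      have : (0 : ℝ) < K.card := by linarith
      exact_mod_cast this
    rcases Nat.lt_or_ge (2 * a) m with h3 | h3
    · exact cov_step_main ih S hm K hK hS hKne a τ h0 h1 h3 hcard
    · obtain rfl : m = 2 * a := by omega
      rw [vv_mid, mul_zero, add_zero]
      rw [dd_mid, mul_zero, add_zero] at hcard
      rcases Nat.eq_zero_or_pos a with ha | ha
      · subst ha
        have := cov_const t hS hKne
        rw [hm] at this
        simpa using this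
      · obtain ⟨b, rfl⟩ : ∃ b, a = b + 1 := ⟨a - 1, by omega⟩
        have := cov_step_main ih S hm K hK hS hKne b 1 (by norm_num) le_rfl (by omega) (by
          rw [dd_succ]; linarith)
        rw [WW_succ]
        linarith

end DiamEven
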