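import Mathlib

/-! Numerical lemmas for the diameter problem. -/

namespace DiamEven

open Finset

lemma bern (n u Q : ℕ) (hu : 1 ≤ u) (hn : u ≤ n) :
    n.choose u * (n + u * Q) ≤ n * (n + Q).choose u := by
  induction Q with
  | zero => simp [mul_comm]
  | succ Q ih =>
    obtain ⟨v, rfl⟩ : ∃ v, u = v + 1 := ⟨u - 1, by omega⟩
    have h1 : (n + (Q + 1)).choose (v + 1) = (n + Q).choose v + (n + Q).choose (v + 1) := by
      rw [← Nat.add_assoc, Nat.choose_succ_succ]
    have h2 : n.choose (v + 1) * (v + 1) = n.choose v * (n - v) := Nat.choose_succ_right_eq n v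
    have h3 : n.choose v ≤ (n + Q).choose v := Nat.choose_le_choose v (by omega)
    have h4 : n.choose v * (n - v) ≤ n.choose v * n := Nat.mul_le_mul_left _ (by omega)
    rw [h1]
    calc n.choose (v + 1) * (n + (v + 1) * (Q + 1))
        = n.choose (v + 1) * (n + (v + 1) * Q) + n.choose (v + 1) * (v + 1) := by ring
      _ ≤ n * (n + Q).choose (v + 1) + n.choose v * n := by
          rw [h2]; exact Nat.add_le_add ih h4
      _ ≤ n * (n + Q).choose (v + 1) + (n + Q).choose v * n :=
          Nat.add_le_add_left (Nat.mul_le_mul_right _ h3) _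
      _ = n * ((n + Q).choose v + (n + Q).choose (v + 1)) := by ring

/-- the ratio version -/
lemma bern_div (n u p : ℕ) (hu : 1 ≤ u) (hn : u ≤ n) (hp : n ≤ p) :
    (1 : ℝ) + u * ((p : ℝ) - n) / n ≤ (p.choose u : ℝ) / n.choose u := by
  obtain ⟨Q, rfl⟩ := Nat.exists_eq_add_of_le hp
  have h := bern n u Q hu hn
  have hn0 : (0 : ℝ) < n := by exact_mod_cast (by omega : 0 < n)
  have hc : (0 : ℝ) < n.choose u := by exact_mod_cast Nat.choose_pos hn
  have h' : ((n.choose u : ℝ)) * (n + u * Q) ≤ n * (n + Q).choose u := by exact_mod_cast h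
  rw [le_div_iff₀ hc]
  have : (1 + (u : ℝ) * (((n + Q : ℕ) : ℝ) - n) / n) * n.choose u
      = ((n.choose u : ℝ)) * (n + u * Q) / n := by
    push_cast
    field_simp
    ring
  rw [this, div_le_iff₀ hn0]
  linarith

/-- The key elementary inequality. -/
lemma star (i j u p q : ℕ) (hu : 1 ≤ u) (h : 2 * (i + j + u) ≤ i + j + p + q) :
    ((i + j + u : ℝ) + ((i + j + p + q : ℝ) + 1 - 2 * (i + j + u)) * u)
      ≤ (i + j + u : ℝ) * ((p.choose u : ℝ) / (j + u).choose u
          + (q.choose u : ℝ) / (i + u).choose u) := by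
  have ha : (0 : ℝ) < i + j + u := by positivity
  have hu0 : (1 : ℝ) ≤ u := by exact_mod_cast hu
  have hX0 : (0 : ℝ) ≤ (p.choose u : ℝ) / (j + u).choose u := by positivity
  have hY0 : (0 : ℝ) ≤ (q.choose u : ℝ) / (i + u).choose u := by positivity
  have hR : (2 : ℝ) * (i + j + u) ≤ i + j + p + q := by exact_mod_cast h
  have key : ∀ (j p : ℕ) (i : ℕ), j + u ≤ p →
      (i + j + u : ℝ) + u * ((p : ℝ) - (j + u)) ≤
        (i + j + u : ℝ) * ((p.choose u : ℝ) / (j + u).choose u) := by
    intro j p i hp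
    have hb := bern_div (j + u) u p hu (by omega) hp
    have hj : (0 : ℝ) < ((j + u : ℕ) : ℝ) := by exact_mod_cast (by omega : 0 < j + u)
    have hp' : (0 : ℝ) ≤ (p : ℝ) - (j + u) := by
      have : ((j + u : ℕ) : ℝ) ≤ p := by exact_mod_cast hp
      push_cast at this; linarith
    have h1 : (i + j + u : ℝ) * (1 + u * ((p : ℝ) - ((j + u : ℕ) : ℝ)) / ((j + u : ℕ) : ℝ))
        ≤ (i + j + u : ℝ) * ((p.choose u : ℝ) / (j + u).choose u) :=
      mul_le_mul_of_nonneg_left hb (by positivity)
    refine le_trans ?_ h1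
    have h2 : (i + j + u : ℝ) * (1 + u * ((p : ℝ) - ((j + u : ℕ) : ℝ)) / ((j + u : ℕ) : ℝ))
        = (i + j + u : ℝ) + ((i + j + u : ℝ) / ((j + u : ℕ) : ℝ)) *
            (u * ((p : ℝ) - ((j + u : ℕ) : ℝ))) := by
      field_simp
    rw [h2]
    have h3 : (1 : ℝ) ≤ (i + j + u : ℝ) / ((j + u : ℕ) : ℝ) := by
      rw [le_div_iff₀ hj]; push_cast
      have : (0 : ℝ) ≤ i := by positivity
      linarith
    have h4 : (0 : ℝ) ≤ u * ((p : ℝ) - ((j + u : ℕ) : ℝ)) := by
      push_cast; positivity
    have h5 := mul_le_mul_of_nonneg_right h3 h4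
    push_cast at h5 ⊢
    linarith
  by_cases hP : j + u ≤ p
  · by_cases hQ : i + u ≤ q
    · have k1 := key j p i hP
      have k2 := key i q j hQ
      have : (i + j + u : ℝ) * ((p.choose u : ℝ) / (j + u).choose u
          + (q.choose u : ℝ) / (i + u).choose u)
          = (i + j + u : ℝ) * ((p.choose u : ℝ) / (j + u).choose u)
            + (j + i + u : ℝ) * ((q.choose u : ℝ) / (i + u).choose u) := by ring
      rw [this]
      have hi : (0:ℝ) ≤ i := by positivity
      have hj : (0:ℝ) ≤ j := by positivity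
      nlinarith [k1, k2]
    · -- q < i + u : then use the first
      have k1 := key j p i hP
      have hq : (q : ℝ) + 1 ≤ i + u := by
        have : q + 1 ≤ i + u := by omega
        exact_mod_cast this
      have h2 : (0:ℝ) ≤ (i + j + u : ℝ) * ((q.choose u : ℝ) / (i + u).choose u) := by positivity
      rw [mul_add]
      nlinarith [k1, h2]
  · have hQ : i + u ≤ q := by omega
    have k2 := key i q j hQ
    have hp : (p : ℝ) + 1 ≤ j + u := by
      have : p + 1 ≤ j + u := by omega
      exact_mod_cast this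
    have h2 : (0:ℝ) ≤ (i + j + u : ℝ) * ((p.choose u : ℝ) / (j + u).choose u) := by positivity
    rw [mul_add]
    have e : (j + i + u : ℝ) = i + j + u := by ring
    rw [e] at k2
    nlinarith [k2, h2]

/-- The weaker inequality used for the ball lemma. -/
lemma star0 (i j u p q : ℕ) (hu : 1 ≤ u) (h : 2 * (i + j + u) ≤ i + j + p + q) :
    (1 : ℝ) ≤ ((p.choose u : ℝ) / (j + u).choose u + (q.choose u : ℝ) / (i + u).choose u) := by
  have h1 := star i j u p q hu h
  have ha : (0 : ℝ) < i + j + u := by positivity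
  have hu0 : (1 : ℝ) ≤ u := by exact_mod_cast hu
  have hR : (2 : ℝ) * (i + j + u) ≤ i + j + p + q := by exact_mod_cast h
  have h2 : (i + j + u : ℝ) * 1 ≤ (i + j + u : ℝ) * ((p.choose u : ℝ) / (j + u).choose u
          + (q.choose u : ℝ) / (i + u).choose u) := by
    refine le_trans ?_ h1
    nlinarith
  exact le_of_mul_le_mul_left h2 ha

end DiamEven
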