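import Pool.Agent.DiamEven.Iso

/-! Pairs of antichains whose members avoid two opposite balls. -/

namespace DiamEven

open Finset

lemma vv_pos (t m : ℕ) : ∀ j : ℕ, 2 * j ≤ m → j + t ≤ m → 0 < vv t m j := by
  induction m with
  | zero =>
    intro j hj ht
    have : j = 0 := by omega
    subst this
    rw [vv_zero]
    exact_mod_cast Nat.choose_pos (by omega)
  | succ m ih =>
    intro j hj ht
    rcases j with _ | j
    · rw [vv_zero]
      exact_mod_cast Nat.choose_pos (by omega)
    · rw [vv_pascal]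
      have h1 := ih j (by omega) (by omega)
      have h2 := vv_nonneg t m (j + 1) (by omega)
      linarith

variable {n : ℕ}

lemma card_symmDiff_compl (A Z : Finset (Fin n)) : (symmDiff Aᶜ Z).card + (symmDiff A Z).card = n := by
  have h : symmDiff Aᶜ Z = (symmDiff A Z)ᶜ := by
    ext x
    simp only [mem_symmDiff, mem_compl]
    tauto
  rw [h, card_compl, Fintype.card_fin]
  have : (symmDiff A Z).card ≤ n := by simpa using card_le_univ (symmDiff A Z)
  omega

lemma card_symmDiff_comm' (A B : Finset (Fin n)) : (symmDiff A B).card = (symmDiff B A).card := by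
  rw [symmDiff_comm]

lemma tri (A B C : Finset (Fin n)) :
    (symmDiff A C).card ≤ (symmDiff A B).card + (symmDiff B C).card :=
  (card_le_card (symmDiff_triangle A B C)).trans (card_union_le _ _)

/-- the cross inequality -/
theorem cross_window (n k a b t t' : ℕ) (htt : t + t' + 1 = k) (hab : a + b + k = n)
    (Z : Finset (Fin n)) (K Q : Finset (Finset (Fin n)))
    (hd : ∀ A ∈ K, ∀ B ∈ Q, (symmDiff A B).card ≤ n - k)
    (hK1 : ∀ A ∈ K, a ≤ (symmDiff A Z).card)
    (hK2 : ∀ A ∈ K, (symmDiff A Z).card + b + t ≤ n + t')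
    (hQ1 : ∀ B ∈ Q, b ≤ (symmDiff B Z).card)
    (hQ2 : ∀ B ∈ Q, (symmDiff B Z).card + a + t' ≤ n + t) :
    cov t (univ : Finset (Fin n)) K + cov t' (univ : Finset (Fin n)) Q ≤ WW t n a + WW t' n b := by
  classical
  -- rewrite the second sum with complements
  have h1 : cov t' (univ : Finset (Fin n)) Q =
      ∑ X ∈ (univ : Finset (Fin n)).powerset,
        (if ∃ B ∈ Q, (symmDiff Xᶜ B).card ≤ t' then (1 : ℝ) else 0) := by
    unfold cov
    apply Finset.sum_nbij' (fun X => Xᶜ) (fun X => Xᶜ)
    · intro X _; simp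
    · intro X _; simp
    · intro X _; simp
    · intro X _; simp
    · intro X _
      simp only [compl_compl]
  have h2 : cov t (univ : Finset (Fin n)) K + cov t' (univ : Finset (Fin n)) Q ≤
      ∑ X ∈ (univ : Finset (Fin n)).powerset,
        (if a ≤ (symmDiff X Z).card + t ∧ (symmDiff X Z).card + b ≤ n + t' then (1 : ℝ) else 0) := by
    rw [h1]
    unfold cov
    rw [← Finset.sum_add_distrib]
    apply Finset.sum_le_sum
    intro X _
    have hXZ := card_symmDiff_compl X Z
    by_cases hA : ∃ B ∈ K, (symmDiff X B).card ≤ t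
    · obtain ⟨A, hA1, hA2⟩ := hA
      have hnB : ¬ ∃ B ∈ Q, (symmDiff Xᶜ B).card ≤ t' := by
        rintro ⟨B, hB1, hB2⟩
        have e1 := hd A hA1 B hB1
        have e2 := card_symmDiff_compl X B
        have e3 := tri X A B
        omega
      rw [if_neg hnB, if_pos ⟨A, hA1, hA2⟩, add_zero, if_pos]
      have e1 := tri X A Z
      have e2 := tri A X Z
      rw [card_symmDiff_comm' A X] at e2
      have e3 := hK1 A hA1
      have e4 := hK2 A hA1
      constructor <;> omega
    · rw [if_neg hA, zero_add]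
      by_cases hB : ∃ B ∈ Q, (symmDiff Xᶜ B).card ≤ t'
      · obtain ⟨B, hB1, hB2⟩ := hB
        rw [if_pos ⟨B, hB1, hB2⟩, if_pos]
        have e1 := tri Xᶜ B Z
        have e2 := tri B Xᶜ Z
        rw [card_symmDiff_comm' B Xᶜ] at e2
        have e3 := hQ1 B hB1
        have e4 := hQ2 B hB1
        constructor <;> omega
      · rw [if_neg hB]
        split_ifs <;> norm_num
  refine h2.trans (le_of_eq ?_)
  have h3 : ∑ X ∈ (univ : Finset (Fin n)).powerset,
        (if a ≤ (symmDiff X Z).card + t ∧ (symmDiff X Z).card + b ≤ n + t' then (1 : ℝ) else 0) =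
      ∑ X ∈ (univ : Finset (Fin n)).powerset,
        (if a ≤ X.card + t ∧ X.card + b ≤ n + t' then (1 : ℝ) else 0) := by
    apply Finset.sum_nbij' (fun X => symmDiff X Z) (fun X => symmDiff X Z)
    · intro X _; simp
    · intro X _; simp
    · intro X _; exact symmDiff_symmDiff_cancel_right Z X
    · intro X _; exact symmDiff_symmDiff_cancel_right Z X
    · intro X _; rfl
  rw [h3, Finset.sum_powerset_apply_card
    (fun j => if a ≤ j + t ∧ j + b ≤ n + t' then (1 : ℝ) else 0), card_univ, Fintype.card_fin]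
  have h4 : WW t' n b = ∑ j ∈ range (n + 1), (n.choose j : ℝ) *
      (if b ≤ (n - j) + t' ∧ n - j ≤ b + t' then 1 else 0) := by
    unfold WW
    rw [← Finset.sum_range_reflect]
    apply Finset.sum_congr rfl
    intro j hj
    rw [mem_range] at hj
    have e1 : n + 1 - 1 - j = n - j := by omega
    rw [e1, Nat.choose_symm (by omega)]
  rw [h4]
  unfold WW
  rw [← Finset.sum_add_distrib]
  apply Finset.sum_congr rfl
  intro j hj
  rw [mem_range] at hj
  rw [nsmul_eq_mul, ← mul_add]
  congr 1
  by_cases hj1 : j ≤ a + t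
  · by_cases hj2 : a ≤ j + t
    · rw [if_pos (by omega), if_pos (by omega), if_neg (by omega), add_zero]
    · rw [if_neg (by omega), if_neg (by omega), if_neg (by omega), add_zero]
  · by_cases hj2 : j + b ≤ n + t'
    · rw [if_pos (by omega), if_neg (by omega), if_pos (by omega), zero_add]
    · rw [if_neg (by omega), if_neg (by omega), if_neg (by omega), add_zero]

/-- pairs of antichains -/
theorem cross_hole (n k a b t t' : ℕ) (htt : t + t' + 1 = k) (hab : a + b + k = n)
    (ha : 2 * a + 1 ≤ n) (hb : 2 * b + 1 ≤ n)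
    (Z : Finset (Fin n)) (K Q : Finset (Finset (Fin n)))
    (hK : IsAntichain (· ⊆ ·) (K : Set (Finset (Fin n))))
    (hQ : IsAntichain (· ⊆ ·) (Q : Set (Finset (Fin n))))
    (hd : ∀ A ∈ K, ∀ B ∈ Q, (symmDiff A B).card ≤ n - k)
    (hK1 : ∀ A ∈ K, a ≤ (symmDiff A Z).card)
    (hK2 : ∀ A ∈ K, (symmDiff A Z).card + b + t ≤ n + t')
    (hQ1 : ∀ B ∈ Q, b ≤ (symmDiff B Z).card)
    (hQ2 : ∀ B ∈ Q, (symmDiff B Z).card + a + t' ≤ n + t)
    (hc : n.choose a ≤ K.card) : Q.card ≤ n.choose b := by
  by_contra hcon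
  push Not at hcon
  have h1 := cross_window n k a b t t' htt hab Z K Q hd hK1 hK2 hQ1 hQ2
  have h2 := covStat (α := Fin n) t n univ (by simp) K hK (fun _ _ => subset_univ _) a 0 le_rfl
    zero_le_one ha (by rw [zero_mul, add_zero]; exact_mod_cast hc)
  rw [zero_mul, add_zero] at h2
  rcases Nat.lt_or_ge n (2 * (b + 1)) with h | h
  · -- n = 2 b + 1
    have h3 := IsAntichain.sperner hQ
    rw [Fintype.card_fin] at h3
    have : n / 2 = b := by omega
    rw [this] at h3
    omega
  · have hdd : 0 < dd n (b + 1) := dd_pos n b h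
    have hvv : 0 < vv t' n (b + 1) := vv_pos t' n (b + 1) h (by omega)
    have hQR : (n.choose b : ℝ) + 1 ≤ Q.card := by exact_mod_cast hcon
    set τ : ℝ := min 1 (1 / dd n (b + 1)) with hτ
    have hτ0 : 0 < τ := lt_min one_pos (by positivity)
    have hτ1 : τ ≤ 1 := min_le_left _ _
    have hτd : τ * dd n (b + 1) ≤ 1 := by
      have : τ ≤ 1 / dd n (b + 1) := min_le_right _ _
      calc τ * dd n (b + 1) ≤ 1 / dd n (b + 1) * dd n (b + 1) :=
            mul_le_mul_of_nonneg_right this hdd.le
        _ = 1 := by field_simp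
    have h3 := covStat (α := Fin n) t' n univ (by simp) Q hQ (fun _ _ => subset_univ _) b τ hτ0.le
      hτ1 hb (by linarith)
    have h4 := mul_pos hτ0 hvv
    linarith

lemma card_symmDiff_compl_compl (A B : Finset (Fin n)) :
    (symmDiff Aᶜ Bᶜ).card = (symmDiff A B).card := by
  congr 1
  ext x
  simp only [mem_symmDiff, mem_compl]
  tauto

/-- single families: `F` misses the open balls of radius `s` around `Z` and around its
complement -/
theorem hole_even (n k : ℕ) (hk : 1 ≤ k) (hkn : k ≤ n) (he : Even (n + k))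
    (F : Finset (Finset (Fin n)))
    (hF : IsAntichain (· ⊆ ·) (F : Set (Finset (Fin n))))
    (hd : ∀ A ∈ F, ∀ B ∈ F, (symmDiff A B).card ≤ n - k) (Z : Finset (Fin n))
    (h1 : ∀ A ∈ F, (n - k) / 2 ≤ (symmDiff A Z).card)
    (h2 : ∀ A ∈ F, (symmDiff A Z).card ≤ (n + k) / 2)
    (h3 : Odd n ∨ (∀ A ∈ F, (symmDiff A Z).card ≠ (n - k) / 2) ∨
      (∀ A ∈ F, (symmDiff A Z).card ≠ (n + k) / 2)) :
    F.card ≤ n.choose ((n + k) / 2) := by
  obtain ⟨r, hr⟩ := he
  obtain ⟨s, hs⟩ : ∃ s, n = 2 * s + k := ⟨(n - k) / 2, by omega⟩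
  have e1 : (n + k) / 2 = n - s := by omega
  have e2 : (n - k) / 2 = s := by omega
  have h5 : n.choose ((n + k) / 2) = n.choose s := by
    rw [e1]; exact Nat.choose_symm (by omega)
  rw [h5]
  rw [e1] at h2 h3
  rw [e2] at h1 h3
  by_contra hcon
  push Not at hcon
  rcases Nat.even_or_odd n with hn | hn
  · -- n even
    have hn' : ¬ Odd n := Nat.not_odd_iff_even.2 hn
    obtain ⟨c, hc⟩ := hn
    obtain ⟨t, ht⟩ : ∃ t, k = 2 * t + 2 := ⟨k / 2 - 1, by omega⟩
    rcases h3 with h3 | h3 | h3
    · exact hn' h3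
    · -- no member at distance s: use the complement of Z
      have hc2 : ∀ A ∈ F, (symmDiff A Zᶜ).card = n - (symmDiff A Z).card := by
        intro A _
        have := card_symmDiff_compl A Z
        have e : (symmDiff A Zᶜ).card = (symmDiff Aᶜ Z).card := by
          rw [← card_symmDiff_compl_compl A Zᶜ, compl_compl]
        omega
      have := cross_hole n k s s t (t + 1) (by omega) (by omega) (by omega) (by omega) Zᶜ F F hF hF
        hd (fun A hA => by rw [hc2 A hA]; have := h2 A hA; omega)
        (fun A hA => by rw [hc2 A hA]; have := h1 A hA; omega)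
        (fun A hA => by rw [hc2 A hA]; have := h2 A hA; omega)
        (fun A hA => by rw [hc2 A hA]; have := h1 A hA; have := h3 A hA; omega) hcon.le
      omega
    · have := cross_hole n k s s t (t + 1) (by omega) (by omega) (by omega) (by omega) Z F F hF hF
        hd (fun A hA => h1 A hA)
        (fun A hA => by have := h2 A hA; omega)
        (fun A hA => h1 A hA)
        (fun A hA => by have := h2 A hA; have := h3 A hA; omega) hcon.le
      omega
  · obtain ⟨c, hc⟩ := hn
    obtain ⟨t, ht⟩ : ∃ t, k = 2 * t + 1 := ⟨k / 2, by omega⟩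
    have := cross_hole n k s s t t (by omega) (by omega) (by omega) (by omega) Z F F hF hF
      hd (fun A hA => h1 A hA) (fun A hA => by have := h2 A hA; omega)
      (fun A hA => h1 A hA) (fun A hA => by have := h2 A hA; omega) hcon.le
    omega

end DiamEven
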